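import Mathlib
import Pool.Agent.H819.EM.Cyc

/-!
# Closed pseudoholomorphic curves: definitions
-/

set_option autoImplicit false

open Set Filter Topology MeasureTheory Metric
open scoped Manifold ContDiff ENNReal NNReal

noncomputable section

namespace Pool.Agent.H819.NC

open Pool.Agent.Y501.SY
open Pool.Agent.H819

/-- the pull-back of a form by a map of manifolds -/
def pullF {m d k : ℕ} {S X : Type} [TopologicalSpace S] [ChartedSpace (E m) S] [TopologicalSpace X]
    [ChartedSpace (E d) X] (u : S → X) (σ : Form d X k) : Form m S k :=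
  fun x => (σ (u x)).compContinuousLinearMap (mfderiv (𝓡 m) (𝓡 d) u x)

variable {d : ℕ} {X : Type} [TopologicalSpace X] [ChartedSpace (E d) X]
  {S : Type} [TopologicalSpace S] [ChartedSpace (E 2) S]

/-- A closed `J`-holomorphic curve `u : S → X`, which is an injective immersion off the preimage of the
finite set `P`. -/
structure Curve (J : End d X) (j : End 2 S) (u : S → X) (P : Set X) : Prop where
  smooth : ContMDiff (𝓡 2) (𝓡 d) ∞ u
  hol : ∀ (x : S) (v : TangentSpace (𝓡 2) x),
    mfderiv (𝓡 2) (𝓡 d) u x (j x v) = J (u x) (mfderiv (𝓡 2) (𝓡 d) u x v)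
  fin : P.Finite
  finp : (u ⁻¹' P).Finite
  inj : ∀ x y : S, u x = u y → u x ∉ P → x = y
  imm : ∀ x : S, u x ∉ P → Function.Injective (mfderiv (𝓡 2) (𝓡 d) u x)

end Pool.Agent.H819.NC
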