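import Mathlib
import Pool.Agent.H819.NC.Def
import Pool.Graph.R_seed8.Y604.SY.Pull

/-!
# Pull-back of smooth forms by smooth maps of manifolds
-/

set_option autoImplicit false

open Set Filter Topology MeasureTheory Metric
open scoped Manifold ContDiff ENNReal NNReal

noncomputable section

namespace Pool.Agent.H819.NC

open Pool.Agent.Y501.SY
open Pool.Agent.H819

namespace H663

variable {d m k : ℕ} {X Y : Type} [TopologicalSpace X] [ChartedSpace (E d) X]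
  [IsManifold (𝓡 d) ∞ X] [TopologicalSpace Y] [ChartedSpace (E m) Y] [IsManifold (𝓡 m) ∞ Y]

/-- the pull-back of a form on `Y` to the model space of another dimension -/
def pbG (σ : Form m Y k) (F : E d → Y) (p : E d) : (E d) [⋀^Fin k]→L[ℝ] ℝ :=
  (σ (F p)).compContinuousLinearMap (mfderiv (𝓡 d) (𝓡 m) F p)

omit [IsManifold (𝓡 m) ∞ Y] in
theorem pbG_congr (σ : Form m Y k) {F H : E d → Y} {p : E d} (h : F =ᶠ[𝓝 p] H) :
    pbG σ F p = pbG σ H p := by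
  have hp : F p = H p := h.eq_of_nhds
  have hd : (mfderiv (𝓡 d) (𝓡 m) F p : E d →L[ℝ] E m) = mfderiv (𝓡 d) (𝓡 m) H p :=
    h.mfderiv_eq
  ext v
  show (σ (F p) : (E m) [⋀^Fin k]→L[ℝ] ℝ)
      (fun i => (mfderiv (𝓡 d) (𝓡 m) F p : E d →L[ℝ] E m) (v i)) =
    (σ (H p) : (E m) [⋀^Fin k]→L[ℝ] ℝ)
      (fun i => (mfderiv (𝓡 d) (𝓡 m) H p : E d →L[ℝ] E m) (v i))
  rw [hd, hp]

omit [IsManifold (𝓡 m) ∞ Y] in
/-- the chain rule -/
theorem pbG_comp (σ : Form m Y k) {n : ℕ} {Z : Type} [TopologicalSpace Z] [ChartedSpace (E n) Z]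
    {f : Z → Y} {φ : E d → Z} {p : E d} (hf : MDifferentiableAt (𝓡 n) (𝓡 m) f (φ p))
    (hφ : MDifferentiableAt (𝓡 d) (𝓡 n) φ p) :
    pbG σ (f ∘ φ) p = ((σ (f (φ p))).compContinuousLinearMap
      (mfderiv (𝓡 n) (𝓡 m) f (φ p))).compContinuousLinearMap (mfderiv (𝓡 d) (𝓡 n) φ p) := by
  unfold pbG
  rw [mfderiv_comp p hf hφ]
  rfl

/-- local description of the pull-back in a chart, for all forms at the same time -/
theorem key {f : X → Y} (hf : ContMDiff (𝓡 d) (𝓡 m) ∞ f) (U : Set (E d)) (φ : E d → X)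
    (hU : IsOpen U) (hφ : ContMDiffOn (𝓡 d) (𝓡 d) ∞ φ U) (p₀ : E d) (hp₀ : p₀ ∈ U) :
    ∃ (T : Set (E m)) (χ : E m → Y) (ψ : E d → E m),
      IsOpen T ∧ ContMDiffOn (𝓡 m) (𝓡 m) ∞ χ T ∧ ψ p₀ ∈ T ∧ ContDiffAt ℝ ∞ ψ p₀ ∧
      ∀ (j : ℕ) (σ : Form m Y j), pb φ (pullF (m := d) f σ) =ᶠ[𝓝 p₀]
          fun p => (pb χ σ (ψ p)).compContinuousLinearMap (fderiv ℝ ψ p) := by
  obtain ⟨c, hc⟩ : ∃ c, c = chartAt (E m) (f (φ p₀)) := ⟨_, rfl⟩
  have hF : ContMDiffOn (𝓡 d) (𝓡 m) ∞ (f ∘ φ) U := hf.comp_contMDiffOn hφ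
  have hU' : IsOpen (U ∩ (f ∘ φ) ⁻¹' c.source) :=
    hF.continuousOn.isOpen_inter_preimage hU c.open_source
  have hp₀' : p₀ ∈ U ∩ (f ∘ φ) ⁻¹' c.source := by
    refine ⟨hp₀, ?_⟩
    rw [hc]
    exact mem_chart_source (E m) (f (φ p₀))
  have hcs : ContMDiffOn (𝓡 m) (𝓡 m) ∞ c c.source := by
    rw [hc]
    exact contMDiffOn_chart
  have hct : ContMDiffOn (𝓡 m) (𝓡 m) ∞ c.symm c.target := by
    rw [hc]
    exact contMDiffOn_chart_symm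
  have hψm : ContMDiffOn (𝓡 d) (𝓡 m) ∞ (c ∘ (f ∘ φ)) (U ∩ (f ∘ φ) ⁻¹' c.source) :=
    hcs.comp (hF.mono inter_subset_left) fun p hp => hp.2
  have hψ : ContDiffOn ℝ ∞ (c ∘ (f ∘ φ)) (U ∩ (f ∘ φ) ⁻¹' c.source) :=
    contMDiffOn_iff_contDiffOn.1 hψm
  have hmaps : ∀ p ∈ U ∩ (f ∘ φ) ⁻¹' c.source, (c ∘ (f ∘ φ)) p ∈ c.target := fun p hp =>
    c.map_source hp.2
  refine ⟨c.target, c.symm, c ∘ (f ∘ φ), c.open_target, hct, hmaps p₀ hp₀',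
    hψ.contDiffAt (hU'.mem_nhds hp₀'), ?_⟩
  intro j σ
  filter_upwards [hU'.mem_nhds hp₀'] with p hp
  have hφp : MDifferentiableAt (𝓡 d) (𝓡 d) φ p :=
    ((hφ p hp.1).contMDiffAt (hU.mem_nhds hp.1)).mdifferentiableAt (by simp)
  have hfp : MDifferentiableAt (𝓡 d) (𝓡 m) f (φ p) := (hf (φ p)).mdifferentiableAt (by simp)
  have hψp : MDifferentiableAt (𝓡 d) (𝓡 m) (c ∘ (f ∘ φ)) p :=
    ((hψm p hp).contMDiffAt (hU'.mem_nhds hp)).mdifferentiableAt (by simp)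
  have hcp : MDifferentiableAt (𝓡 m) (𝓡 m) c.symm ((c ∘ (f ∘ φ)) p) :=
    ((hct _ (hmaps p hp)).contMDiffAt (c.open_target.mem_nhds (hmaps p hp))).mdifferentiableAt
      (by simp)
  have h1 : pb φ (pullF (m := d) f σ) p = pbG σ (f ∘ φ) p := (pbG_comp σ hfp hφp).symm
  have h2 : (f ∘ φ) =ᶠ[𝓝 p] (c.symm ∘ (c ∘ (f ∘ φ))) := by
    filter_upwards [hU'.mem_nhds hp] with r hr
    exact (c.left_inv hr.2).symm
  have h3 : (pb c.symm σ ((c ∘ (f ∘ φ)) p)).compContinuousLinearMap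
      (fderiv ℝ (c ∘ (f ∘ φ)) p) = pbG σ (c.symm ∘ (c ∘ (f ∘ φ))) p := by
    rw [pbG_comp σ hcp hψp, mfderiv_eq_fderiv]
    rfl
  rw [h1, pbG_congr σ h2, h3]

end H663

variable {m d k : ℕ} {S X : Type} [TopologicalSpace S] [ChartedSpace (E m) S]
  [IsManifold (𝓡 m) ∞ S] [TopologicalSpace X] [ChartedSpace (E d) X] [IsManifold (𝓡 d) ∞ X]

/-- The pull-back of a smooth form is smooth. -/
theorem smooth_pullF {u : S → X} (hu : ContMDiff (𝓡 m) (𝓡 d) ∞ u) {σ : Form d X k}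
    (hσ : IsSmooth σ) : IsSmooth (pullF (m := m) u σ) := by
  intro U φ hU hφ p hp
  obtain ⟨T, χ, ψ, hT, hχ, hm, hψ, h⟩ := H663.key hu U φ hU hφ p hp
  have h1 : ContDiffAt ℝ ∞ (pb χ σ) (ψ p) := (hσ T χ hT hχ).contDiffAt (hT.mem_nhds hm)
  have h3 : ContDiffAt ℝ ∞ (fun p => (pb χ σ (ψ p), fderiv ℝ ψ p)) p :=
    (h1.comp p hψ).prodMk (hψ.fderiv_right (by simp))
  have h4 : ContDiffAt ℝ ∞ (fun p => (pb χ σ (ψ p)).compContinuousLinearMap (fderiv ℝ ψ p)) p :=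
    Pool.Agent.Y604.SY.contDiff_pull.contDiffAt.comp p h3
  exact (h4.congr_of_eventuallyEq (h k σ)).contDiffWithinAt

/-- The pull-back commutes with the exterior derivative. -/
theorem isD_pullF {u : S → X} (hu : ContMDiff (𝓡 m) (𝓡 d) ∞ u) {α : Form d X k}
    {η : Form d X (k + 1)} (hα : IsSmooth α) (hαη : IsD α η) :
    IsD (pullF (m := m) u α) (pullF u η) := by
  intro U φ hU hφ p hp
  obtain ⟨T, χ, ψ, hT, hχ, hm, hψ, h⟩ := H663.key hu U φ hU hφ p hp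
  have h1 : ContDiffAt ℝ ∞ (pb χ α) (ψ p) := (hα T χ hT hχ).contDiffAt (hT.mem_nhds hm)
  rw [(h k α).extDeriv_eq, extDeriv_pullback (r := ∞) (h1.differentiableAt (by simp)) hψ (by
    rw [minSmoothness_of_isRCLikeNormedField]
    exact WithTop.coe_le_coe.2 le_top), hαη T χ hT hχ (ψ p) hm, (h (k + 1) η).eq_of_nhds]

end Pool.Agent.H819.NC
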