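import Mathlib
import Pool.Agent.H819.EM.Pub

/-!
# Closed pseudoholomorphic curves: definitions
-/

set_option autoImplicit false

open Set Filter Topology MeasureTheory Metric
open scoped Manifold ContDiff ENNReal NNReal

noncomputable section

namespace Pool.Agent.H819.NCP

open Pool.Agent.Y501.SYP Pool.Agent.H819.LGP Pool.Agent.H819.EMP

variable {V : Type} [NormedAddCommGroup V] [NormedSpace ℝ V]
  {X : Type} [TopologicalSpace X] [ChartedSpace V X]
  {W : Type} [NormedAddCommGroup W] [NormedSpace ℝ W]
  {S : Type} [TopologicalSpace S] [ChartedSpace W S]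

/-- the derivative of `u` at `x` -/
def der (u : S → X) (x : S) : TangentSpace 𝓘(ℝ, W) x →L[ℝ] TangentSpace 𝓘(ℝ, V) (u x) :=
  mfderiv 𝓘(ℝ, W) 𝓘(ℝ, V) u x

/-- the pull-back of a two-form by a map -/
def pull (u : S → X) (σ : Form V X 2) : Form W S 2 := fun x =>
  (σ (u x)).compContinuousLinearMap (der (V := V) (W := W) u x)

/-- `u : S → X` is smooth and pseudoholomorphic, and it is an injective immersion off the preimage of
the finite set `P`, which is finite too. -/
structure IsSimple (J : End V X) (j : End W S) (u : S → X) (P : Set X) : Prop where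
  smooth : ContMDiff 𝓘(ℝ, W) 𝓘(ℝ, V) ∞ u
  hol : ∀ (x : S) (v : TangentSpace 𝓘(ℝ, W) x),
    der (V := V) (W := W) u x (j x v) = J (u x) (der (V := V) (W := W) u x v)
  finite : P.Finite
  finite_preimage : (u ⁻¹' P).Finite
  injective : ∀ x y : S, u x = u y → u x ∉ P → x = y
  immersion : ∀ x : S, u x ∉ P → Function.Injective (der (V := V) (W := W) u x)

/-- `C` is the union of a finite set and of the image `u(S)` of a closed Riemann surface `(S, j)`, not
necessarily connected and possibly empty, under a simple pseudoholomorphic map `u`; `J` is smooth near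
`C`; and the class of `u^* σ₀` on `S` is positive: it contains a symplectic form (an area form) taming
`j`. -/
def PositiveCurve (σ₀ : Form V X 2) (J : End V X) (C : Set X) : Prop :=
  (∀ p ∈ C, ∀ᶠ z in 𝓝 (chartAt V p p), ContDiffAt ℝ ∞ (op J p) z) ∧
  ∃ (S : Type) (_ : TopologicalSpace S) (_ : ChartedSpace (ES 2) S)
    (_ : IsManifold 𝓘(ℝ, ES 2) ∞ S) (_ : CompactSpace S) (_ : T2Space S)
    (j : End (ES 2) S) (u : S → X) (P : Set X), IsAlmostComplex j ∧
      IsSimple (V := V) (W := ES 2) J j u P ∧ C = range u ∪ P ∧ TamedIn (pull u σ₀) j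

/-- A chain `C 0 ⊆ C 1 ⊆ … ⊆ C n` of closed sets such that `C 0` is (the image of) a closed
pseudoholomorphic curve on which the class of `σ₀` is positive, and for each `i < n` the set
`C (i + 1) \ C i` is an embedded `J`-holomorphic submanifold of `X \ C i`, near which `J` is smooth, and
some smooth closed form in the class of `σ₀` is positive on the complex lines tangent to it. -/
structure NumericalChain (σ₀ : Form V X 2) (J : End V X) (n : ℕ) (C : ℕ → Set X) : Prop where
  curve : PositiveCurve σ₀ J (C 0)
  closed : ∀ i, i ≤ n → IsClosed (C i)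
  mono : ∀ i, i < n → C i ⊆ C (i + 1)
  pos : ∀ i, i < n → ∃ τ : Form V X 2, InClass σ₀ τ ∧ PositiveAlong J τ (C i) (C (i + 1))

end Pool.Agent.H819.NCP
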