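import Mathlib
import Pool.Agent.H819.NC.Def

/-!
# The normal form of an immersion
-/

set_option autoImplicit false

open Set Filter Topology MeasureTheory Metric
open scoped ContDiff ENNReal NNReal

noncomputable section

namespace Pool.Agent.H819.NC

open Pool.Agent.Y501.SY

namespace H980Imm

/-- a linear complement of the range of an injective linear map -/
theorem exists_equiv {m d : ℕ} (A : E m →L[ℝ] E d) (hA : Function.Injective A) :
    ∃ (k : ℕ) (B : E k →L[ℝ] E d) (e : (E m × E k) ≃L[ℝ] E d),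
      (e : (E m × E k) →L[ℝ] E d) = A.coprod B := by
  let R : Submodule ℝ (E d) := LinearMap.range A.toLinearMap
  let k := Module.finrank ℝ Rᗮ
  let ι : E k ≃ₗᵢ[ℝ] Rᗮ := (stdOrthonormalBasis ℝ Rᗮ).repr.symm
  let B : E k →L[ℝ] E d := Rᗮ.subtypeL ∘L (ι.toContinuousLinearEquiv : E k →L[ℝ] Rᗮ)
  have hB : ∀ w, B w = (ι w : E d) := fun w => rfl
  have hinj : Function.Injective (A.coprod B) := by
    rw [injective_iff_map_eq_zero]
    rintro ⟨v, w⟩ h
    rw [ContinuousLinearMap.coprod_apply] at h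
    have h1 : A v = -(B w) := eq_neg_of_add_eq_zero_left h
    have h2 : A v ∈ R := ⟨v, rfl⟩
    have h3 : A v ∈ Rᗮ := by
      rw [h1, hB]
      exact Rᗮ.neg_mem (ι w).2
    have h4 : A v = 0 := by
      have h5 : inner ℝ (A v) (A v) = 0 := (Submodule.mem_orthogonal R (A v)).1 h3 _ h2
      exact inner_self_eq_zero.1 h5
    have h6 : v = 0 := hA (by rw [h4, map_zero])
    have h7 : (ι w : E d) = 0 := by
      rw [← hB]
      rw [h4] at h1
      exact neg_eq_zero.1 h1.symm
    have h8 : ι w = 0 := Subtype.ext h7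
    have h9 : w = 0 := by
      have := congrArg ι.symm h8
      rwa [LinearIsometryEquiv.symm_apply_apply, map_zero] at this
    rw [h6, h9]
    rfl
  have hsurj : Function.Surjective (A.coprod B) := by
    intro x
    obtain ⟨y, hy, z, hz, hyz⟩ := R.exists_add_mem_mem_orthogonal x
    obtain ⟨v, hv⟩ := hy
    refine ⟨(v, ι.symm ⟨z, hz⟩), ?_⟩
    rw [ContinuousLinearMap.coprod_apply, hB, LinearIsometryEquiv.apply_symm_apply, hyz]
    have hv' : A v = y := hv
    rw [hv']
  refine ⟨k, B, ContinuousLinearEquiv.ofBijective (A.coprod B)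
    (LinearMap.ker_eq_bot.2 hinj) (LinearMap.range_eq_top.2 hsurj), ?_⟩
  ext x <;> rfl

end H980Imm

/-- **The normal form of an immersion.**

Proof.  Let `A = fderiv ℝ U z₀ : E m → E d`, injective; `k = d - m`, and let `B : E k →L[ℝ] E d` be an injective
linear map whose range is a complement of the range of `A` (e.g. an orthonormal basis of the
orthogonal complement of the range, `stdOrthonormalBasis` or `LinearEquiv.ofFinrankEq`;
`finrank (range A) = m`).  The map `Φ : E m × E k → E d`, `Φ (z, y) = U z + B y` is smooth near `(z₀, 0)` with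
the invertible derivative `(v, w) ↦ A v + B w` there (`ContinuousLinearEquiv.equivOfBijective` or
`LinearEquiv.toContinuousLinearEquiv`), so by the inverse function theorem
(`ContDiffAt.toOpenPartialHomeomorph`, `ContDiffAt.to_localInverse`, `HasStrictFDerivAt.localInverse`) it has a
local inverse `Ψ`, smooth near `U z₀` (`OpenPartialHomeomorph.contDiffAt_symm` at the points near
`U z₀`: the derivative of `Φ` stays invertible).  Let `r = fst ∘ Ψ`, `h = snd ∘ Ψ`.  For `z` near `z₀`:
`Ψ (U z) = Ψ (Φ (z, 0)) = (z, 0)`.  For `y` near `U z₀`: `Φ (Ψ y) = y`, so if `h y = 0` then `U (r y) = y`.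
`fderiv h (U z₀)` is onto because `fderiv Ψ (U z₀)` is onto.  Finally, for `y` near `U z₀`, differentiating
`Φ ∘ Ψ = id` at `y` (it holds near `y`) gives `v = fderiv U (r y) (fderiv r y v) + B (fderiv h y v)`, which is the
last assertion (`w = fderiv r y v`). -/
theorem imm_normal {m d : ℕ} {U : E m → E d} {z₀ : E m} (hU : ∀ᶠ z in 𝓝 z₀, ContDiffAt ℝ ∞ U z)
    (hinj : Function.Injective (fderiv ℝ U z₀)) :
    ∃ (k : ℕ) (h : E d → E k) (r : E d → E m),
      (∀ᶠ y in 𝓝 (U z₀), ContDiffAt ℝ ∞ h y ∧ ContDiffAt ℝ ∞ r y) ∧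
      Function.Surjective (fderiv ℝ h (U z₀)) ∧
      (∀ᶠ z in 𝓝 z₀, r (U z) = z ∧ h (U z) = 0) ∧
      (∀ᶠ y in 𝓝 (U z₀), h y = 0 → U (r y) = y) ∧
      (∀ᶠ y in 𝓝 (U z₀), ∀ v, fderiv ℝ h y v = 0 → fderiv ℝ U (r y) (fderiv ℝ r y v) = v) := by
  obtain ⟨k, B, e, he⟩ := H980Imm.exists_equiv (fderiv ℝ U z₀) hinj
  let Φ : E m × E k → E d := fun p => U p.1 + B p.2
  have hΦc : ∀ p : E m × E k, ContDiffAt ℝ ∞ U p.1 → ContDiffAt ℝ ∞ Φ p := by
    intro p hp
    exact (hp.comp p contDiffAt_fst).add (B.contDiff.contDiffAt.comp p contDiffAt_snd)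
  have hΦd : ∀ p : E m × E k, ContDiffAt ℝ ∞ U p.1 →
      HasFDerivAt Φ ((fderiv ℝ U p.1).coprod B) p := by
    intro p hp
    have h1 : HasFDerivAt U (fderiv ℝ U p.1) p.1 := (hp.differentiableAt (by simp)).hasFDerivAt
    have h2 : HasFDerivAt (fun q : E m × E k => U q.1)
        ((fderiv ℝ U p.1).comp (ContinuousLinearMap.fst ℝ (E m) (E k))) p :=
      h1.comp p hasFDerivAt_fst
    have h3 : HasFDerivAt (fun q : E m × E k => B q.2)
        (B.comp (ContinuousLinearMap.snd ℝ (E m) (E k))) p :=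
      B.hasFDerivAt.comp p hasFDerivAt_snd
    have h4 := h2.add h3
    exact h4
  have hU0 : ContDiffAt ℝ ∞ U z₀ := hU.self_of_nhds
  have hd0 : HasFDerivAt Φ (e : (E m × E k) →L[ℝ] E d) (z₀, 0) := by
    rw [he]
    exact hΦd (z₀, 0) hU0
  have hΦ0 : Φ (z₀, 0) = U z₀ := by
    show U z₀ + B 0 = U z₀
    rw [map_zero, add_zero]
  let H := (hΦc (z₀, 0) hU0).toOpenPartialHomeomorph Φ hd0 (by simp)
  have hHc : ∀ p, H p = Φ p := fun p => rfl
  have hsrc : (z₀, (0 : E k)) ∈ H.source :=
    (hΦc (z₀, 0) hU0).mem_toOpenPartialHomeomorph_source hd0 (by simp)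
  have htgt : U z₀ ∈ H.target := by
    rw [← hΦ0]
    exact H.map_source hsrc
  have hsymm : H.symm (U z₀) = (z₀, 0) := by
    rw [← hΦ0]
    exact H.left_inv hsrc
  have hcont : Tendsto H.symm (𝓝 (U z₀)) (𝓝 (z₀, 0)) := by
    have := H.symm.continuousAt (x := U z₀) htgt
    rw [ContinuousAt, hsymm] at this
    exact this
  have hfst : Tendsto (fun y => (H.symm y).1) (𝓝 (U z₀)) (𝓝 z₀) :=
    (continuous_fst.tendsto (z₀, (0 : E k))).comp hcont
  -- the derivative of Φ is invertible near the point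
  have hinv : ∀ᶠ y in 𝓝 (U z₀), ∃ e' : (E m × E k) ≃L[ℝ] E d,
      HasFDerivAt H (e' : (E m × E k) →L[ℝ] E d) (H.symm y) := by
    have h1 : ContinuousAt (fderiv ℝ Φ) (z₀, 0) :=
      ((hΦc (z₀, 0) hU0).fderiv_right (m := ∞) (by simp)).continuousAt
    have h2 : ∀ᶠ p in 𝓝 (z₀, (0 : E k)), fderiv ℝ Φ p ∈
        range ((↑) : ((E m × E k) ≃L[ℝ] E d) → ((E m × E k) →L[ℝ] E d)) := by
      apply h1.eventually
      rw [hd0.fderiv]
      exact ContinuousLinearEquiv.nhds e
    filter_upwards [hcont.eventually h2, hfst.eventually hU] with y hy1 hy2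
    obtain ⟨e', he'⟩ := hy1
    refine ⟨e', ?_⟩
    rw [he']
    exact (hΦd _ hy2).differentiableAt.hasFDerivAt
  have hsm : ∀ᶠ y in 𝓝 (U z₀), ContDiffAt ℝ ∞ H.symm y := by
    filter_upwards [hinv, hfst.eventually hU, H.open_target.mem_nhds htgt] with y hy1 hy2 hy3
    obtain ⟨e', he'⟩ := hy1
    exact H.contDiffAt_symm hy3 he' (hΦc _ hy2)
  refine ⟨k, fun y => (H.symm y).2, fun y => (H.symm y).1, ?_, ?_, ?_, ?_, ?_⟩
  · filter_upwards [hsm] with y hy
    exact ⟨contDiffAt_snd.comp y hy, contDiffAt_fst.comp y hy⟩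
  · have h1 : HasFDerivAt H.symm (e.symm : E d →L[ℝ] (E m × E k)) (U z₀) := by
      refine H.hasFDerivAt_symm htgt ?_
      rw [hsymm]
      exact hd0
    have h2 : HasFDerivAt (fun y => (H.symm y).2)
        ((ContinuousLinearMap.snd ℝ (E m) (E k)).comp (e.symm : E d →L[ℝ] (E m × E k))) (U z₀) :=
      hasFDerivAt_snd.comp (U z₀) h1
    rw [h2.fderiv]
    intro w
    refine ⟨e (0, w), ?_⟩
    show (e.symm (e (0, w))).2 = w
    rw [e.symm_apply_apply]
  · have h1 : Tendsto (fun z : E m => (z, (0 : E k))) (𝓝 z₀) (𝓝 (z₀, 0)) :=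
      (Continuous.prodMk_left (0 : E k)).tendsto z₀
    filter_upwards [h1.eventually (H.open_source.mem_nhds hsrc)] with z hz
    have h2 : U z = H (z, 0) := by
      show U z = U z + B 0
      rw [map_zero, add_zero]
    have h3 : H.symm (U z) = (z, 0) := by
      rw [h2]
      exact H.left_inv hz
    exact ⟨by rw [h3], by rw [h3]⟩
  · filter_upwards [H.open_target.mem_nhds htgt] with y hy hy0
    have h1 : U (H.symm y).1 + B (H.symm y).2 = y := H.right_inv hy
    have h2 : (H.symm y).2 = 0 := hy0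
    rw [h2, map_zero, add_zero] at h1
    exact h1
  · filter_upwards [eventually_eventually_nhds.2 (H.open_target.mem_nhds htgt), hsm,
      hfst.eventually hU] with y hy1 hy2 hy3 v hv
    have hy4 : ∀ᶠ y' in 𝓝 y, U (H.symm y').1 + B (H.symm y').2 = y' := by
      filter_upwards [hy1] with y' hy'
      exact H.right_inv hy'
    have hr : HasFDerivAt (fun y => (H.symm y).1) (fderiv ℝ (fun y => (H.symm y).1) y) y :=
      ((contDiffAt_fst.comp y hy2).differentiableAt (by simp)).hasFDerivAt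
    have hh : HasFDerivAt (fun y => (H.symm y).2) (fderiv ℝ (fun y => (H.symm y).2) y) y :=
      ((contDiffAt_snd.comp y hy2).differentiableAt (by simp)).hasFDerivAt
    have hUd : HasFDerivAt U (fderiv ℝ U (H.symm y).1) (H.symm y).1 :=
      (hy3.differentiableAt (by simp)).hasFDerivAt
    have h5 := (hUd.comp y hr).add (B.hasFDerivAt.comp y hh)
    have h6 : HasFDerivAt (fun y' : E d => y')
        ((fderiv ℝ U (H.symm y).1).comp (fderiv ℝ (fun y => (H.symm y).1) y) +
          B.comp (fderiv ℝ (fun y => (H.symm y).2) y)) y := by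
      refine h5.congr_of_eventuallyEq ?_
      filter_upwards [hy4] with y' hy'
      exact hy'.symm
    have h7 := h6.unique (hasFDerivAt_id y)
    have h8 := congrArg (fun T : E d →L[ℝ] E d => T v) h7
    have h9 : fderiv ℝ U (H.symm y).1 (fderiv ℝ (fun y => (H.symm y).1) y v) +
        B (fderiv ℝ (fun y => (H.symm y).2) y v) = v := h8
    rw [hv, map_zero, add_zero] at h9
    exact h9

end Pool.Agent.H819.NC
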