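import Mathlib
import Pool.Agent.H819.NC.Imm

/-!
# Local retractions onto a curve
-/

set_option autoImplicit false

open Set Filter Topology MeasureTheory Metric
open scoped Manifold ContDiff ENNReal NNReal

noncomputable section

namespace Pool.Agent.H819.NC

open Pool.Agent.Y501.SY
open Pool.Agent.H819

variable {d : ℕ} {X : Type} [TopologicalSpace X] [ChartedSpace (E d) X] [IsManifold (𝓡 d) ∞ X]
  {S : Type} [TopologicalSpace S] [ChartedSpace (E 2) S] [IsManifold (𝓡 2) ∞ S]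

omit [IsManifold (𝓡 d) ∞ X] [IsManifold (𝓡 2) ∞ S] in
/-- A curve is an embedding near the points outside `P`.

Proof.  `K = Vᶜ` is compact, `u '' K` is compact, so closed, and `u q ∉ u '' K`: if `u x = u q` then `x = q` by
`hc.inj` (`u x = u q ∉ P`).  Take for `O` the complement of `u '' K ∪ P` (`P` is finite, so closed: `X` is a T2
space). -/
theorem exists_sep [T2Space X] [CompactSpace S] {J : End d X} {j : End 2 S} {u : S → X} {P : Set X}
    (hc : Curve J j u P) {q : S} (hq : u q ∉ P) {V : Set S} (hV : IsOpen V) (hqV : q ∈ V) :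
    ∃ O : Set X, IsOpen O ∧ u q ∈ O ∧ Disjoint O P ∧ ∀ x, u x ∈ O → x ∈ V := by
  have hcu : Continuous u := hc.smooth.continuous
  have hK : IsClosed (u '' Vᶜ) := (hV.isClosed_compl.isCompact.image hcu).isClosed
  refine ⟨(u '' Vᶜ ∪ P)ᶜ, (hK.union hc.fin.isClosed).isOpen_compl, ?_, ?_, ?_⟩
  · rintro (⟨x, hx, hxq⟩ | h)
    · have h1 : x = q := hc.inj x q hxq (by rw [hxq]; exact hq)
      rw [h1] at hx
      exact hx hqV
    · exact hq h
  · rw [Set.disjoint_left]
    intro x hx hxP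
    exact hx (Or.inr hxP)
  · intro x hx
    by_contra hxV
    exact hx (Or.inl ⟨x, hxV, rfl⟩)

namespace RetrH399

theorem chart_inj (x : X) {p : X} (hp : p ∈ (chartAt (E d) x).source) :
    Function.Injective (mfderiv (𝓡 d) (𝓡 d) (chartAt (E d) x) p) := by
  have h := (mdifferentiable_chart (I := 𝓡 d) x).symm_comp_deriv hp
  intro v w hvw
  have h1 := DFunLike.congr_fun h v
  have h2 := DFunLike.congr_fun h w
  simp only [ContinuousLinearMap.comp_apply] at h1 h2
  have h3 : mfderiv (𝓡 d) (𝓡 d) (chartAt (E d) x).symm (chartAt (E d) x p)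
      (mfderiv (𝓡 d) (𝓡 d) (chartAt (E d) x) p v) =
      mfderiv (𝓡 d) (𝓡 d) (chartAt (E d) x).symm (chartAt (E d) x p)
      (mfderiv (𝓡 d) (𝓡 d) (chartAt (E d) x) p w) := by rw [hvw]
  exact h1.symm.trans (h3.trans h2)

theorem symm_inj (x : X) {z : E d} (hz : z ∈ (chartAt (E d) x).target) :
    Function.Injective (mfderiv (𝓡 d) (𝓡 d) (chartAt (E d) x).symm z) := by
  have h := (mdifferentiable_chart (I := 𝓡 d) x).comp_symm_deriv hz
  intro v w hvw
  have h1 := DFunLike.congr_fun h v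
  have h2 := DFunLike.congr_fun h w
  simp only [ContinuousLinearMap.comp_apply] at h1 h2
  have h3 : mfderiv (𝓡 d) (𝓡 d) (chartAt (E d) x) ((chartAt (E d) x).symm z)
      (mfderiv (𝓡 d) (𝓡 d) (chartAt (E d) x).symm z v) =
      mfderiv (𝓡 d) (𝓡 d) (chartAt (E d) x) ((chartAt (E d) x).symm z)
      (mfderiv (𝓡 d) (𝓡 d) (chartAt (E d) x).symm z w) := by rw [hvw]
  exact h1.symm.trans (h3.trans h2)

theorem smooth_symm (x₀ : X) {z : E d} (hz : z ∈ (chartAt (E d) x₀).target) :
    ContMDiffAt (𝓡 d) (𝓡 d) ∞ (chartAt (E d) x₀).symm z :=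
  contMDiffOn_chart_symm.contMDiffAt ((chartAt (E d) x₀).open_target.mem_nhds hz)

theorem smooth_chart (x₀ : X) {p : X} (hp : p ∈ (chartAt (E d) x₀).source) :
    ContMDiffAt (𝓡 d) (𝓡 d) ∞ (chartAt (E d) x₀) p :=
  contMDiffOn_chart.contMDiffAt ((chartAt (E d) x₀).open_source.mem_nhds hp)

/-- the map in charts -/
def UU (u : S → X) (q : S) (z : E 2) : E d := chartAt (E d) (u q) (u ((chartAt (E 2) q).symm z))

theorem UU_smooth {u : S → X} (hu : ContMDiff (𝓡 2) (𝓡 d) ∞ u) (q : S) {z : E 2}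
    (hz : z ∈ (chartAt (E 2) q).target)
    (hz2 : u ((chartAt (E 2) q).symm z) ∈ (chartAt (E d) (u q)).source) :
    ContDiffAt ℝ ∞ (UU (d := d) u q) z := by
  rw [← contMDiffAt_iff_contDiffAt]
  have h1 : ContMDiffAt (𝓡 2) (𝓡 d) ∞ (fun z => u ((chartAt (E 2) q).symm z)) z :=
    ContMDiffAt.comp z hu.contMDiffAt (smooth_symm q hz)
  exact ContMDiffAt.comp z (smooth_chart (u q) hz2) h1

theorem UU_ev {u : S → X} (hu : ContMDiff (𝓡 2) (𝓡 d) ∞ u) (q : S) :
    ∀ᶠ z in 𝓝 (chartAt (E 2) q q), ContDiffAt ℝ ∞ (UU (d := d) u q) z := by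
  have ho : IsOpen ((chartAt (E 2) q).target ∩
      (chartAt (E 2) q).symm ⁻¹' (u ⁻¹' (chartAt (E d) (u q)).source)) :=
    (chartAt (E 2) q).isOpen_inter_preimage_symm
      ((chartAt (E d) (u q)).open_source.preimage hu.continuous)
  filter_upwards [ho.mem_nhds ⟨mem_chart_target (E 2) q, by
    show u ((chartAt (E 2) q).symm (chartAt (E 2) q q)) ∈ (chartAt (E d) (u q)).source
    rw [(chartAt (E 2) q).left_inv (mem_chart_source (E 2) q)]
    exact mem_chart_source (E d) (u q)⟩] with z hz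
  exact UU_smooth hu q hz.1 hz.2

theorem UU_inj {u : S → X} (hu : ContMDiff (𝓡 2) (𝓡 d) ∞ u) (q : S)
    (hi : Function.Injective (mfderiv (𝓡 2) (𝓡 d) u q)) :
    Function.Injective (fderiv ℝ (UU (d := d) u q) (chartAt (E 2) q q)) := by
  rw [← mfderiv_eq_fderiv]
  have hq : (chartAt (E 2) q).symm (chartAt (E 2) q q) = q :=
    (chartAt (E 2) q).left_inv (mem_chart_source (E 2) q)
  have hz : chartAt (E 2) q q ∈ (chartAt (E 2) q).target := mem_chart_target (E 2) q
  have hs := mem_chart_source (E d) (u q)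
  have d1 : MDifferentiableAt (𝓡 2) (𝓡 2) (chartAt (E 2) q).symm (chartAt (E 2) q q) :=
    (smooth_symm q hz).mdifferentiableAt (by simp)
  have d2 : MDifferentiableAt (𝓡 2) (𝓡 d) u ((chartAt (E 2) q).symm (chartAt (E 2) q q)) :=
    hu.contMDiffAt.mdifferentiableAt (by simp)
  have d3 : MDifferentiableAt (𝓡 d) (𝓡 d) (chartAt (E d) (u q))
      (u ((chartAt (E 2) q).symm (chartAt (E 2) q q))) := by
    rw [hq]
    exact (smooth_chart (u q) hs).mdifferentiableAt (by simp)
  have h1 : mfderiv (𝓡 2) (𝓡 d) (UU (d := d) u q) (chartAt (E 2) q q) =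
      ((mfderiv (𝓡 d) (𝓡 d) (chartAt (E d) (u q))
        (u ((chartAt (E 2) q).symm (chartAt (E 2) q q)))).comp
        (mfderiv (𝓡 2) (𝓡 d) u ((chartAt (E 2) q).symm (chartAt (E 2) q q)))).comp
        (mfderiv (𝓡 2) (𝓡 2) (chartAt (E 2) q).symm (chartAt (E 2) q q)) := by
    have e1 := mfderiv_comp (chartAt (E 2) q q) (d3.comp _ d2) d1
    rw [mfderiv_comp _ d3 d2] at e1
    exact e1
  have c1 : Function.Injective (mfderiv (𝓡 d) (𝓡 d) (chartAt (E d) (u q))
      (u ((chartAt (E 2) q).symm (chartAt (E 2) q q)))) := by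
    rw [hq]
    exact chart_inj (u q) hs
  have c2 : Function.Injective (mfderiv (𝓡 2) (𝓡 d) u
      ((chartAt (E 2) q).symm (chartAt (E 2) q q))) := by
    rw [hq]
    exact hi
  intro v w hvw
  rw [h1] at hvw
  exact symm_inj q hz (c2 (c1 hvw))

end RetrH399

open RetrH399 in
/-- Local retractions.

Proof.  Apply `imm_normal` to `U = chartAt (u q) ∘ u ∘ (chartAt q).symm` at `z₀ = chartAt q q`
(`contMDiffAt_iff_contDiffAt`-style smoothness; the derivative is injective by `hc.imm` because the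
derivatives of the charts are invertible, compare `Pool.Agent.Y455.SY.BA`, `mdiff_symm`, `mdiff_chart` in
`LG/Prim.lean` and `mfderiv_comp`).  Put `r x = (chartAt q).symm (r₀ (chartAt (u q) x))` on an open
neighbourhood `O` of `u q`, contained in the source of the chart at `u q`, where `r₀` is smooth and
maps into the target of the chart at `q`, and (by `exists_sep`, applied to the open neighbourhood of `q`
of the points `x ∈ V` of the source of the chart at `q` with `u x` in the source of the chart at `u q`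
and `r₀ (U (chartAt q x)) = chartAt q x`) such that `u x ∈ O` implies that `x ∈ V` and that `r₀ (U z) = z` for
`z = chartAt q x`; so `r (u x) = x`. -/
theorem exists_retr [T2Space X] [CompactSpace S] {J : End d X} {j : End 2 S} {u : S → X}
    {P : Set X} (hc : Curve J j u P) {q : S} (hq : u q ∉ P) {V : Set S} (hV : IsOpen V)
    (hqV : q ∈ V) : ∃ (O : Set X) (r : X → S), IsOpen O ∧ u q ∈ O ∧ Disjoint O P ∧
      ContMDiffOn (𝓡 d) (𝓡 2) ∞ r O ∧ ∀ x, u x ∈ O → x ∈ V ∧ r (u x) = x := by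
  obtain ⟨k, h, r₀, hsm, _, hr, _, _⟩ := imm_normal (UU_ev (d := d) hc.smooth q)
    (UU_inj hc.smooth q (hc.imm q hq))
  have hq1 : (chartAt (E 2) q).symm (chartAt (E 2) q q) = q :=
    (chartAt (E 2) q).left_inv (mem_chart_source (E 2) q)
  have hUq : UU (d := d) u q (chartAt (E 2) q q) = chartAt (E d) (u q) (u q) := by
    unfold UU
    rw [hq1]
  rw [hUq] at hsm
  have hr0 : r₀ (chartAt (E d) (u q) (u q)) = chartAt (E 2) q q := by
    rw [← hUq]
    exact hr.self_of_nhds.1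
  -- the first neighbourhood
  have hcont : ContinuousAt r₀ (chartAt (E d) (u q) (u q)) := hsm.self_of_nhds.2.continuousAt
  have h1 : ∀ᶠ y in 𝓝 (chartAt (E d) (u q) (u q)), ContDiffAt ℝ ∞ r₀ y ∧
      r₀ y ∈ (chartAt (E 2) q).target := by
    refine (hsm.mono fun y hy => hy.2).and (hcont.eventually ?_)
    rw [hr0]
    exact (chartAt (E 2) q).open_target.mem_nhds (mem_chart_target (E 2) q)
  have hcc : ContinuousAt (chartAt (E d) (u q)) (u q) :=
    (chartAt (E d) (u q)).continuousAt (mem_chart_source (E d) (u q))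
  have h2 : ∀ᶠ x in 𝓝 (u q), (ContDiffAt ℝ ∞ r₀ (chartAt (E d) (u q) x) ∧
      r₀ (chartAt (E d) (u q) x) ∈ (chartAt (E 2) q).target) ∧
      x ∈ (chartAt (E d) (u q)).source :=
    (hcc.eventually h1).and
      ((chartAt (E d) (u q)).open_source.mem_nhds (mem_chart_source (E d) (u q)))
  obtain ⟨O₁, hO₁, hO₁o, hqO₁⟩ := eventually_nhds_iff.1 h2
  -- the second neighbourhood
  have hcq : ContinuousAt (chartAt (E 2) q) q :=
    (chartAt (E 2) q).continuousAt (mem_chart_source (E 2) q)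
  have h3 : ∀ᶠ x in 𝓝 q, (r₀ (UU (d := d) u q (chartAt (E 2) q x)) = chartAt (E 2) q x) ∧
      x ∈ (chartAt (E 2) q).source ∧ x ∈ V :=
    (hcq.eventually (hr.mono fun z hz => hz.1)).and
      (inter_mem ((chartAt (E 2) q).open_source.mem_nhds (mem_chart_source (E 2) q))
        (hV.mem_nhds hqV))
  obtain ⟨V', hV', hV'o, hqV'⟩ := eventually_nhds_iff.1 h3
  obtain ⟨O₂, hO₂o, hqO₂, hO₂P, hO₂⟩ := exists_sep hc hq hV'o hqV'
  refine ⟨O₁ ∩ O₂, fun x => (chartAt (E 2) q).symm (r₀ (chartAt (E d) (u q) x)),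
    hO₁o.inter hO₂o, ⟨hqO₁, hqO₂⟩, hO₂P.mono_left inter_subset_right, ?_, ?_⟩
  · intro x hx
    obtain ⟨⟨a1, a2⟩, a3⟩ := hO₁ x hx.1
    refine ContMDiffAt.contMDiffWithinAt ?_
    have b1 : ContMDiffAt (𝓡 d) (𝓡 2) ∞ (fun x => r₀ (chartAt (E d) (u q) x)) x :=
      ContMDiffAt.comp x a1.contMDiffAt (smooth_chart (u q) a3)
    exact ContMDiffAt.comp x (smooth_symm q a2) b1
  · intro x hx
    obtain ⟨c1, c2, c3⟩ := hV' x (hO₂ x hx.2)
    refine ⟨c3, ?_⟩
    have e1 : UU (d := d) u q (chartAt (E 2) q x) = chartAt (E d) (u q) (u x) := by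
      unfold UU
      rw [(chartAt (E 2) q).left_inv c2]
    rw [e1] at c1
    show (chartAt (E 2) q).symm (r₀ (chartAt (E d) (u q) (u x))) = x
    rw [c1, (chartAt (E 2) q).left_inv c2]

end Pool.Agent.H819.NC
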