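import Mathlib
import Pool.Agent.H819.NC.Retr

/-!
# Local equations of a curve
-/

set_option autoImplicit false

open Set Filter Topology MeasureTheory Metric
open scoped Manifold ContDiff ENNReal NNReal

noncomputable section

namespace Pool.Agent.H819.NC

open Pool.Agent.Y501.SY
open Pool.Agent.H819

variable {d : ℕ} {X : Type} [TopologicalSpace X] [ChartedSpace (E d) X] [IsManifold (𝓡 d) ∞ X]
  {S : Type} [TopologicalSpace S] [ChartedSpace (E 2) S] [IsManifold (𝓡 2) ∞ S]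

namespace Eqn

omit [IsManifold (𝓡 d) ∞ X] [IsManifold (𝓡 2) ∞ S] in
theorem diffs [IsManifold (𝓡 d) ∞ X] [IsManifold (𝓡 2) ∞ S] {u : S → X}
    (hu : ContMDiff (𝓡 2) (𝓡 d) ∞ u) (q : S) {z : E 2} (hz : z ∈ (chartAt (E 2) q).target)
    (hz2 : u ((chartAt (E 2) q).symm z) ∈ (chartAt (E d) (u q)).source) :
    ContMDiffAt (𝓡 2) (𝓡 2) ∞ (chartAt (E 2) q).symm z ∧
      ContMDiffAt (𝓡 2) (𝓡 d) ∞ u ((chartAt (E 2) q).symm z) ∧
      ContMDiffAt (𝓡 d) (𝓡 d) ∞ (chartAt (E d) (u q)) (u ((chartAt (E 2) q).symm z)) :=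
  ⟨contMDiffOn_chart_symm.contMDiffAt ((chartAt (E 2) q).open_target.mem_nhds hz),
    hu.contMDiffAt,
    contMDiffOn_chart.contMDiffAt ((chartAt (E d) (u q)).open_source.mem_nhds hz2)⟩

/-- the curve in charts -/
def Uc (u : S → X) (q : S) : E 2 → E d :=
  fun z => chartAt (E d) (u q) (u ((chartAt (E 2) q).symm z))

theorem Uc_smooth {u : S → X} (hu : ContMDiff (𝓡 2) (𝓡 d) ∞ u) (q : S) {z : E 2}
    (hz : z ∈ (chartAt (E 2) q).target)
    (hz2 : u ((chartAt (E 2) q).symm z) ∈ (chartAt (E d) (u q)).source) :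
    ContDiffAt ℝ ∞ (Uc (d := d) u q) z := by
  obtain ⟨h1, h2, h3⟩ := diffs hu q hz hz2
  exact contMDiffAt_iff_contDiffAt.1 (h3.comp z (h2.comp z h1))

theorem Uc_fderiv {u : S → X} (hu : ContMDiff (𝓡 2) (𝓡 d) ∞ u) (q : S) {z : E 2}
    (hz : z ∈ (chartAt (E 2) q).target)
    (hz2 : u ((chartAt (E 2) q).symm z) ∈ (chartAt (E d) (u q)).source) (v : E 2) :
    fderiv ℝ (Uc (d := d) u q) z v =
      (mfderiv (𝓡 d) (𝓡 d) (chartAt (E d) (u q)) (u ((chartAt (E 2) q).symm z))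
        (mfderiv (𝓡 2) (𝓡 d) u ((chartAt (E 2) q).symm z)
          (mfderiv (𝓡 2) (𝓡 2) (chartAt (E 2) q).symm z v)) : E d) := by
  obtain ⟨h1, h2, h3⟩ := diffs hu q hz hz2
  have hn : (∞ : WithTop ℕ∞) ≠ 0 := by simp
  have d1 := h1.mdifferentiableAt hn
  have d2 := h2.mdifferentiableAt hn
  have d3 := h3.mdifferentiableAt hn
  have d21 : MDifferentiableAt (𝓡 2) (𝓡 d) (u ∘ (chartAt (E 2) q).symm) z := d2.comp z d1
  have e : Uc (d := d) u q = (chartAt (E d) (u q)) ∘ (u ∘ (chartAt (E 2) q).symm) := rfl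
  rw [e, ← mfderiv_eq_fderiv, mfderiv_comp z d3 d21, mfderiv_comp z d2 d1]
  rfl

end Eqn

/-- Local equations.

Proof.  Same `U`, with `h` from `imm_normal`.  For `z` near `chartAt (u q) (u q)`: if
`(chartAt (u q)).symm z = u x` for some `x`, then `x` is near `q` by `exists_sep`, and
`z = U (chartAt q x)`, so `h z = 0`.  Conversely, if `h z = 0` then `U (r₀ z) = z` with `r₀ z` near `chartAt q q`,
so `(chartAt (u q)).symm z = u ((chartAt q).symm (r₀ z))`.  In this case `x = (chartAt q).symm (r₀ z)` and, if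
`fderiv ℝ h z v = 0`, `v = fderiv ℝ U (r₀ z) v'` with `v' = fderiv r₀ z v`, and `fderiv ℝ U (r₀ z) v'` is the image of
`w = mfderiv (chartAt q).symm (r₀ z) v'` under `mfderiv (chartAt (u q)) (u x) ∘ mfderiv u x` (chain rule;
`U` is eventually near `r₀ z` the composition). -/
theorem exists_eqn [T2Space X] [CompactSpace S] {J : End d X} {j : End 2 S} {u : S → X}
    {P : Set X} (hc : Curve J j u P) {q : S} (hq : u q ∉ P) :
    ∃ (k : ℕ) (h : E d → E k), Function.Surjective (fderiv ℝ h (chartAt (E d) (u q) (u q))) ∧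
      ∀ᶠ z in 𝓝 (chartAt (E d) (u q) (u q)), z ∈ (chartAt (E d) (u q)).target ∧
        ContDiffAt ℝ ∞ h z ∧ ((chartAt (E d) (u q)).symm z ∈ range u ↔ h z = 0) ∧
        (h z = 0 → ∃ x : S, u x = (chartAt (E d) (u q)).symm z ∧ u x ∉ P ∧
          ∀ v : E d, fderiv ℝ h z v = 0 → ∃ w : TangentSpace (𝓡 2) x,
            (mfderiv (𝓡 d) (𝓡 d) (chartAt (E d) (u q)) (u x) (mfderiv (𝓡 2) (𝓡 d) u x w) : E d)
              = v) := by
  have hqs : q ∈ (chartAt (E 2) q).source := mem_chart_source _ q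
  have hus : u q ∈ (chartAt (E d) (u q)).source := mem_chart_source _ (u q)
  have hz0 : chartAt (E 2) q q ∈ (chartAt (E 2) q).target := mem_chart_target _ q
  have hy0 : chartAt (E d) (u q) (u q) ∈ (chartAt (E d) (u q)).target := mem_chart_target _ (u q)
  have eq0 : (chartAt (E 2) q).symm (chartAt (E 2) q q) = q := (chartAt (E 2) q).left_inv hqs
  have eu0 : (chartAt (E d) (u q)).symm (chartAt (E d) (u q) (u q)) = u q :=
    (chartAt (E d) (u q)).left_inv hus
  have hucont : Continuous u := hc.smooth.continuous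
  -- the good set in the chart
  have hgood : ∀ᶠ z in 𝓝 (chartAt (E 2) q q), z ∈ (chartAt (E 2) q).target ∧
      u ((chartAt (E 2) q).symm z) ∈ (chartAt (E d) (u q)).source := by
    have h0 : ∀ᶠ z in 𝓝 (chartAt (E 2) q q), z ∈ (chartAt (E 2) q).target :=
      (chartAt (E 2) q).open_target.mem_nhds hz0
    refine h0.and ?_
    have h1 : ContinuousAt (fun z => u ((chartAt (E 2) q).symm z)) (chartAt (E 2) q q) :=
      hucont.continuousAt.comp ((chartAt (E 2) q).continuousAt_symm hz0)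
    refine h1.eventually_mem ?_
    simp only [eq0]
    exact (chartAt (E d) (u q)).open_source.mem_nhds hus
  have hU : ∀ᶠ z in 𝓝 (chartAt (E 2) q q), ContDiffAt ℝ ∞ (Eqn.Uc (d := d) u q) z :=
    hgood.mono fun z hz => Eqn.Uc_smooth hc.smooth q hz.1 hz.2
  have hU0 : Eqn.Uc (d := d) u q (chartAt (E 2) q q) = chartAt (E d) (u q) (u q) := by
    unfold Eqn.Uc
    rw [eq0]
  have hz2 : u ((chartAt (E 2) q).symm (chartAt (E 2) q q)) ∈ (chartAt (E d) (u q)).source := by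
    rw [eq0]
    exact hus
  have hinj : Function.Injective (fderiv ℝ (Eqn.Uc (d := d) u q) (chartAt (E 2) q q)) := by
    intro v v' hvv
    rw [Eqn.Uc_fderiv hc.smooth q hz0 hz2, Eqn.Uc_fderiv hc.smooth q hz0 hz2] at hvv
    have i1 := (mdifferentiable_chart (I := 𝓡 d) (u q)).mfderiv_injective hz2
    have i3 := (mdifferentiable_chart (I := 𝓡 2) q).symm.mfderiv_injective hz0
    have i2 := hc.imm ((chartAt (E 2) q).symm (chartAt (E 2) q q)) (by rw [eq0]; exact hq)
    exact i3 (i2 (i1 hvv))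
  obtain ⟨k, h, r, ha, hsurj, hcc, hd, he⟩ := imm_normal hU hinj
  rw [hU0] at ha hsurj hd he
  refine ⟨k, h, hsurj, ?_⟩
  -- separation
  obtain ⟨V, hVsub, hVo, hqV⟩ := _root_.eventually_nhds_iff.1 hcc
  obtain ⟨O, hO, huO, hOP, hOV⟩ := exists_sep hc hq
    (V := (chartAt (E 2) q).source ∩ (chartAt (E 2) q) ⁻¹' V)
    ((chartAt (E 2) q).isOpen_inter_preimage hVo) ⟨hqs, hqV⟩
  have hr0 : r (chartAt (E d) (u q) (u q)) = chartAt (E 2) q q := by
    have := (hcc.self_of_nhds).1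
    rwa [hU0] at this
  have hrc : ContinuousAt r (chartAt (E d) (u q) (u q)) := ha.self_of_nhds.2.continuousAt
  have hrg : ∀ᶠ y in 𝓝 (chartAt (E d) (u q) (u q)), r y ∈ (chartAt (E 2) q).target ∧
      u ((chartAt (E 2) q).symm (r y)) ∈ (chartAt (E d) (u q)).source := by
    have h1 : ∀ᶠ z in 𝓝 (r (chartAt (E d) (u q) (u q))), z ∈ (chartAt (E 2) q).target ∧
        u ((chartAt (E 2) q).symm z) ∈ (chartAt (E d) (u q)).source := by
      rw [hr0]
      exact hgood
    exact hrc.eventually h1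
  have hOe : ∀ᶠ y in 𝓝 (chartAt (E d) (u q) (u q)), (chartAt (E d) (u q)).symm y ∈ O := by
    refine ((chartAt (E d) (u q)).continuousAt_symm hy0).eventually_mem ?_
    rw [eu0]
    exact hO.mem_nhds huO
  filter_upwards [(chartAt (E d) (u q)).open_target.mem_nhds hy0, ha, hd, he, hrg, hOe]
    with y hyt hay hdy hey hry hyO
  have key : h y = 0 → u ((chartAt (E 2) q).symm (r y)) = (chartAt (E d) (u q)).symm y := by
    intro h0
    have h1 := hdy h0
    exact ((chartAt (E d) (u q)).left_inv hry.2).symm.trans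
      (congrArg (chartAt (E d) (u q)).symm h1)
  refine ⟨hyt, hay.1, ⟨?_, fun h0 => ⟨_, key h0⟩⟩, fun h0 => ⟨_, key h0, ?_, fun v hv => ?_⟩⟩
  · rintro ⟨x, hx⟩
    have hxV := hOV x (by rw [hx]; exact hyO)
    have h1 := (hVsub _ hxV.2).2
    have h2 : Eqn.Uc (d := d) u q (chartAt (E 2) q x) = y := by
      unfold Eqn.Uc
      rw [(chartAt (E 2) q).left_inv hxV.1, hx, (chartAt (E d) (u q)).right_inv hyt]
    rwa [h2] at h1
  · rw [key h0]
    exact fun hP => disjoint_left.1 hOP hyO hP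
  · refine ⟨mfderiv (𝓡 2) (𝓡 2) (chartAt (E 2) q).symm (r y) (fderiv ℝ r y v), ?_⟩
    rw [← Eqn.Uc_fderiv hc.smooth q hry.1 hry.2]
    exact hey v hv

end Pool.Agent.H819.NC
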