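import Mathlib
import Pool.Agent.H819.NC.Eqn

/-!
# Positivity along a curve and along a finite set
-/

set_option autoImplicit false

open Set Filter Topology MeasureTheory Metric
open scoped Manifold ContDiff ENNReal NNReal

noncomputable section

namespace Pool.Agent.H819.NC

open Pool.Agent.Y501.SY
open Pool.Agent.H819
open Pool.Agent.H819.EM (Along)

variable {d : ℕ} {X : Type} [TopologicalSpace X] [ChartedSpace (E d) X] [IsManifold (𝓡 d) ∞ X]
  {S : Type} [TopologicalSpace S] [ChartedSpace (E 2) S] [IsManifold (𝓡 2) ∞ S]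

namespace AlongAux

open Pool.Agent.Y455.SY (A B AB BA Q Q_eq)

omit [IsManifold (𝓡 d) ∞ X] in
/-- near the centre of the chart, the inverse chart avoids the closed sets which do not contain the
point -/
theorem ev_notMem {p : X} {F : Set X} (hF : IsClosed F) (hp : p ∉ F) :
    ∀ᶠ z in 𝓝 (chartAt (E d) p p), (chartAt (E d) p).symm z ∉ F := by
  have h1 : ContinuousAt (chartAt (E d) p).symm (chartAt (E d) p p) :=
    (chartAt (E d) p).continuousAt_symm (mem_chart_target _ p)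
  have h2 : (chartAt (E d) p).symm (chartAt (E d) p p) = p :=
    (chartAt (E d) p).left_inv (mem_chart_source _ p)
  have h3 : Fᶜ ∈ 𝓝 ((chartAt (E d) p).symm (chartAt (E d) p p)) := by
    rw [h2]
    exact hF.isOpen_compl.mem_nhds hp
  exact h1.preimage_mem_nhds h3

omit [IsManifold (𝓡 2) ∞ S] in
/-- the key computation at a point of the curve -/
theorem key {J : End d X} {j : End 2 S} {u : S → X} {P : Set X} (hc : Curve J j u P)
    (τ : Form d X 2) {p : X} {x : S} {z : E d} (hz : z ∈ (chartAt (E d) p).target)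
    (hx : u x = (chartAt (E d) p).symm z) (w : E 2) :
    (inChart J p z (mfderiv (𝓡 d) (𝓡 d) (chartAt (E d) p) (u x) (mfderiv (𝓡 2) (𝓡 d) u x w) : E d)
      = (mfderiv (𝓡 d) (𝓡 d) (chartAt (E d) p) (u x) (mfderiv (𝓡 2) (𝓡 d) u x (j x w)) : E d)) ∧
    pb (chartAt (E d) p).symm τ z
      ![(mfderiv (𝓡 d) (𝓡 d) (chartAt (E d) p) (u x) (mfderiv (𝓡 2) (𝓡 d) u x w) : E d),
        inChart J p z
          (mfderiv (𝓡 d) (𝓡 d) (chartAt (E d) p) (u x) (mfderiv (𝓡 2) (𝓡 d) u x w) : E d)] =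
      τ (u x) ![mfderiv (𝓡 2) (𝓡 d) u x w, J (u x) (mfderiv (𝓡 2) (𝓡 d) u x w)] := by
  have hol := hc.hol x w
  obtain ⟨w', hw'⟩ : ∃ w' : E d, w' = (mfderiv (𝓡 2) (𝓡 d) u x w : E d) := ⟨_, rfl⟩
  obtain ⟨w'', hw''⟩ : ∃ w'' : E d, w'' = (mfderiv (𝓡 2) (𝓡 d) u x (j x w) : E d) := ⟨_, rfl⟩
  have h1 : w'' = (J (u x) w' : E d) := by rw [hw', hw'']; exact hol
  change (inChart J p z (mfderiv (𝓡 d) (𝓡 d) (chartAt (E d) p) (u x)
      (mfderiv (𝓡 2) (𝓡 d) u x w : E d) : E d)
      = (mfderiv (𝓡 d) (𝓡 d) (chartAt (E d) p) (u x)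
        (mfderiv (𝓡 2) (𝓡 d) u x (j x w) : E d) : E d)) ∧
    pb (chartAt (E d) p).symm τ z
      ![(mfderiv (𝓡 d) (𝓡 d) (chartAt (E d) p) (u x) (mfderiv (𝓡 2) (𝓡 d) u x w : E d) : E d),
        inChart J p z
          (mfderiv (𝓡 d) (𝓡 d) (chartAt (E d) p) (u x) (mfderiv (𝓡 2) (𝓡 d) u x w : E d) : E d)] =
      τ (u x) ![(mfderiv (𝓡 2) (𝓡 d) u x w : E d), J (u x) (mfderiv (𝓡 2) (𝓡 d) u x w : E d)]
  rw [← hw', ← hw'', h1]
  clear h1 hw' hw'' hol w''
  generalize u x = y at hx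
  subst hx
  have h2 : A p z (B p z w') = w' := AB p hz w'
  constructor
  · change B p z (J ((chartAt (E d) p).symm z) (A p z (B p z w'))) =
      B p z (J ((chartAt (E d) p).symm z) w')
    rw [h2]
  · have h3 := Q_eq τ J p hz (B p z w')
    rw [h2] at h3
    exact h3

end AlongAux

/-- Positivity along a finite set.

Proof.  Let `p ∈ P`, `z₀ = chartAt p p`; `h z = z - z₀` (`k = d`).  Since `P` is finite and `X` is a T2 space,
`(chartAt p).symm z ∈ P` if and only if `z = z₀`, for `z` near `z₀` (`z` in the target).  `fderiv h = id`, so only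
`u = 0` is in the kernel. -/
theorem along_points [T2Space X] {J : End d X} (τ : Form d X 2) {P : Set X} (hP : P.Finite)
    (hJ : ∀ p ∈ P, ∀ᶠ z in 𝓝 (chartAt (E d) p p), ContDiffAt ℝ ∞ (inChart J p) z) :
    Along J τ ∅ P := by
  intro p hp _
  have hfd : ∀ z : E d, fderiv ℝ (fun z : E d => z - chartAt (E d) p p) z =
      ContinuousLinearMap.id ℝ (E d) := by
    intro z
    rw [fderiv_sub_const]
    exact fderiv_id
  refine ⟨d, fun z => z - chartAt (E d) p p, ?_, ?_⟩
  · rw [hfd]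
    exact Function.surjective_id
  · have h1 : ∀ᶠ z in 𝓝 (chartAt (E d) p p), (chartAt (E d) p).symm z ∉ P \ {p} :=
      AlongAux.ev_notMem (hP.subset fun _ h => h.1).isClosed (fun h => h.2 rfl)
    have h2 : ∀ᶠ z in 𝓝 (chartAt (E d) p p), z ∈ (chartAt (E d) p).target :=
      (chartAt (E d) p).open_target.mem_nhds (mem_chart_target _ p)
    filter_upwards [hJ p hp, h1, h2] with z a1 a2 a3
    refine ⟨a1, contDiffAt_id.sub contDiffAt_const, ?_, ?_⟩
    · rw [sub_eq_zero]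
      constructor
      · intro hz
        have h3 : (chartAt (E d) p).symm z = p := by
          by_contra hne
          exact a2 ⟨hz, hne⟩
        rw [← (chartAt (E d) p).right_inv a3, h3]
      · intro hz
        rw [hz, (chartAt (E d) p).left_inv (mem_chart_source _ p)]
        exact hp
    · intro _ v hv
      rw [hfd] at hv
      have hv0 : v = 0 := hv
      subst hv0
      refine ⟨?_, fun h => absurd rfl h⟩
      rw [map_zero, map_zero]

/-- Positivity along a curve.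

Proof.  Let `p ∈ range u ∪ P`, `p ∉ P`: `p = u q`.  Take `k`, `h` from `exists_eqn`.  For `z` near
`chartAt p p`, `(chartAt p).symm z ∉ P` (`P` is finite, so closed), so it belongs to `range u ∪ P` if and
only if it belongs to `range u`.  If `h z = 0` and `fderiv ℝ h z v = 0`, then `(chartAt p).symm z = u x` and
`v = c_* (u_* w)`, `c = chartAt p`; then `inChart J p z v = c_* (J (u_* w)) = c_* (u_* (j w))` (`hc.hol`; the
derivatives of `c` and `c.symm` are inverse to each other, `Pool.Agent.Y455.SY.BA` and `mfderiv_comp`), and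
`pb c.symm τ z ![v, inChart J p z v] = τ (u x) ![u_* w, J (u_* w)] > 0` if `v ≠ 0` (then `w ≠ 0`).
`fderiv ℝ h z (inChart J p z v) = 0`: for all `w'` one has `fderiv ℝ h z (c_* (u_* w')) = 0`, because
`h ∘ c ∘ u` vanishes near `x` (`h = 0` on the image of `range u`, by the equivalence, which holds at all
points near `z`: use `Filter.Eventually.eventually_nhds`); chain rule. -/
theorem along_curve [T2Space X] [CompactSpace S] {J : End d X} {j : End 2 S} {u : S → X}
    {P : Set X} (hc : Curve J j u P)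
    (hJ : ∀ x : S, ∀ᶠ z in 𝓝 (chartAt (E d) (u x) (u x)), ContDiffAt ℝ ∞ (inChart J (u x)) z)
    {τ : Form d X 2} (hτ : ∀ x : S, u x ∉ P → ∀ w : TangentSpace (𝓡 2) x, w ≠ 0 →
      0 < τ (u x) ![mfderiv (𝓡 2) (𝓡 d) u x w, J (u x) (mfderiv (𝓡 2) (𝓡 d) u x w)]) :
    Along J τ P (range u ∪ P) := by
  intro p hp hpP
  rcases hp with ⟨q, rfl⟩ | hp
  swap
  · exact absurd hp hpP
  obtain ⟨k, h, hsurj, hev⟩ := exists_eqn hc hpP
  refine ⟨k, h, hsurj, ?_⟩
  have h1 : ∀ᶠ z in 𝓝 (chartAt (E d) (u q) (u q)), (chartAt (E d) (u q)).symm z ∉ P :=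
    AlongAux.ev_notMem hc.fin.isClosed hpP
  filter_upwards [hJ q, h1, hev, hev.eventually_nhds] with z a1 a2 a3 a4
  obtain ⟨hz, hh, hiff, hx⟩ := a3
  refine ⟨a1, hh, ?_, ?_⟩
  · rw [← hiff]
    constructor
    · rintro (h2 | h2)
      · exact h2
      · exact absurd h2 a2
    · exact fun h2 => Or.inl h2
  intro hz0 v hv
  obtain ⟨x, hxz, hxP, hw⟩ := hx hz0
  obtain ⟨w, rfl⟩ := hw v hv
  obtain ⟨k1, k2⟩ := AlongAux.key hc τ hz hxz w
  -- the function `h ∘ c ∘ u` vanishes near `x`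
  have hxs : u x ∈ (chartAt (E d) (u q)).source := by
    rw [hxz]
    exact (chartAt (E d) (u q)).map_target hz
  have hcz : chartAt (E d) (u q) (u x) = z := by
    rw [hxz]
    exact (chartAt (E d) (u q)).right_inv hz
  have huc : ContinuousAt u x := hc.smooth.continuous.continuousAt
  have hcu : ContinuousAt (fun y => chartAt (E d) (u q) (u y)) x :=
    ContinuousAt.comp (g := chartAt (E d) (u q)) ((chartAt (E d) (u q)).continuousAt hxs) huc
  have hev1 : ∀ᶠ y in 𝓝 x, u y ∈ (chartAt (E d) (u q)).source :=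
    huc.preimage_mem_nhds ((chartAt (E d) (u q)).open_source.mem_nhds hxs)
  have hev2 : ∀ᶠ y in 𝓝 x, ((chartAt (E d) (u q)).symm (chartAt (E d) (u q) (u y)) ∈ range u ↔
      h (chartAt (E d) (u q) (u y)) = 0) := by
    have h3 : ∀ᶠ z' in 𝓝 (chartAt (E d) (u q) (u x)),
        ((chartAt (E d) (u q)).symm z' ∈ range u ↔ h z' = 0) := by
      rw [hcz]
      exact a4.mono fun z' hz' => hz'.2.2.1
    exact hcu.eventually h3
  have hvan : (h ∘ (chartAt (E d) (u q)) ∘ u) =ᶠ[𝓝 x] fun _ => (0 : E k) := by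
    filter_upwards [hev1, hev2] with y b1 b2
    apply b2.1
    rw [(chartAt (E d) (u q)).left_inv b1]
    exact ⟨y, rfl⟩
  have hd1 : HasMFDerivAt (𝓡 2) (𝓡 d) u x (mfderiv (𝓡 2) (𝓡 d) u x) :=
    ((hc.smooth x).mdifferentiableAt (n := ∞) (by simp)).hasMFDerivAt
  have hd2 : HasMFDerivAt (𝓡 d) (𝓡 d) (chartAt (E d) (u q)) (u x)
      (mfderiv (𝓡 d) (𝓡 d) (chartAt (E d) (u q)) (u x)) :=
    (Pool.Agent.H819.LG.mdiff_chart (u q) hxs).hasMFDerivAt
  have hd3 : HasMFDerivAt (𝓡 d) (𝓡 k) h (chartAt (E d) (u q) (u x)) (fderiv ℝ h z) := by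
    rw [hcz]
    exact (hh.differentiableAt (by simp)).hasFDerivAt.hasMFDerivAt
  have hd4 := hd3.comp x (hd2.comp x hd1)
  have hd5 : HasMFDerivAt (𝓡 2) (𝓡 k) (h ∘ (chartAt (E d) (u q)) ∘ u) x 0 :=
    (hasMFDerivAt_const (0 : E k) x).congr_of_eventuallyEq hvan
  have hd6 := hasMFDerivAt_unique hd4 hd5
  have hder : ∀ w' : E 2, fderiv ℝ h z
      (mfderiv (𝓡 d) (𝓡 d) (chartAt (E d) (u q)) (u x) (mfderiv (𝓡 2) (𝓡 d) u x w') : E d) = 0 :=
    fun w' => DFunLike.congr_fun hd6 w'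
  refine ⟨?_, fun hv0 => ?_⟩
  · rw [k1]
    exact hder (j x w)
  · rw [k2]
    refine hτ x hxP w fun hw0 => hv0 ?_
    rw [hw0, map_zero, map_zero]
    rfl

end Pool.Agent.H819.NC
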