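import Mathlib
import Pool.Agent.H819.NC.Def

/-!
# Two-forms on a closed surface are bounded by a positive form
-/

set_option autoImplicit false

open Set Filter Topology MeasureTheory Metric
open scoped Manifold ContDiff ENNReal NNReal

noncomputable section

namespace Pool.Agent.H819.NC

open Pool.Agent.Y501.SY
open Pool.Agent.H819

variable {S : Type} [TopologicalSpace S] [ChartedSpace (E 2) S] [IsManifold (𝓡 2) ∞ S]

namespace H628B

/-- the value of a pull-back on two vectors -/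
theorem pb_two {d : ℕ} {X : Type} [TopologicalSpace X] [ChartedSpace (E d) X] (φ : E d → X) (σ : Form d X 2)
    (p : E d) (v w : E d) :
    pb φ σ p ![v, w] = σ (φ p) ![mfderiv (𝓡 d) (𝓡 d) φ p v, mfderiv (𝓡 d) (𝓡 d) φ p w] := by
  have h : ((mfderiv (𝓡 d) (𝓡 d) φ p : E d →L[ℝ] E d) ∘ ![v, w] : Fin 2 → E d) =
      ![(mfderiv (𝓡 d) (𝓡 d) φ p : E d →L[ℝ] E d) v, (mfderiv (𝓡 d) (𝓡 d) φ p : E d →L[ℝ] E d) w] := by
    funext i
    fin_cases i <;> rfl
  exact congrArg (fun m : Fin 2 → E d => (σ (φ p) : (E d) [⋀^Fin 2]→L[ℝ] ℝ) m) h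

/-- two-forms in the plane are proportional -/
theorem prop (A H : (E 2) [⋀^Fin 2]→L[ℝ] ℝ) (v : Fin 2 → E 2) :
    H v * A (EuclideanSpace.basisFun (Fin 2) ℝ).toBasis = A v * H (EuclideanSpace.basisFun (Fin 2) ℝ).toBasis := by
  set b := (EuclideanSpace.basisFun (Fin 2) ℝ).toBasis
  have hA : A v = A b * b.det v := by
    have h := AlternatingMap.eq_smul_basis_det b A.toAlternatingMap
    have h' := congrArg (fun F : (E 2) [⋀^Fin 2]→ₗ[ℝ] ℝ => F v) h
    exact h'
  have hH : H v = H b * b.det v := by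
    have h := AlternatingMap.eq_smul_basis_det b H.toAlternatingMap
    have h' := congrArg (fun F : (E 2) [⋀^Fin 2]→ₗ[ℝ] ℝ => F v) h
    exact h'
  rw [hA, hH]
  ring

theorem vanish (A : (E 2) [⋀^Fin 2]→L[ℝ] ℝ)
    (h0 : A (EuclideanSpace.basisFun (Fin 2) ℝ).toBasis = 0) (v : Fin 2 → E 2) : A v = 0 := by
  set b := (EuclideanSpace.basisFun (Fin 2) ℝ).toBasis
  have hA : A v = A b * b.det v := by
    have h := AlternatingMap.eq_smul_basis_det b A.toAlternatingMap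
    have h' := congrArg (fun F : (E 2) [⋀^Fin 2]→ₗ[ℝ] ℝ => F v) h
    exact h'
  rw [hA, h0, zero_mul]

omit [IsManifold (𝓡 2) ∞ S] in
theorem nonneg {j : End 2 S} {α : Form 2 S 2}
    (hpos : ∀ (x : S) (v : TangentSpace (𝓡 2) x), v ≠ 0 → 0 < α x ![v, j x v]) (x : S)
    (v : TangentSpace (𝓡 2) x) : 0 ≤ α x ![v, j x v] := by
  by_cases h : v = 0
  · rw [(α x).map_coord_zero (m := ![v, j x v]) 0 h]
  · exact (hpos x v h).le

/-- the derivative of the inverse chart is onto -/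
theorem surj (x₀ : S) {z : E 2} (hz : z ∈ (chartAt (E 2) x₀).target) (v : TangentSpace (𝓡 2) ((chartAt (E 2) x₀).symm z)) :
    ∃ v' : E 2, (mfderiv (𝓡 2) (𝓡 2) (chartAt (E 2) x₀).symm z : E 2 →L[ℝ] E 2) v' = v := by
  have hm : IsManifold (𝓡 2) 1 S := IsManifold.of_le (n := ∞) (by simp)
  have h := (mdifferentiable_chart (I := 𝓡 2) x₀).comp_symm_deriv hz
  obtain ⟨D, hD⟩ : ∃ D : E 2 →L[ℝ] E 2, D = mfderiv (𝓡 2) (𝓡 2) (chartAt (E 2) x₀).symm z := ⟨_, rfl⟩
  obtain ⟨G, hG⟩ : ∃ G : E 2 →L[ℝ] E 2,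
    G = mfderiv (𝓡 2) (𝓡 2) (chartAt (E 2) x₀) ((chartAt (E 2) x₀).symm z) := ⟨_, rfl⟩
  have h' : ∀ a, G (D a) = a := by
    intro a
    rw [hG, hD]
    exact congrArg (fun F : E 2 →L[ℝ] E 2 => F a) h
  have hi : Function.Injective D.toLinearMap := by
    intro a b hab
    rw [← h' a, ← h' b]
    exact congrArg G hab
  obtain ⟨v', hv'⟩ := LinearMap.surjective_of_injective hi v
  refine ⟨v', ?_⟩
  rw [← hD]
  exact hv'

/-- the local bound -/
theorem loc {j : End 2 S} {α η : Form 2 S 2} (hα : IsSmooth α)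
    (hη : IsSmooth η)
    (hpos : ∀ (x : S) (v : TangentSpace (𝓡 2) x), v ≠ 0 → 0 < α x ![v, j x v]) (x₀ : S) :
    ∃ M : ℝ, ∀ᶠ x in 𝓝 x₀, ∀ v : TangentSpace (𝓡 2) x, |η x ![v, j x v]| ≤ M * α x ![v, j x v] := by
  set e := chartAt (E 2) x₀ with he
  set b : Fin 2 → E 2 := ⇑(EuclideanSpace.basisFun (Fin 2) ℝ).toBasis with hb
  have hAc : ContinuousOn (fun z => pb e.symm α z b) e.target :=
    fun z hz => ((LG.smooth_chart hα x₀).continuousOn z hz).eval_const b
  have hHc : ContinuousOn (fun z => pb e.symm η z b) e.target :=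
    fun z hz => ((LG.smooth_chart hη x₀).continuousOn z hz).eval_const b
  have key : ∀ z ∈ e.target, pb e.symm α z b ≠ 0 ∧ ∀ v : TangentSpace (𝓡 2) (e.symm z),
      η (e.symm z) ![v, j _ v] = (pb e.symm η z b / pb e.symm α z b) * α (e.symm z) ![v, j _ v] := by
    intro z hz
    have h1 : ∀ v : TangentSpace (𝓡 2) (e.symm z),
        η (e.symm z) ![v, j _ v] * pb e.symm α z b = α (e.symm z) ![v, j _ v] * pb e.symm η z b := by
      intro v
      obtain ⟨v', hv⟩ := surj x₀ hz v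
      obtain ⟨w', hw⟩ := surj x₀ hz (j _ v)
      have h2 := prop (pb e.symm α z) (pb e.symm η z) ![v', w']
      rw [pb_two, pb_two] at h2
      have hv2 : mfderiv (𝓡 2) (𝓡 2) e.symm z v' = v := hv
      have hw2 : mfderiv (𝓡 2) (𝓡 2) e.symm z w' = j _ v := hw
      rw [hv2, hw2] at h2
      exact h2
    have h0 : pb e.symm α z b ≠ 0 := by
      intro h0
      have hv0 : (EuclideanSpace.single 0 1 : E 2) ≠ 0 := by
        intro h
        have h4 := congrArg (fun y : E 2 => y 0) h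
        simp at h4
      obtain ⟨v, hv⟩ : ∃ v : TangentSpace (𝓡 2) (e.symm z), v ≠ 0 := ⟨(EuclideanSpace.single 0 1 : E 2), hv0⟩
      obtain ⟨v', hv'⟩ := surj x₀ hz v
      obtain ⟨w', hw'⟩ := surj x₀ hz (j _ v)
      have h2 := vanish (pb e.symm α z) h0 ![v', w']
      rw [pb_two] at h2
      have hv2 : mfderiv (𝓡 2) (𝓡 2) e.symm z v' = v := hv'
      have hw2 : mfderiv (𝓡 2) (𝓡 2) e.symm z w' = j _ v := hw'
      rw [hv2, hw2] at h2
      exact (hpos _ v hv).ne' h2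
    refine ⟨h0, fun v => ?_⟩
    rw [div_mul_eq_mul_div, eq_div_iff h0, h1 v]
    ring
  have hκ : ContinuousOn (fun z => |pb e.symm η z b / pb e.symm α z b|) e.target :=
    (hHc.div hAc (fun z hz => (key z hz).1)).abs
  have hz₀ : e x₀ ∈ e.target := e.map_source (mem_chart_source _ x₀)
  refine ⟨|pb e.symm η (e x₀) b / pb e.symm α (e x₀) b| + 1, ?_⟩
  have h5 : ∀ᶠ z in 𝓝 (e x₀), |pb e.symm η z b / pb e.symm α z b| <
      |pb e.symm η (e x₀) b / pb e.symm α (e x₀) b| + 1 :=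
    (hκ.continuousAt (e.open_target.mem_nhds hz₀)).eventually_lt_const (lt_add_one _)
  have h6 : ∀ᶠ x in 𝓝 x₀, |pb e.symm η (e x) b / pb e.symm α (e x) b| <
      |pb e.symm η (e x₀) b / pb e.symm α (e x₀) b| + 1 :=
    (e.continuousAt (mem_chart_source _ x₀)).eventually h5
  filter_upwards [h6, e.open_source.mem_nhds (mem_chart_source _ x₀)] with x hx hxs
  have h7 := (key (e x) (e.map_source hxs)).2
  rw [e.left_inv hxs] at h7
  intro v
  rw [h7 v, abs_mul, abs_of_nonneg (nonneg hpos x v)]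
  exact mul_le_mul_of_nonneg_right hx.le (nonneg hpos x v)

end H628B

/-- Two-forms on a closed surface are bounded by a positive form.

Proof.  For `x₀ ∈ S` let `A = pb (chartAt x₀).symm α`, `H = pb (chartAt x₀).symm η` (smooth on the target,
`LG.smooth_chart`).  On `E 2` every alternating two-form is a multiple of the area form, so
`H z = κ z • A z` with `κ z = H z ![e₀, e₁] / A z ![e₀, e₁]` (`A z ≠ 0` since `0 < α x ![v, j x v]` for `v ≠ 0`), and
`κ` is continuous near `chartAt x₀ x₀`, so bounded by some `M` on a neighbourhood; there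
`|η x ![v, j x v]| = |κ| * α x ![v, j x v] ≤ M * α x ![v, j x v]`.  Compactness of `S`. -/
theorem bound_by [T2Space S] [CompactSpace S] {j : End 2 S} {α η : Form 2 S 2} (hα : IsSmooth α)
    (hη : IsSmooth η)
    (hpos : ∀ (x : S) (v : TangentSpace (𝓡 2) x), v ≠ 0 → 0 < α x ![v, j x v]) :
    ∃ M : ℝ, ∀ (x : S) (v : TangentSpace (𝓡 2) x),
      |η x ![v, j x v]| ≤ M * α x ![v, j x v] := by
  have hn := H628B.nonneg hpos
  have hloc : ∀ x₀ ∈ (univ : Set S), ∃ t ∈ 𝓝[univ] x₀, ∃ M : ℝ, ∀ x ∈ t, ∀ v : TangentSpace (𝓡 2) x,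
      |η x ![v, j x v]| ≤ M * α x ![v, j x v] := by
    intro x₀ _
    rw [nhdsWithin_univ]
    obtain ⟨M, hM⟩ := H628B.loc hα hη hpos x₀
    exact ⟨_, hM, M, fun x hx => hx⟩
  obtain ⟨M, hM⟩ := isCompact_univ.induction_on
    (p := fun t : Set S => ∃ M : ℝ, ∀ x ∈ t, ∀ v : TangentSpace (𝓡 2) x,
      |η x ![v, j x v]| ≤ M * α x ![v, j x v])
    ⟨0, fun x hx => absurd hx (Set.notMem_empty x)⟩
    (fun s t hst ⟨M, hM⟩ => ⟨M, fun x hx => hM x (hst hx)⟩)
    (fun s t ⟨M, hM⟩ ⟨M', hM'⟩ => ⟨max M M', fun x hx v => by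
      rcases hx with hx | hx
      · exact (hM x hx v).trans (mul_le_mul_of_nonneg_right (le_max_left _ _) (hn x v))
      · exact (hM' x hx v).trans (mul_le_mul_of_nonneg_right (le_max_right _ _) (hn x v))⟩)
    hloc
  exact ⟨M, fun x v => hM x (mem_univ x) v⟩

end Pool.Agent.H819.NC
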