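import Mathlib
import Pool.Agent.H819.NC.Def

/-!
# The exterior derivative of a smooth form
-/

set_option autoImplicit false

open Set Filter Topology MeasureTheory Metric
open scoped Manifold ContDiff ENNReal NNReal

noncomputable section

namespace Pool.Agent.H819.NC

open Pool.Agent.Y501.SY
open Pool.Agent.H819

variable {d : ℕ} {X : Type} [TopologicalSpace X] [ChartedSpace (E d) X] [IsManifold (𝓡 d) ∞ X]

namespace H585X

omit [IsManifold (𝓡 d) ∞ X] in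
theorem pb_congr {k : ℕ} (σ : Form d X k) {F H : E d → X} {p : E d} (h : F =ᶠ[𝓝 p] H) :
    pb F σ p = pb H σ p := by
  have hp : F p = H p := h.eq_of_nhds
  have hd : (mfderiv (𝓡 d) (𝓡 d) F p : E d →L[ℝ] E d) = mfderiv (𝓡 d) (𝓡 d) H p :=
    h.mfderiv_eq
  ext v
  show (σ (F p) : (E d) [⋀^Fin k]→L[ℝ] ℝ)
      (fun i => (mfderiv (𝓡 d) (𝓡 d) F p : E d →L[ℝ] E d) (v i)) =
    (σ (H p) : (E d) [⋀^Fin k]→L[ℝ] ℝ)
      (fun i => (mfderiv (𝓡 d) (𝓡 d) H p : E d →L[ℝ] E d) (v i))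
  rw [hd, hp]

omit [IsManifold (𝓡 d) ∞ X] in
theorem pb_comp {k : ℕ} (σ : Form d X k) {f : E d → X} {ψ : E d → E d} {p : E d}
    (hf : MDifferentiableAt (𝓡 d) (𝓡 d) f (ψ p)) (hψ : MDifferentiableAt (𝓡 d) (𝓡 d) ψ p) :
    pb (f ∘ ψ) σ p = (pb f σ (ψ p)).compContinuousLinearMap (fderiv ℝ ψ p) := by
  unfold pb
  rw [mfderiv_comp p hf hψ, ← mfderiv_eq_fderiv]
  rfl

omit [IsManifold (𝓡 d) ∞ X] in
theorem chain {k : ℕ} (w : (E d) [⋀^Fin k]→L[ℝ] ℝ) {c : X → E d} {φ : E d → X} {p : E d}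
    (hc : MDifferentiableAt (𝓡 d) (𝓡 d) c (φ p)) (hφ : MDifferentiableAt (𝓡 d) (𝓡 d) φ p) :
    (w.compContinuousLinearMap (mfderiv (𝓡 d) (𝓡 d) c (φ p))).compContinuousLinearMap
      (mfderiv (𝓡 d) (𝓡 d) φ p) = w.compContinuousLinearMap (fderiv ℝ (c ∘ φ) p) := by
  rw [← mfderiv_eq_fderiv, mfderiv_comp p hc hφ]
  rfl

/-- the exterior derivative at `x`, computed in the chart at `x` -/
def dX {k : ℕ} (b : Form d X k) : Form d X (k + 1) := fun x =>
  (extDeriv (pb (chartAt (E d) x).symm b) (chartAt (E d) x x)).compContinuousLinearMap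
    (mfderiv (𝓡 d) (𝓡 d) (chartAt (E d) x) x)

theorem key {k : ℕ} {b : Form d X k} (hb : IsSmooth b) (U : Set (E d)) (φ : E d → X)
    (hU : IsOpen U) (hφ : ContMDiffOn (𝓡 d) (𝓡 d) ∞ φ U) (p₀ : E d) (hp₀ : p₀ ∈ U) :
    extDeriv (pb φ b) p₀ = pb φ (dX b) p₀ := by
  set c := chartAt (E d) (φ p₀) with hc
  have hcs : ContMDiffOn (𝓡 d) (𝓡 d) ∞ c c.source := contMDiffOn_chart
  have hct : ContMDiffOn (𝓡 d) (𝓡 d) ∞ c.symm c.target := contMDiffOn_chart_symm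
  have hU' : IsOpen (U ∩ φ ⁻¹' c.source) :=
    hφ.continuousOn.isOpen_inter_preimage hU c.open_source
  have hp₀' : p₀ ∈ U ∩ φ ⁻¹' c.source := ⟨hp₀, mem_chart_source (E d) (φ p₀)⟩
  have hψm : ContMDiffOn (𝓡 d) (𝓡 d) ∞ (c ∘ φ) (U ∩ φ ⁻¹' c.source) :=
    hcs.comp (hφ.mono inter_subset_left) fun p hp => hp.2
  have hψ : ContDiffOn ℝ ∞ (c ∘ φ) (U ∩ φ ⁻¹' c.source) := contMDiffOn_iff_contDiffOn.1 hψm
  have hmaps : ∀ p ∈ U ∩ φ ⁻¹' c.source, (c ∘ φ) p ∈ c.target := fun p hp =>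
    c.map_source hp.2
  have hw : ContDiffOn ℝ ∞ (pb c.symm b) c.target := hb c.target c.symm c.open_target hct
  have hw0 : ContDiffAt ℝ ∞ (pb c.symm b) ((c ∘ φ) p₀) :=
    hw.contDiffAt (c.open_target.mem_nhds (hmaps p₀ hp₀'))
  have hψ0 : ContDiffAt ℝ ∞ (c ∘ φ) p₀ := hψ.contDiffAt (hU'.mem_nhds hp₀')
  have hnear : pb φ b =ᶠ[𝓝 p₀] fun p =>
      (pb c.symm b ((c ∘ φ) p)).compContinuousLinearMap (fderiv ℝ (c ∘ φ) p) := by
    filter_upwards [hU'.mem_nhds hp₀'] with p hp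
    have hψp : MDifferentiableAt (𝓡 d) (𝓡 d) (c ∘ φ) p :=
      ((hψm p hp).contMDiffAt (hU'.mem_nhds hp)).mdifferentiableAt (by simp)
    have hcp : MDifferentiableAt (𝓡 d) (𝓡 d) c.symm ((c ∘ φ) p) :=
      ((hct _ (hmaps p hp)).contMDiffAt (c.open_target.mem_nhds (hmaps p hp))).mdifferentiableAt
        (by simp)
    have h2 : φ =ᶠ[𝓝 p] (c.symm ∘ (c ∘ φ)) := by
      filter_upwards [hU'.mem_nhds hp] with r hr
      exact (c.left_inv hr.2).symm
    rw [pb_congr b h2, pb_comp b hcp hψp]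
  have hφp : MDifferentiableAt (𝓡 d) (𝓡 d) φ p₀ :=
    ((hφ p₀ hp₀).contMDiffAt (hU.mem_nhds hp₀)).mdifferentiableAt (by simp)
  have hcp : MDifferentiableAt (𝓡 d) (𝓡 d) c (φ p₀) :=
    ((hcs _ hp₀'.2).contMDiffAt (c.open_source.mem_nhds hp₀'.2)).mdifferentiableAt (by simp)
  rw [hnear.extDeriv_eq, extDeriv_pullback (r := ∞) (hw0.differentiableAt (by simp)) hψ0 (by
      rw [minSmoothness_of_isRCLikeNormedField]
      exact WithTop.coe_le_coe.2 le_top)]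
  exact (chain (extDeriv (pb c.symm b) ((c ∘ φ) p₀)) hcp hφp).symm

end H585X

/-- The exterior derivative of a smooth form.

Proof.  `η x = (extDeriv (pb (chartAt (E d) x).symm b) (chartAt (E d) x x)).compContinuousLinearMap
(mfderiv (𝓡 d) (𝓡 d) (chartAt (E d) x) x)`.  Let `φ` be smooth on the open set `U`, `p₀ ∈ U`, `x₀ = φ p₀`,
`c = chartAt x₀`, `ψ = c ∘ φ`, smooth near `p₀`, `w = pb c.symm b`, smooth on `c.target`.  Near `p₀`,
`pb φ b = (w (ψ p)).compContinuousLinearMap (fderiv ℝ ψ p)` (chain rule, as in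
`Pool.Agent.Y604.SY.t_PULL`), so by `extDeriv_pullback`
`extDeriv (pb φ b) p = (extDeriv w (ψ p)).compContinuousLinearMap (fderiv ℝ ψ p)` for `p` near `p₀`.  Taking
for `φ` the inverses of charts and changing charts, one sees that `pb φ η` is given by the same formula
with the chart at `φ p` instead of `c`, and the two agree (naturality of `extDeriv` again).  So
`IsD b η`, and `pb φ η = extDeriv (pb φ b)` on `U` is smooth since `pb φ b` is (`hb`):
`Pool.Agent.Y891.SY.contDiffAt_extDeriv`. -/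
theorem exists_isD {k : ℕ} {b : Form d X k} (hb : IsSmooth b) :
    ∃ η : Form d X (k + 1), IsSmooth η ∧ IsD b η := by
  refine ⟨H585X.dX b, fun U φ hU hφ p hp => ?_, fun U φ hU hφ p hp =>
    H585X.key hb U φ hU hφ p hp⟩
  have h1 : ContDiffAt ℝ ∞ (pb φ b) p := (hb U φ hU hφ).contDiffAt (hU.mem_nhds hp)
  have h2 : ContDiffAt ℝ ∞ (extDeriv (pb φ b)) p :=
    ((ContinuousAlternatingMap.alternatizeUncurryFinCLM ℝ (E d) ℝ).contDiff.contDiffAt).comp p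
      (h1.fderiv_right (by simp))
  refine (h2.congr_of_eventuallyEq ?_).contDiffWithinAt
  filter_upwards [hU.mem_nhds hp] with r hr
  exact (H585X.key hb U φ hU hφ r hr).symm

end Pool.Agent.H819.NC
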