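import Mathlib
import Pool.Agent.H819.NC.Retr

/-!
# Local extension of one-forms from a curve
-/

set_option autoImplicit false

open Set Filter Topology MeasureTheory Metric
open scoped Manifold ContDiff ENNReal NNReal

noncomputable section

namespace Pool.Agent.H819.NC

open Pool.Agent.Y501.SY
open Pool.Agent.H819

variable {d : ℕ} {X : Type} [TopologicalSpace X] [ChartedSpace (E d) X] [IsManifold (𝓡 d) ∞ X]
  {S : Type} [TopologicalSpace S] [ChartedSpace (E 2) S] [IsManifold (𝓡 2) ∞ S]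

namespace ExtLocAux

/-- the pull-back of a one-form on `S` to the model space of `X` -/
def pg {d : ℕ} {S : Type} [TopologicalSpace S] [ChartedSpace (E 2) S] (σ : Form 2 S 1)
    (F : E d → S) (p : E d) : (E d) [⋀^Fin 1]→L[ℝ] ℝ :=
  (σ (F p)).compContinuousLinearMap (mfderiv (𝓡 d) (𝓡 2) F p)

omit [IsManifold (𝓡 2) ∞ S] in
theorem pg_congr (σ : Form 2 S 1) {F H : E d → S} {p : E d} (h : F =ᶠ[𝓝 p] H) :
    pg σ F p = pg σ H p := by
  have hp : F p = H p := h.eq_of_nhds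
  have hd : (mfderiv (𝓡 d) (𝓡 2) F p : E d →L[ℝ] E 2) = mfderiv (𝓡 d) (𝓡 2) H p :=
    h.mfderiv_eq
  ext v
  show (σ (F p) : (E 2) [⋀^Fin 1]→L[ℝ] ℝ)
      (fun i => (mfderiv (𝓡 d) (𝓡 2) F p : E d →L[ℝ] E 2) (v i)) =
    (σ (H p) : (E 2) [⋀^Fin 1]→L[ℝ] ℝ)
      (fun i => (mfderiv (𝓡 d) (𝓡 2) H p : E d →L[ℝ] E 2) (v i))
  rw [hd, hp]

omit [IsManifold (𝓡 2) ∞ S] in
/-- the chain rule -/
theorem pg_comp (σ : Form 2 S 1) {n : ℕ} {Z : Type} [TopologicalSpace Z] [ChartedSpace (E n) Z]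
    {f : Z → S} {φ : E d → Z} {p : E d} (hf : MDifferentiableAt (𝓡 n) (𝓡 2) f (φ p))
    (hφ : MDifferentiableAt (𝓡 d) (𝓡 n) φ p) :
    pg σ (f ∘ φ) p = ((σ (f (φ p))).compContinuousLinearMap
      (mfderiv (𝓡 n) (𝓡 2) f (φ p))).compContinuousLinearMap (mfderiv (𝓡 d) (𝓡 n) φ p) := by
  unfold pg
  rw [mfderiv_comp p hf hφ]
  rfl

omit [IsManifold (𝓡 d) ∞ X] in
/-- the smoothness of the product of a smooth function and a pull-back -/
theorem smooth_pull {β : Form 2 S 1} (hβ : IsSmooth β) {r : X → S} {O : Set X} (hO : IsOpen O)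
    (hr : ContMDiffOn (𝓡 d) (𝓡 2) ∞ r O) {f : X → ℝ} (hf : ContMDiff (𝓡 d) 𝓘(ℝ, ℝ) ∞ f)
    (hfs : tsupport f ⊆ O) :
    IsSmooth (d := d) (X := X) (k := 1) (fun x => f x • (β (r x)).compContinuousLinearMap
      (mfderiv (𝓡 d) (𝓡 2) r x)) := by
  intro U φ hU hφ p₀ hp₀
  apply ContDiffAt.contDiffWithinAt
  by_cases hO₀ : φ p₀ ∈ O
  · obtain ⟨c, hc⟩ : ∃ c, c = chartAt (E 2) (r (φ p₀)) := ⟨_, rfl⟩
    have hV : IsOpen (U ∩ φ ⁻¹' O) := hφ.continuousOn.isOpen_inter_preimage hU hO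
    have hF : ContMDiffOn (𝓡 d) (𝓡 2) ∞ (r ∘ φ) (U ∩ φ ⁻¹' O) :=
      hr.comp (hφ.mono inter_subset_left) fun p hp => hp.2
    have hU' : IsOpen ((U ∩ φ ⁻¹' O) ∩ (r ∘ φ) ⁻¹' c.source) :=
      hF.continuousOn.isOpen_inter_preimage hV c.open_source
    have hp₀' : p₀ ∈ (U ∩ φ ⁻¹' O) ∩ (r ∘ φ) ⁻¹' c.source := by
      refine ⟨⟨hp₀, hO₀⟩, ?_⟩
      rw [hc]
      exact mem_chart_source (E 2) (r (φ p₀))
    have hcs : ContMDiffOn (𝓡 2) (𝓡 2) ∞ c c.source := by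
      rw [hc]
      exact contMDiffOn_chart
    have hct : ContMDiffOn (𝓡 2) (𝓡 2) ∞ c.symm c.target := by
      rw [hc]
      exact contMDiffOn_chart_symm
    have hψm : ContMDiffOn (𝓡 d) (𝓡 2) ∞ (c ∘ (r ∘ φ)) ((U ∩ φ ⁻¹' O) ∩ (r ∘ φ) ⁻¹' c.source) :=
      hcs.comp (hF.mono inter_subset_left) fun p hp => hp.2
    have hψ : ContDiffOn ℝ ∞ (c ∘ (r ∘ φ)) ((U ∩ φ ⁻¹' O) ∩ (r ∘ φ) ⁻¹' c.source) :=
      contMDiffOn_iff_contDiffOn.1 hψm
    have hmaps : ∀ p ∈ (U ∩ φ ⁻¹' O) ∩ (r ∘ φ) ⁻¹' c.source, (c ∘ (r ∘ φ)) p ∈ c.target :=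
      fun p hp => c.map_source hp.2
    have hw : ContDiffOn ℝ ∞ (pb c.symm β) c.target := hβ c.target c.symm c.open_target hct
    have hfφ : ContDiffOn ℝ ∞ (f ∘ φ) U :=
      contMDiffOn_iff_contDiffOn.1 (hf.comp_contMDiffOn hφ)
    have hkey : pb φ (fun x => f x • (β (r x)).compContinuousLinearMap
        (mfderiv (𝓡 d) (𝓡 2) r x)) =ᶠ[𝓝 p₀]
        fun p => (f ∘ φ) p • (pb c.symm β ((c ∘ (r ∘ φ)) p)).compContinuousLinearMap
          (fderiv ℝ (c ∘ (r ∘ φ)) p) := by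
      filter_upwards [hU'.mem_nhds hp₀'] with p hp
      have hφp : MDifferentiableAt (𝓡 d) (𝓡 d) φ p :=
        ((hφ p hp.1.1).contMDiffAt (hU.mem_nhds hp.1.1)).mdifferentiableAt (by simp)
      have hrp : MDifferentiableAt (𝓡 d) (𝓡 2) r (φ p) :=
        ((hr _ hp.1.2).contMDiffAt (hO.mem_nhds hp.1.2)).mdifferentiableAt (by simp)
      have hψp : MDifferentiableAt (𝓡 d) (𝓡 2) (c ∘ (r ∘ φ)) p :=
        ((hψm p hp).contMDiffAt (hU'.mem_nhds hp)).mdifferentiableAt (by simp)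
      have hcp : MDifferentiableAt (𝓡 2) (𝓡 2) c.symm ((c ∘ (r ∘ φ)) p) :=
        ((hct _ (hmaps p hp)).contMDiffAt (c.open_target.mem_nhds (hmaps p hp))).mdifferentiableAt
          (by simp)
      have h1 : pb φ (fun x => f x • (β (r x)).compContinuousLinearMap
          (mfderiv (𝓡 d) (𝓡 2) r x)) p = f (φ p) • pg β (r ∘ φ) p := by
        rw [pg_comp β hrp hφp]
        rfl
      have h2 : (r ∘ φ) =ᶠ[𝓝 p] (c.symm ∘ (c ∘ (r ∘ φ))) := by
        filter_upwards [hU'.mem_nhds hp] with p' hp'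
        exact (c.left_inv hp'.2).symm
      have h3 : (pb c.symm β ((c ∘ (r ∘ φ)) p)).compContinuousLinearMap
          (fderiv ℝ (c ∘ (r ∘ φ)) p) = pg β (c.symm ∘ (c ∘ (r ∘ φ))) p := by
        rw [pg_comp β hcp hψp, mfderiv_eq_fderiv]
        rfl
      rw [h1, pg_congr β h2, h3]
      rfl
    refine ContDiffAt.congr_of_eventuallyEq ?_ hkey
    refine (hfφ.contDiffAt (hU.mem_nhds hp₀)).smul ?_
    have hψ₀ : ContDiffAt ℝ ∞ (c ∘ (r ∘ φ)) p₀ := hψ.contDiffAt (hU'.mem_nhds hp₀')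
    have hw₀ : ContDiffAt ℝ ∞ (pb c.symm β) ((c ∘ (r ∘ φ)) p₀) :=
      hw.contDiffAt (c.open_target.mem_nhds (hmaps p₀ hp₀'))
    have h3 : ContDiffAt ℝ ∞ (fun p => (pb c.symm β ((c ∘ (r ∘ φ)) p),
        fderiv ℝ (c ∘ (r ∘ φ)) p)) p₀ :=
      (hw₀.comp p₀ hψ₀).prodMk (hψ₀.fderiv_right (by simp))
    exact Pool.Agent.Y604.SY.contDiff_pull.contDiffAt.comp p₀ h3
  · have h0 : φ p₀ ∉ tsupport f := fun h => hO₀ (hfs h)
    have hW : IsOpen (U ∩ φ ⁻¹' (tsupport f)ᶜ) :=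
      hφ.continuousOn.isOpen_inter_preimage hU (isClosed_tsupport f).isOpen_compl
    have hkey : pb φ (fun x => f x • (β (r x)).compContinuousLinearMap
        (mfderiv (𝓡 d) (𝓡 2) r x)) =ᶠ[𝓝 p₀] fun _ => 0 := by
      filter_upwards [hW.mem_nhds ⟨hp₀, h0⟩] with p hp
      have h1 : f (φ p) = 0 := image_eq_zero_of_notMem_tsupport hp.2
      ext v
      show f (φ p) • _ = (0 : ℝ)
      rw [h1, zero_smul]
    exact contDiffAt_const.congr_of_eventuallyEq hkey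

end ExtLocAux

/-- Local extension.

Proof.  Take `O`, `r` from `exists_retr` (with `V = univ`) and a smooth function `χ : X → ℝ` with
`tsupport χ ⊆ O` and `χ = 1` on an open neighbourhood `O'` of `u q` (a bump function:
`SmoothBumpFunction`, or a smooth bump function in the chart at `u q` extended by zero).  Let
`V = u ⁻¹' O'` (open).  For `β` as in the statement put `b x = χ x • (β (r x)).compContinuousLinearMap
(mfderiv r x)` for `x ∈ O` and `b x = 0` otherwise.  Smoothness: near points of `O` it is `χ` times the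
pull-back of `β` under the smooth map `r` (in charts: `(w (ψ z)).compContinuousLinearMap (fderiv ψ z)`, as in
`Pool.Agent.Y604.SY.t_PULL`, `contDiff_pull`), near the other points it vanishes.  `pullF u b = β` at `x`: if
`u x ∈ O`, then `r (u x') = x'` for all `x'` near `x`, so `mfderiv r (u x) ∘ mfderiv u x = id` and
`pullF u b x = χ (u x) • β x`, which is `β x` since `χ (u x) = 1` if `x ∈ V` and `β x = 0` if `x ∉ V`; if
`u x ∉ O`, both sides are zero (`x ∉ V`). -/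
theorem ext_local [T2Space X] [CompactSpace S] {J : End d X} {j : End 2 S} {u : S → X}
    {P : Set X} (hc : Curve J j u P) {q : S} (hq : u q ∉ P) :
    ∃ V : Set S, IsOpen V ∧ q ∈ V ∧ ∀ β : Form 2 S 1, IsSmooth β → (∀ x, x ∉ V → β x = 0) →
      ∃ b : Form d X 1, IsSmooth b ∧ pullF u b = β := by
  obtain ⟨O, r, hO, hqO, -, hr, hru⟩ := exists_retr hc hq isOpen_univ (mem_univ q)
  obtain ⟨f, -, hfO⟩ := (SmoothBumpFunction.nhds_basis_tsupport (I := 𝓡 d) (u q)).mem_iff.1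
    (hO.mem_nhds hqO)
  obtain ⟨O', hO'1, hO', hqO'⟩ := mem_nhds_iff.1 f.eventuallyEq_one
  have hO'O : O' ⊆ O := by
    intro x hx
    apply hfO
    apply subset_tsupport
    have h1 : f x = 1 := hO'1 hx
    rw [Function.mem_support, h1]
    exact one_ne_zero
  refine ⟨u ⁻¹' O', hO'.preimage hc.smooth.continuous, hqO', fun β hβ hβ0 => ?_⟩
  refine ⟨_, ExtLocAux.smooth_pull hβ hO hr f.contMDiff hfO, ?_⟩
  funext x
  by_cases hx : u x ∈ O
  · have h1 : r (u x) = x := (hru x hx).2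
    have h2 : (r ∘ u) =ᶠ[𝓝 x] id := by
      filter_upwards [(hO.preimage hc.smooth.continuous).mem_nhds hx] with x' hx'
      exact (hru x' hx').2
    have h3 : MDifferentiableAt (𝓡 2) (𝓡 d) u x := (hc.smooth x).mdifferentiableAt (by simp)
    have h4 : MDifferentiableAt (𝓡 d) (𝓡 2) r (u x) :=
      ((hr _ hx).contMDiffAt (hO.mem_nhds hx)).mdifferentiableAt (by simp)
    have h5 : ((mfderiv (𝓡 d) (𝓡 2) r (u x) : E d →L[ℝ] E 2).comp
        (mfderiv (𝓡 2) (𝓡 d) u x : E 2 →L[ℝ] E d)) = ContinuousLinearMap.id ℝ (E 2) := by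
      have h6 : (mfderiv (𝓡 2) (𝓡 2) (r ∘ u) x : E 2 →L[ℝ] E 2) =
          (mfderiv (𝓡 d) (𝓡 2) r (u x) : E d →L[ℝ] E 2).comp
            (mfderiv (𝓡 2) (𝓡 d) u x : E 2 →L[ℝ] E d) := mfderiv_comp x h4 h3
      have h7 : (mfderiv (𝓡 2) (𝓡 2) (r ∘ u) x : E 2 →L[ℝ] E 2) =
          ContinuousLinearMap.id ℝ (E 2) := by
        rw [h2.mfderiv_eq]
        exact mfderiv_id
      rw [← h6, h7]
    have h8 : ∀ y, y = x → (β y : (E 2) [⋀^Fin 1]→L[ℝ] ℝ) = β x := by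
      rintro _ rfl
      rfl
    have h9 : pullF u (fun x => f x • (β (r x)).compContinuousLinearMap
        (mfderiv (𝓡 d) (𝓡 2) r x)) x = f (u x) • β x := by
      ext v
      show f (u x) • (β (r (u x)) : (E 2) [⋀^Fin 1]→L[ℝ] ℝ) (fun i =>
        ((mfderiv (𝓡 d) (𝓡 2) r (u x) : E d →L[ℝ] E 2).comp
          (mfderiv (𝓡 2) (𝓡 d) u x : E 2 →L[ℝ] E d)) (v i)) = f (u x) • β x v
      rw [h5, h8 _ h1]
      rfl
    rw [h9]
    by_cases hx' : u x ∈ O'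
    · have h10 : f (u x) = 1 := hO'1 hx'
      rw [h10, one_smul]
    · rw [hβ0 x hx', smul_zero]
  · have h1 : f (u x) = 0 := image_eq_zero_of_notMem_tsupport fun h => hx (hfO h)
    rw [hβ0 x fun h => hx (hO'O h)]
    ext v
    show f (u x) • _ = (0 : ℝ)
    rw [h1, zero_smul]

end Pool.Agent.H819.NC
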