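import Mathlib
import Pool.Agent.H819.NC.ExtLoc

/-!
# Extension of one-forms from a curve
-/

set_option autoImplicit false

open Set Filter Topology MeasureTheory Metric
open scoped Manifold ContDiff ENNReal NNReal

noncomputable section

namespace Pool.Agent.H819.NC

open Pool.Agent.Y501.SY
open Pool.Agent.H819

variable {d : ℕ} {X : Type} [TopologicalSpace X] [ChartedSpace (E d) X] [IsManifold (𝓡 d) ∞ X]
  {S : Type} [TopologicalSpace S] [ChartedSpace (E 2) S] [IsManifold (𝓡 2) ∞ S]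

namespace ExtOne

omit [IsManifold (𝓡 2) ∞ S] in
theorem smooth_fun_smul {k : ℕ} {ρ : S → ℝ} (hρ : ContMDiff (𝓡 2) 𝓘(ℝ, ℝ) ∞ ρ) {β : Form 2 S k}
    (hβ : IsSmooth β) : IsSmooth (fun x => ρ x • β x : Form 2 S k) := by
  intro U φ hU hφ
  have h1 : ContDiffOn ℝ ∞ (fun p => ρ (φ p)) U :=
    contMDiffOn_iff_contDiffOn.1 (hρ.comp_contMDiffOn hφ)
  have h2 := h1.smul (hβ U φ hU hφ)
  exact h2

omit [IsManifold (𝓡 d) ∞ X] [IsManifold (𝓡 2) ∞ S] in
theorem pullF_add {k : ℕ} (u : S → X) (σ τ : Form d X k) :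
    pullF (m := 2) u (σ + τ) = pullF u σ + pullF u τ := by
  funext x
  rfl

omit [IsManifold (𝓡 d) ∞ X] [IsManifold (𝓡 2) ∞ S] in
theorem pullF_zero {k : ℕ} (u : S → X) :
    pullF (m := 2) u (0 : Form d X k) = 0 := by
  funext x
  rfl

omit [IsManifold (𝓡 d) ∞ X] [IsManifold (𝓡 2) ∞ S] in
theorem pullF_sum {k : ℕ} {ι : Type} (s : Finset ι) (u : S → X) (σ : ι → Form d X k) :
    pullF (m := 2) u (∑ i ∈ s, σ i) = ∑ i ∈ s, pullF u (σ i) := by
  classical
  induction s using Finset.induction_on with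
  | empty => simpa using pullF_zero u
  | insert a s ha ih => rw [Finset.sum_insert ha, Finset.sum_insert ha, pullF_add, ih]

end ExtOne

/-- **Extension of one-forms.**

Proof.  The compact set `Oᶜ` does not meet `u ⁻¹' P`, so it is covered by finitely many sets
`V i` of `ext_local`.  Take smooth functions `ρ i : S → ℝ` with `tsupport (ρ i) ⊆ V i` (or only `ρ i = 0` off
`V i`) and `∑ i, ρ i = 1` on `Oᶜ` (`SmoothPartitionOfUnity.exists_isSubordinate`; `S` is compact T2, so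
sigma-compact).  Then `β = ∑ i, ρ i • β` (`β = 0` on `O`), and `b = ∑ i, b i` with `pullF u (b i) = ρ i • β`.
Smoothness of `ρ i • β` and of sums: `pb φ (ρ • β) = (ρ ∘ φ) • pb φ β`. -/
theorem ext_curve [T2Space X] [T2Space S] [CompactSpace S] {J : End d X} {j : End 2 S} {u : S → X}
    {P : Set X} (hc : Curve J j u P) {β : Form 2 S 1} (hβ : IsSmooth β) {O : Set S}
    (hO : IsOpen O) (hPO : u ⁻¹' P ⊆ O) (hβ0 : ∀ x ∈ O, β x = 0) :
    ∃ b : Form d X 1, IsSmooth b ∧ pullF u b = β := by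
  classical
  have hK : IsCompact Oᶜ := hO.isClosed_compl.isCompact
  have hq : ∀ q : S, q ∈ Oᶜ → u q ∉ P := fun q hq h => hq (hPO h)
  choose! V hVo hqV hV using fun (q : S) (h : q ∈ Oᶜ) => ext_local hc (hq q h)
  obtain ⟨t, ht⟩ := hK.elim_finite_subcover (fun q : {q : S // q ∈ Oᶜ} => V q.1)
    (fun q => hVo q.1 q.2) (fun q h => mem_iUnion.2 ⟨⟨q, h⟩, hqV q h⟩)
  have hcov : Oᶜ ⊆ ⋃ i : {q // q ∈ t}, V i.1.1 := by
    intro x hx
    obtain ⟨i, hi, hxi⟩ := mem_iUnion₂.1 (ht hx)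
    exact mem_iUnion.2 ⟨⟨i, hi⟩, hxi⟩
  obtain ⟨f, hf⟩ := SmoothPartitionOfUnity.exists_isSubordinate (𝓡 2) hO.isClosed_compl
    (fun i : {q // q ∈ t} => V i.1.1) (fun i => hVo _ i.1.2) hcov
  have hex : ∀ i : {q // q ∈ t}, ∃ b : Form d X 1, IsSmooth b ∧
      pullF u b = (fun x => f i x • β x : Form 2 S 1) := by
    intro i
    refine hV i.1.1 i.1.2 _ (ExtOne.smooth_fun_smul (f i).contMDiff hβ) ?_
    intro x hx
    have h1 : f i x = 0 := image_eq_zero_of_notMem_tsupport fun h => hx (hf i h)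
    show f i x • β x = 0
    rw [h1, zero_smul]
  choose b hb1 hb2 using hex
  refine ⟨∑ i, b i, IsSmooth.sum _ fun i _ => hb1 i, ?_⟩
  rw [ExtOne.pullF_sum, Finset.sum_congr rfl fun i _ => hb2 i]
  funext x
  rw [Finset.sum_apply]
  show ∑ i, f i x • β x = β x
  rw [← Finset.sum_smul]
  by_cases hx : x ∈ O
  · rw [hβ0 x hx, smul_zero]
  · have h1 : ∑ᶠ i, f i x = 1 := f.sum_eq_one hx
    rw [finsum_eq_sum_of_fintype] at h1
    rw [h1, one_smul]

end Pool.Agent.H819.NC
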