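import Mathlib
import Pool.Agent.H819.NC.Def
import Pool.Graph.R_seed8.Y501.SY.PairL
import Pool.Graph.R_seed8.Y455.SY.Pert

/-!
# Exact forms positive near a finite set
-/

set_option autoImplicit false

open Set Filter Topology MeasureTheory Metric
open scoped Manifold ContDiff ENNReal NNReal

noncomputable section

namespace Pool.Agent.H819.NC

open Pool.Agent.Y501.SY
open Pool.Agent.H819
open Pool.Agent.H819.LG (InClass extF)

namespace H980P

open scoped RealInnerProductSpace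

section lin

variable {d : ℕ}

/-- the inner product -/
def ip : E d →L[ℝ] E d →L[ℝ] ℝ := innerSL ℝ

/-- linear forms as alternating forms -/
def one : (E d →L[ℝ] ℝ) ≃ₗᵢ[ℝ] (E d) [⋀^Fin 1]→L[ℝ] ℝ :=
  ContinuousAlternatingMap.ofSubsingletonLIE (𝕜 := ℝ) (E := E d) (F := ℝ) (0 : Fin 1)

/-- the form `⟨L u, v⟩ - ⟨L v, u⟩` -/
def gB (L : E d →L[ℝ] E d) : (E d) [⋀^Fin 2]→L[ℝ] ℝ :=
  ContinuousAlternatingMap.alternatizeUncurryFinCLM ℝ (E d) ℝ
    ((one (d := d)).toContinuousLinearEquiv.toContinuousLinearMap.comp (ip.comp L))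

theorem gB_apply (L : E d →L[ℝ] E d) (u v : E d) : gB L ![u, v] = ⟪L u, v⟫ - ⟪L v, u⟫ := by
  show ContinuousAlternatingMap.alternatizeUncurryFin
    ((one (d := d)).toContinuousLinearEquiv.toContinuousLinearMap.comp (ip.comp L)) ![u, v] = _
  rw [ContinuousAlternatingMap.alternatizeUncurryFin_apply, Fin.sum_univ_two]
  simp only [Fin.val_zero, pow_zero, one_smul, Fin.val_one, pow_one, neg_smul]
  rfl

theorem exists_w (A : E d →L[ℝ] E d) (hA : ∀ u, A (A u) = -u) :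
    ∃ (w : (E d) [⋀^Fin 2]→L[ℝ] ℝ) (δ : ℝ), 0 < δ ∧ ∀ A' : E d →L[ℝ] E d, ‖A' - A‖ < δ →
      ∀ u : E d, u ≠ 0 → 0 < w ![u, A' u] := by
  refine ⟨gB A, 1 / (2 * ‖A‖ + 1), by positivity, fun A' hA' u hu => ?_⟩
  have hD : A' u = A u + (A' - A) u := by
    rw [sub_apply]
    abel
  set D := A' - A with hDdef
  have h1 : gB A ![u, A' u] = ‖A u‖ ^ 2 + ‖u‖ ^ 2 + (⟪A u, D u⟫ - ⟪A (D u), u⟫) := by
    rw [gB_apply, hD, map_add, hA, inner_add_right, inner_add_left, inner_neg_left,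
      real_inner_self_eq_norm_sq, real_inner_self_eq_norm_sq]
    ring
  have hu0 : 0 < ‖u‖ := norm_pos_iff.2 hu
  have h2 : |⟪A u, D u⟫| ≤ ‖A‖ * ‖D‖ * ‖u‖ ^ 2 := by
    calc |⟪A u, D u⟫| ≤ ‖A u‖ * ‖D u‖ := abs_real_inner_le_norm _ _
      _ ≤ (‖A‖ * ‖u‖) * (‖D‖ * ‖u‖) := by
          gcongr
          · exact A.le_opNorm u
          · exact D.le_opNorm u
      _ = ‖A‖ * ‖D‖ * ‖u‖ ^ 2 := by ring
  have h3 : |⟪A (D u), u⟫| ≤ ‖A‖ * ‖D‖ * ‖u‖ ^ 2 := by
    calc |⟪A (D u), u⟫| ≤ ‖A (D u)‖ * ‖u‖ := abs_real_inner_le_norm _ _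
      _ ≤ (‖A‖ * (‖D‖ * ‖u‖)) * ‖u‖ := by
          gcongr
          exact (A.le_opNorm _).trans (mul_le_mul_of_nonneg_left (D.le_opNorm u) (norm_nonneg _))
      _ = ‖A‖ * ‖D‖ * ‖u‖ ^ 2 := by ring
  have h4 : 2 * (‖A‖ * ‖D‖) < 1 := by
    have h5 : 0 < 2 * ‖A‖ + 1 := by positivity
    rw [lt_div_iff₀ h5] at hA'
    have h6 : 0 ≤ ‖A‖ := norm_nonneg _
    have h7 : 0 ≤ ‖D‖ := norm_nonneg _
    nlinarith
  rw [h1]
  have h5 := (abs_le.1 h2).1
  have h6 := (abs_le.1 h3).2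
  have h7 : 0 < ‖u‖ ^ 2 := by positivity
  have h8 : 2 * (‖A‖ * ‖D‖) * ‖u‖ ^ 2 < 1 * ‖u‖ ^ 2 := mul_lt_mul_of_pos_right h4 h7
  have h9 : 0 ≤ ‖A u‖ ^ 2 := by positivity
  linarith

theorem exists_prim (w : (E d) [⋀^Fin 2]→L[ℝ] ℝ) :
    ∃ b : E d → (E d) [⋀^Fin 1]→L[ℝ] ℝ, ContDiff ℝ ∞ b ∧ ∀ z, extDeriv b z = w := by
  let T : E d →L[ℝ] (E d) [⋀^Fin 1]→L[ℝ] ℝ := (1 / 2 : ℝ) • w.curryLeft
  refine ⟨fun z => T z, T.contDiff, fun z => ?_⟩
  unfold extDeriv
  have h1 : fderiv ℝ (fun z => T z) z = T := T.fderiv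
  rw [h1]
  show ContinuousAlternatingMap.alternatizeUncurryFin ((1 / 2 : ℝ) • w.curryLeft) = w
  rw [ContinuousAlternatingMap.alternatizeUncurryFin_smul,
    ContinuousAlternatingMap.alternatizeUncurryFin_curryLeft]
  ext v
  show (1 / 2 : ℝ) * ((1 + 1 : ℕ) • w v) = w v
  rw [nsmul_eq_mul]
  push_cast
  ring

end lin

end H980P

variable {d : ℕ} {X : Type} [TopologicalSpace X] [ChartedSpace (E d) X] [IsManifold (𝓡 d) ∞ X]

/-- Exact forms positive near a point.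

Proof.  Let `c = chartAt p p`, `A = inChart J p c`, `g(u, v) = ⟨u, v⟩ + ⟨A u, A v⟩` and
`w(u, v) = ⟨A u, v⟩ - ⟨u, A v⟩` (alternating; `w(u, A u) = ‖u‖² + ‖A u‖²` as `A² = -1`: `LG.inChart_sq`;
compare `gA` in `EM/Avg.lean`).  `b z u = w(z - c, u) / 2` has `extDeriv b = w`.  Cut off as in `zero_point`:
`γ = extF p (χ • b)`, `ξ = extF p (extDeriv (χ • b))`.  Near `p` the form `ξ` is `w` in the chart, and
`w(u, inChart J p z u) > 0` for all `u ≠ 0` and `z` near `c` by continuity of `inChart J p` at `c` and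
compactness of the sphere (or: `w(u, A' u) ≥ ‖u‖² - ‖w‖ ‖A' - A‖ ‖u‖²`). -/
theorem pos_point [T2Space X] {J : End d X}
    (hJ2 : ∀ (x : X) (v : TangentSpace (𝓡 d) x), J x (J x v) = -v)
    (hJ : ∀ x₀, ContinuousOn (inChart J x₀) (chartAt (E d) x₀).target) (p : X)
    {W : Set X} (hW : IsOpen W) (hpW : p ∈ W) :
    ∃ (γ : Form d X 1) (ξ : Form d X 2), IsSmooth γ ∧ IsSmooth ξ ∧ IsD γ ξ ∧
      (∀ x, x ∉ W → ξ x = 0) ∧ ∃ O : Set X, IsOpen O ∧ p ∈ O ∧ ∀ x ∈ O,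
        ∀ v : TangentSpace (𝓡 d) x, v ≠ 0 → 0 < ξ x ![v, J x v] := by
  classical
  set e := chartAt (E d) p with he
  set c : E d := e p with hc
  have hps : p ∈ e.source := mem_chart_source (E d) p
  have hct : c ∈ e.target := e.map_source hps
  have hsc : e.symm c = p := e.left_inv hps
  obtain ⟨w, δ, hδ, hw⟩ := H980P.exists_w (inChart J p c)
    (fun u => Pool.Agent.H819.LG.inChart_sq hJ2 p hct u)
  obtain ⟨b, hb, hbw⟩ := H980P.exists_prim w
  -- the neighbourhood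
  have hV : IsOpen (e.target ∩ e.symm ⁻¹' W) := e.isOpen_inter_preimage_symm hW
  have hcV : c ∈ e.target ∩ e.symm ⁻¹' W := ⟨hct, by
    show e.symm c ∈ W
    rw [hsc]
    exact hpW⟩
  obtain ⟨r, hr, hrV⟩ := Metric.isOpen_iff.1 hV c hcV
  let χ : ContDiffBump c := ⟨r / 4, r / 2, by positivity, by linarith⟩
  have hχ : ContDiff ℝ ∞ (χ : E d → ℝ) := χ.contDiff
  set Q : Set (E d) := closedBall c (r / 2) with hQ
  have hQc : IsCompact Q := isCompact_closedBall _ _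
  have hQV : Q ⊆ e.target ∩ e.symm ⁻¹' W := (closedBall_subset_ball (by linarith)).trans hrV
  have hQt : Q ⊆ e.target := hQV.trans inter_subset_left
  set β : E d → (E d) [⋀^Fin 1]→L[ℝ] ℝ := fun z => χ z • b z with hβ
  have hβs : ContDiff ℝ ∞ β := hχ.smul hb
  have hβ0 : ∀ z, z ∉ Q → β z = 0 := by
    intro z hz
    have h1 : χ z = 0 := by
      apply χ.zero_of_le_dist
      rw [hQ, mem_closedBall, not_le] at hz
      exact hz.le
    show χ z • b z = 0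
    rw [h1, zero_smul]
  obtain ⟨hD, hD0⟩ := Pool.Agent.H819.LG.isD_extF (x₀ := p) hβs hQc hQt hβ0
  have hDs : ContDiff ℝ ∞ (extDeriv β) := contDiff_iff_contDiffAt.2 fun z =>
    Pool.Agent.Y891.SY.contDiffAt_extDeriv hβs.contDiffAt
  have hnear : ∀ z ∈ ball c (r / 4), extDeriv β z = w := by
    intro z hz
    have h1 : β =ᶠ[𝓝 z] b := by
      filter_upwards [isOpen_ball.mem_nhds hz] with z' hz'
      have h2 : χ z' = 1 := χ.one_of_mem_closedBall (ball_subset_closedBall hz')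
      show χ z' • b z' = b z'
      rw [h2, one_smul]
    rw [h1.extDeriv_eq, hbw]
  refine ⟨extF p β, extF p (extDeriv β), Pool.Agent.H819.LG.smooth_extF hβs hQc hQt hβ0,
    Pool.Agent.H819.LG.smooth_extF hDs hQc hQt hD0, hD, fun x hx => ?_, ?_⟩
  · refine Pool.Agent.H819.LG.extF_zero p (extDeriv β) hD0 ?_
    rintro ⟨z, hz, hzx⟩
    apply hx
    rw [← hzx]
    exact (hQV hz).2
  · -- the set where the form is positive
    have hcont : ContinuousAt (inChart J p) c := (hJ p).continuousAt (e.open_target.mem_nhds hct)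
    have h1 : ∀ᶠ z in 𝓝 c, ‖inChart J p z - inChart J p c‖ < δ := by
      have h2 : ∀ᶠ z in 𝓝 c, dist (inChart J p z) (inChart J p c) < δ :=
        hcont.eventually (Metric.ball_mem_nhds _ hδ)
      filter_upwards [h2] with z hz
      rwa [dist_eq_norm] at hz
    have h3 : ∀ᶠ z in 𝓝 c, z ∈ ball c (r / 4) := ball_mem_nhds _ (by positivity)
    obtain ⟨N, hN1, hN2, hN3⟩ := _root_.eventually_nhds_iff.1 (h1.and h3)
    refine ⟨e.source ∩ e ⁻¹' N, e.isOpen_inter_preimage hN2, ⟨hps, hN3⟩, ?_⟩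
    intro x hx
    have hxt : e x ∈ e.target := e.map_source hx.1
    obtain ⟨h4, h5⟩ := hN1 _ hx.2
    have h6 : TamesAt (extF p (extDeriv β)) J (e.symm (e x)) := by
      rw [Pool.Agent.Y455.SY.tames_iff _ _ p hxt]
      intro v hv
      unfold Pool.Agent.Y455.SY.Q
      rw [Pool.Agent.H819.LG.extF_symm p (extDeriv β) hxt, hnear _ h5]
      exact hw _ h4 v hv
    rw [e.left_inv hx.1] at h6
    exact h6

/-- Exact forms positive near a finite set.

Proof.  The points of `P` have pairwise disjoint open neighbourhoods `W p` (`Set.Finite.t2_separation`);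
take the sum of the forms of `pos_point`. -/
theorem pos_near [T2Space X] {J : End d X}
    (hJ2 : ∀ (x : X) (v : TangentSpace (𝓡 d) x), J x (J x v) = -v)
    (hJ : ∀ x₀, ContinuousOn (inChart J x₀) (chartAt (E d) x₀).target) {P : Set X}
    (hP : P.Finite) :
    ∃ (γ : Form d X 1) (ξ : Form d X 2), IsSmooth γ ∧ IsSmooth ξ ∧ IsD γ ξ ∧
      ∃ O : Set X, IsOpen O ∧ P ⊆ O ∧ ∀ x ∈ O,
        ∀ v : TangentSpace (𝓡 d) x, v ≠ 0 → 0 < ξ x ![v, J x v] := by
  classical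
  obtain ⟨V, hV1, hV2⟩ := hP.t2_separation
  choose γ ξ hγ hξ hD h0 O hO hpO hpos using fun p : X =>
    pos_point (d := d) hJ2 hJ p (hV1 p).2 (hV1 p).1
  refine ⟨∑ p ∈ hP.toFinset, γ p, ∑ p ∈ hP.toFinset, ξ p, IsSmooth.sum _ fun p _ => hγ p,
    IsSmooth.sum _ fun p _ => hξ p, ?_, ⋃ p ∈ P, (O p ∩ V p), ?_, ?_, ?_⟩
  · have h1 : ∀ s : Finset X, IsSmooth (∑ p ∈ s, γ p) ∧ IsD (∑ p ∈ s, γ p) (∑ p ∈ s, ξ p) := by
      intro s
      induction s using Finset.induction_on with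
      | empty =>
        rw [Finset.sum_empty, Finset.sum_empty]
        exact ⟨IsSmooth.zero, IsD.zero⟩
      | insert a s ha ih =>
        rw [Finset.sum_insert ha, Finset.sum_insert ha]
        exact ⟨(hγ a).add ih.1, (hD a).add ih.2 (hγ a) ih.1⟩
    exact (h1 _).2
  · exact isOpen_biUnion fun p _ => (hO p).inter (hV1 p).2
  · intro p hp
    exact mem_biUnion hp ⟨hpO p, (hV1 p).1⟩
  · intro x hx v hv
    rw [mem_iUnion₂] at hx
    obtain ⟨p, hp, hx1, hx2⟩ := hx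
    have h1 : (∑ p ∈ hP.toFinset, ξ p) x = ξ p x := by
      rw [Finset.sum_apply, Finset.sum_eq_single p]
      · intro q hq hqp
        apply h0 q
        intro hxq
        exact (Set.disjoint_left.1 (hV2 (hP.mem_toFinset.1 hq) hp hqp)) hxq hx2
      · intro h
        exact absurd (hP.mem_toFinset.2 hp) h
    rw [h1]
    exact hpos p x hx1 v hv

end Pool.Agent.H819.NC
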