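import Mathlib
import Pool.Agent.H819.NC.Def
import Pool.Agent.H819.BC.Poinc

/-!
# The Poincaré lemma for two-forms on a ball
-/

set_option autoImplicit false

open Set Filter Topology MeasureTheory Metric
open scoped Manifold ContDiff ENNReal NNReal

noncomputable section

namespace Pool.Agent.H819.NC

open Pool.Agent.Y501.SY
open Pool.Agent.H819

variable {d : ℕ}

/-- Near every point of the ball the primitive `pk w c` agrees with the primitive of a global form. -/
theorem Poin.loc {c : E d} {R : ℝ} {w : E d → (E d) [⋀^Fin 2]→L[ℝ] ℝ}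
    (hw : ContDiffOn ℝ ∞ w (ball c R)) {z : E d} (hz : z ∈ ball c R) :
    ∃ (s : E d → (E d) [⋀^Fin 2]→L[ℝ] ℝ) (ρ : ℝ), ContDiff ℝ ∞ s ∧ dist z c < ρ ∧ ρ ≤ R ∧
      (∀ y ∈ ball c ρ, s y = w y) ∧ (∀ y ∈ ball c ρ, BC.pk w c y = BC.pk s c y) := by
  rw [mem_ball] at hz
  have hpos : 0 < R := lt_of_le_of_lt dist_nonneg hz
  obtain ⟨ε, h1, h2⟩ := exists_between hz
  have hε : 0 < ε := lt_of_le_of_lt dist_nonneg h1
  obtain ⟨r, s, hr, hs, hsub, hss⟩ := Pool.Agent.Y431.SY.exists_ext isOpen_ball hw hε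
    (closedBall_subset_ball h2)
  refine ⟨s, ε, hs, h1, h2.le, ?_, ?_⟩
  · intro y hy
    exact hss y (ball_subset_ball (by linarith) hy)
  · intro y hy
    unfold BC.pk
    refine setIntegral_congr_fun measurableSet_Icc fun t ht => ?_
    have h3 : c + t • (y - c) ∈ ball c (ε + r) := by
      rw [mem_ball, dist_eq_norm] at hy ⊢
      have h4 : c + t • (y - c) - c = t • (y - c) := by abel
      rw [h4, norm_smul, Real.norm_eq_abs, abs_of_nonneg ht.1]
      calc t * ‖y - c‖ ≤ 1 * ‖y - c‖ := mul_le_mul_of_nonneg_right ht.2 (norm_nonneg _)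
        _ < ε + r := by linarith
    show t • (w (c + t • (y - c))).curryLeft (y - c) = t • (s (c + t • (y - c))).curryLeft (y - c)
    rw [hss _ h3]

/-- The Poincaré lemma for two-forms on a ball.

Proof.  `b z u = ∫ t in 0..1, t * w (c + t (z - c)) ![z - c, u]` (for `z` in the ball).  Mathlib may contain a
Poincaré lemma; otherwise see `Pool/Agent/H819/BC/Poinc.lean`, `Pool/Agent/H819/PU/LocPot.lean` and
`Pool/Agent/H819/LG/Prim.lean` (all on origin/main), where such primitives are constructed. -/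
theorem poincare_two {c : E d} {R : ℝ} {w : E d → (E d) [⋀^Fin 2]→L[ℝ] ℝ}
    (hw : ContDiffOn ℝ ∞ w (ball c R)) (hcl : ∀ z ∈ ball c R, extDeriv w z = 0) :
    ∃ b : E d → (E d) [⋀^Fin 1]→L[ℝ] ℝ, ContDiffOn ℝ ∞ b (ball c R) ∧
      ∀ z ∈ ball c R, extDeriv b z = w z := by
  refine ⟨BC.pk w c, ?_, ?_⟩
  · intro z hz
    obtain ⟨s, ρ, hs, h1, h2, h3, h4⟩ := Poin.loc hw hz
    have h5 : BC.pk w c =ᶠ[𝓝 z] BC.pk s c := by
      filter_upwards [isOpen_ball.mem_nhds (mem_ball.2 h1)] with y hy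
      exact h4 y hy
    exact (((BC.pk_smooth hs c).contDiffAt).congr_of_eventuallyEq h5).contDiffWithinAt
  · intro z hz
    obtain ⟨s, ρ, hs, h1, h2, h3, h4⟩ := Poin.loc hw hz
    have hzρ : z ∈ ball c ρ := mem_ball.2 h1
    have h5 : BC.pk w c =ᶠ[𝓝 z] BC.pk s c := by
      filter_upwards [isOpen_ball.mem_nhds hzρ] with y hy
      exact h4 y hy
    rw [h5.extDeriv_eq, BC.ext_pk hs c z, h3 z hzρ]
    intro t ht
    have h6 : c + t • (z - c) ∈ ball c ρ := by
      rw [mem_ball, dist_eq_norm] at hzρ ⊢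
      have h4 : c + t • (z - c) - c = t • (z - c) := by abel
      rw [h4, norm_smul, Real.norm_eq_abs, abs_of_nonneg ht.1]
      calc t * ‖z - c‖ ≤ 1 * ‖z - c‖ := mul_le_mul_of_nonneg_right ht.2 (norm_nonneg _)
        _ < ρ := by linarith
    have h7 : s =ᶠ[𝓝 (c + t • (z - c))] w := by
      filter_upwards [isOpen_ball.mem_nhds h6] with y hy
      exact h3 y hy
    rw [h7.extDeriv_eq]
    exact hcl _ (ball_subset_ball h2 h6)

end Pool.Agent.H819.NC
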