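import Mathlib
import Pool.Agent.H819.NC.Poin

/-!
# Forms in a class which vanish near a finite set
-/

set_option autoImplicit false

open Set Filter Topology MeasureTheory Metric
open scoped Manifold ContDiff ENNReal NNReal

noncomputable section

namespace Pool.Agent.H819.NC

open Pool.Agent.Y501.SY
open Pool.Agent.H819
open Pool.Agent.H819.LG (InClass extF)

variable {d : ℕ} {X : Type} [TopologicalSpace X] [ChartedSpace (E d) X] [IsManifold (𝓡 d) ∞ X]

namespace NearZ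

omit [IsManifold (𝓡 d) ∞ X] in
theorem ext_const_zero {k : ℕ} (x₀ : X) (b : E d → (E d) [⋀^Fin k]→L[ℝ] ℝ) (hb : ∀ z, b z = 0) :
    extF x₀ b = 0 := by
  funext x
  exact LG.extF_zero x₀ b (Q := ∅) (fun z _ => hb z) (by simp)

/-- the extension of the expression in the chart is the form itself -/
theorem ext_pb {k : ℕ} (x₀ : X) (σ : Form d X k) (b : E d → (E d) [⋀^Fin k]→L[ℝ] ℝ) {x : X}
    (hx : x ∈ (chartAt (E d) x₀).source)
    (hb : b (chartAt (E d) x₀ x) = pb (chartAt (E d) x₀).symm σ (chartAt (E d) x₀ x)) :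
    extF x₀ b x = σ x := by
  rw [LG.extF_of_mem x₀ b hx, hb]
  have hl : (chartAt (E d) x₀).symm (chartAt (E d) x₀ x) = x := (chartAt (E d) x₀).left_inv hx
  have key : ∀ (y' : X), y' = x → ∀ w : Fin k → E d,
      (σ y' : (E d) [⋀^Fin k]→L[ℝ] ℝ) w = (σ x : (E d) [⋀^Fin k]→L[ℝ] ℝ) w := by
    rintro _ rfl w
    rfl
  have h3 := (mdifferentiable_chart (I := 𝓡 d) x₀).symm_comp_deriv hx
  ext v
  show (σ ((chartAt (E d) x₀).symm (chartAt (E d) x₀ x)) : (E d) [⋀^Fin k]→L[ℝ] ℝ)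
      (fun i => (mfderiv (𝓡 d) (𝓡 d) (chartAt (E d) x₀).symm (chartAt (E d) x₀ x))
        ((mfderiv (𝓡 d) (𝓡 d) (chartAt (E d) x₀) x) (v i))) = σ x v
  refine (key _ hl _).trans ?_
  refine congrArg (σ x : (E d) [⋀^Fin k]→L[ℝ] ℝ) ?_
  funext i
  exact DFunLike.congr_fun h3 (v i)

omit [IsManifold (𝓡 d) ∞ X] in
theorem inClass_self {σ : Form d X 2} (hσ : IsSmooth σ) (hcl : IsClosedForm σ) : InClass σ σ := by
  refine ⟨hσ, hcl, 0, IsSmooth.zero, ?_⟩
  rw [sub_self]
  exact IsD.zero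

end NearZ

/-- One point.

Proof.  Let `c = chartAt p p`, `closedBall c (2 r)` in the target of the chart, and in `W` (in the
chart).  Apply `poincare_two` to `w = pb (chartAt p).symm σ` (`LG.smooth_chart`, `LG.closed_chart`) on
`ball c (2 r)`, multiply the primitive by a smooth function `χ` with `χ = 1` on `closedBall c (r / 2)` and
`χ = 0` off `ball c r` (extend by zero: `b₁ = χ • b`, smooth on `E d`), and put `γ = - extF p b₁`,
`s = σ + (the derivative of γ) = σ - extF p (extDeriv b₁)`: `LG.isD_extF`, `LG.smooth_extF` with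
`Q = closedBall c r`. -/
theorem zero_point [T2Space X] {σ : Form d X 2} (hσ : IsSmooth σ) (hcl : IsClosedForm σ) (p : X)
    {W : Set X} (hW : IsOpen W) (hpW : p ∈ W) :
    ∃ s : Form d X 2, InClass σ s ∧ (∀ x, x ∉ W → s x = σ x) ∧
      ∃ O : Set X, IsOpen O ∧ p ∈ O ∧ ∀ x ∈ O, s x = 0 := by
  obtain ⟨e, he⟩ : ∃ e, e = chartAt (E d) p := ⟨_, rfl⟩
  have hps : p ∈ e.source := by rw [he]; exact mem_chart_source _ p
  obtain ⟨c, hc⟩ : ∃ c, c = e p := ⟨_, rfl⟩
  have hV : IsOpen (e.target ∩ e.symm ⁻¹' W) := e.isOpen_inter_preimage_symm hW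
  have hcV : c ∈ e.target ∩ e.symm ⁻¹' W := by
    rw [hc]
    refine ⟨e.map_source hps, ?_⟩
    rw [mem_preimage, e.left_inv hps]
    exact hpW
  obtain ⟨R, hR, hRV⟩ := Metric.isOpen_iff.1 hV c hcV
  obtain ⟨r, hr⟩ : ∃ r, r = R / 2 := ⟨_, rfl⟩
  have hr0 : 0 < r := by rw [hr]; linarith
  have hcb : closedBall c r ⊆ ball c R := closedBall_subset_ball (by rw [hr]; linarith)
  have hRt : ball c R ⊆ (chartAt (E d) p).target := fun z hz => by
    rw [← he]
    exact (hRV hz).1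
  obtain ⟨b, hb, hbd⟩ := poincare_two (c := c) (R := R)
    (w := pb (chartAt (E d) p).symm σ) ((LG.smooth_chart hσ p).mono hRt)
    (fun z hz => LG.closed_chart hcl p z (hRt hz))
  let χ : ContDiffBump c := ⟨r / 2, r, by linarith, by linarith⟩
  obtain ⟨b₁, hb₁⟩ : ∃ b₁ : E d → (E d) [⋀^Fin 1]→L[ℝ] ℝ, b₁ = fun z => χ z • b z := ⟨_, rfl⟩
  have hb0 : ∀ z, z ∉ closedBall c r → b₁ z = 0 := by
    intro z hz
    have h1 : χ z = 0 := χ.zero_of_le_dist (by
      rw [mem_closedBall, not_le] at hz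
      exact hz.le)
    rw [hb₁]
    simp only [h1, zero_smul]
  have hQ : IsCompact (closedBall c r) := isCompact_closedBall c r
  have hQt : closedBall c r ⊆ (chartAt (E d) p).target := hcb.trans hRt
  have hsm : ContDiff ℝ ∞ b₁ := by
    rw [contDiff_iff_contDiffAt]
    intro z
    by_cases hz : z ∈ ball c R
    · rw [hb₁]
      exact χ.contDiff.contDiffAt.smul (hb.contDiffAt (isOpen_ball.mem_nhds hz))
    · have h1 : z ∉ closedBall c r := fun h => hz (hcb h)
      have h2 : b₁ =ᶠ[𝓝 z] fun _ => 0 := by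
        filter_upwards [isClosed_closedBall.isOpen_compl.mem_nhds h1] with y hy
        exact hb0 y hy
      exact contDiffAt_const.congr_of_eventuallyEq h2
  have hsm2 : ContDiff ℝ ∞ (extDeriv b₁) := by
    rw [contDiff_iff_contDiffAt]
    intro z
    exact Pool.Agent.Y891.SY.contDiffAt_extDeriv hsm.contDiffAt
  obtain ⟨hD, hD0⟩ := LG.isD_extF (x₀ := p) hsm hQ hQt hb0
  have hS1 : IsSmooth (extF p b₁) := LG.smooth_extF hsm hQ hQt hb0
  have hS2 : IsSmooth (extF p (extDeriv b₁)) := LG.smooth_extF hsm2 hQ hQt hD0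
  obtain ⟨hE, -⟩ := LG.isD_extF (x₀ := p) hsm2 hQ hQt hD0
  have hdd : ∀ z, extDeriv (extDeriv b₁) z = 0 := fun z =>
    extDeriv_extDeriv_apply hsm.contDiffAt LG.smooth2
  rw [NearZ.ext_const_zero p _ hdd] at hE
  refine ⟨σ + (-1 : ℝ) • extF p (extDeriv b₁), ⟨hσ.add (hS2.smul _), ?_, (-1 : ℝ) • extF p b₁,
    hS1.smul _, ?_⟩, ?_, e.source ∩ e ⁻¹' (ball c (r / 2)), e.isOpen_inter_preimage isOpen_ball,
    ⟨hps, ?_⟩, ?_⟩
  · have h1 := IsD.add hcl (IsD.smul hE (-1)) hσ (hS2.smul _)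
    rw [smul_zero, add_zero] at h1
    exact h1
  · rw [add_sub_cancel_left]
    exact IsD.smul hD (-1)
  · intro x hx
    have h1 : extF p (extDeriv b₁) x = 0 := by
      refine LG.extF_zero p _ hD0 ?_
      rintro ⟨z, hz, hzx⟩
      refine hx ?_
      rw [← hzx, ← he]
      exact (hRV (hcb hz)).2
    show σ x + (-1 : ℝ) • extF p (extDeriv b₁) x = σ x
    rw [h1, smul_zero, add_zero]
  · rw [mem_preimage, ← hc]
    exact mem_ball_self (by linarith)
  · rintro x ⟨hxs, hxb⟩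
    rw [mem_preimage] at hxb
    have h1 : b₁ =ᶠ[𝓝 (e x)] b := by
      filter_upwards [isOpen_ball.mem_nhds hxb] with y hy
      have h2 : χ y = 1 := χ.one_of_mem_closedBall (ball_subset_closedBall hy)
      rw [hb₁]
      simp only [h2, one_smul]
    have h2 : e x ∈ ball c R := ball_subset_ball (by linarith) hxb
    have h3 : extF p (extDeriv b₁) x = σ x := by
      refine NearZ.ext_pb p σ _ (by rw [← he]; exact hxs) ?_
      rw [← he, h1.extDeriv_eq, hbd _ h2, ← he]
    show σ x + (-1 : ℝ) • extF p (extDeriv b₁) x = 0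
    rw [h3]
    ext v
    show σ x v + (-1 : ℝ) * σ x v = 0
    ring

/-- A finite set.

Proof.  Induction on the finite set `P` (`Set.Finite.induction_on`): given `s` for `P`, vanishing on
`O ⊇ P`, and `p ∉ P`, apply `zero_point` to `s` and `p` with `W = (a closed neighbourhood of P in O)ᶜ`, or
simpler with an open `W ∋ p` and an open set `O' ⊇ P`, `O' ⊆ O`, disjoint from `W` (finite sets in T2
spaces can be separated).  `InClass` is transitive (`LG.InClass.trans`). -/
theorem zero_near [T2Space X] {σ : Form d X 2} (hσ : IsSmooth σ) (hcl : IsClosedForm σ)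
    {P : Set X} (hP : P.Finite) : ∃ s : Form d X 2, InClass σ s ∧
      ∃ O : Set X, IsOpen O ∧ P ⊆ O ∧ ∀ x ∈ O, s x = 0 := by
  induction P, hP using Set.Finite.induction_on with
  | empty =>
    exact ⟨σ, NearZ.inClass_self hσ hcl, ∅, isOpen_empty, Subset.rfl, fun x hx => absurd hx (by simp)⟩
  | @insert p P hpP hP ih =>
    obtain ⟨s, hs, O, hO, hPO, hO0⟩ := ih
    obtain ⟨U, V, hU, hV, hPU, hpV, hUV⟩ := SeparatedNhds.of_isCompact_isCompact
      hP.isCompact (isCompact_singleton (x := p)) (disjoint_singleton_right.2 hpP)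
    obtain ⟨s', hs', hs'W, O₁, hO₁, hpO₁, hO₁0⟩ := zero_point hs.1 hs.2.1 p hV
      (singleton_subset_iff.1 hpV)
    refine ⟨s', hs.trans hs', (U ∩ O) ∪ O₁, (hU.inter hO).union hO₁, ?_, ?_⟩
    · intro x hx
      rcases hx with rfl | hx
      · exact Or.inr hpO₁
      · exact Or.inl ⟨hPU hx, hPO hx⟩
    · rintro x (⟨hxU, hxO⟩ | hx)
      · rw [hs'W x (fun h => Set.disjoint_left.1 hUV hxU h)]
        exact hO0 x hxO
      · exact hO₁0 x hx

end Pool.Agent.H819.NC
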