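import Mathlib
import Pool.Agent.H819.NC.Def
import Pool.Agent.H819.BC.Poinc

/-!
# Moving the area away from a point of the plane
-/

set_option autoImplicit false

open Set Filter Topology MeasureTheory Metric
open scoped Manifold ContDiff ENNReal NNReal

noncomputable section

namespace Pool.Agent.H819.NC

open Pool.Agent.Y501.SY
open Pool.Agent.H819

namespace Planex

open Pool.Agent.Y431.SY (ev ev_apply)
open Pool.Agent.Y891.SY (contDiffAt_extDeriv)
open Pool.Agent.H819.BC (pk pk_smooth pk_apply ext_pk)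

/-- one-forms as linear forms -/
def L1 : ((E 2) [⋀^Fin 1]→L[ℝ] ℝ) →L[ℝ] (E 2 →L[ℝ] ℝ) :=
  LinearMap.mkContinuous
    { toFun := fun f => (ContinuousAlternatingMap.ofSubsingleton ℝ (E 2) ℝ (0 : Fin 1)).symm f
      map_add' := fun f g => by ext v; rfl
      map_smul' := fun c f => by ext v; rfl } 1 (fun f => by
        rw [one_mul]
        refine ContinuousLinearMap.opNorm_le_bound _ (norm_nonneg f) fun v => ?_
        have h := f.le_opNorm (fun _ => v)
        rw [Fin.prod_univ_one] at h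
        exact h)

theorem L1_apply (f : (E 2) [⋀^Fin 1]→L[ℝ] ℝ) (v : E 2) : L1 f v = f ![v] := by
  have h : (![v] : Fin 1 → E 2) = fun _ => v := by
    funext i
    rw [Subsingleton.elim i 0]
    rfl
  rw [h]
  rfl

/-- linear forms as one-forms -/
def M1 : (E 2 →L[ℝ] ℝ) →L[ℝ] ((E 2) [⋀^Fin 1]→L[ℝ] ℝ) :=
  LinearMap.mkContinuous
    { toFun := fun f => ContinuousAlternatingMap.ofSubsingleton ℝ (E 2) ℝ (0 : Fin 1) f
      map_add' := fun f g => by ext v; rfl
      map_smul' := fun c f => by ext v; rfl } 1 (fun f => by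
        rw [one_mul]
        refine ContinuousAlternatingMap.opNorm_le_bound _ (norm_nonneg f) fun v => ?_
        rw [Fin.prod_univ_one]
        exact f.le_opNorm (v 0))

theorem M1_apply (f : E 2 →L[ℝ] ℝ) (v : E 2) : M1 f ![v] = f v := rfl

/-- the standard basis -/
def bas : Module.Basis (Fin 2) ℝ (E 2) := (EuclideanSpace.basisFun (Fin 2) ℝ).toBasis

/-- two-forms of the plane -/
theorem two_form (α : (E 2) [⋀^Fin 2]→L[ℝ] ℝ) (v : Fin 2 → E 2) :
    α v = α bas * (v 0 0 * v 1 1 - v 1 0 * v 0 1) := by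
  have h1 := AlternatingMap.eq_smul_basis_det bas α.toAlternatingMap
  have h2 : α v = α bas * bas.det v := by
    have h3 := congrArg (fun f : (E 2) [⋀^Fin 2]→ₗ[ℝ] ℝ => f v) h1
    exact h3
  rw [h2, Module.Basis.det_apply, Matrix.det_fin_two]
  rfl

theorem two_le : minSmoothness ℝ 2 ≤ ((⊤ : ℕ∞) : WithTop ℕ∞) := by
  simp only [minSmoothness_of_isRCLikeNormedField]
  have h : ((2 : ℕ∞) : WithTop ℕ∞) ≤ ((⊤ : ℕ∞) : WithTop ℕ∞) := WithTop.coe_le_coe.2 le_top
  exact h

theorem smooth_ext {b : E 2 → (E 2) [⋀^Fin 1]→L[ℝ] ℝ} (hb : ContDiff ℝ ∞ b) :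
    ContDiff ℝ ∞ (extDeriv b) :=
  contDiff_iff_contDiffAt.2 fun _ => contDiffAt_extDeriv hb.contDiffAt

theorem ext_one {b : E 2 → (E 2) [⋀^Fin 1]→L[ℝ] ℝ} {b' : E 2 →L[ℝ] (E 2) [⋀^Fin 1]→L[ℝ] ℝ}
    {z : E 2} (hb : HasFDerivAt b b' z) (v : Fin 2 → E 2) :
    extDeriv b z v = b' (v 0) ![v 1] - b' (v 1) ![v 0] := by
  rw [extDeriv_apply hb.differentiableAt, Fin.sum_univ_two]
  have e0 : Fin.removeNth 0 v = ![v 1] := by
    funext i; fin_cases i; rfl
  have e1 : Fin.removeNth 1 v = ![v 0] := by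
    funext i; fin_cases i; rfl
  rw [e0, e1]
  have hfd : ∀ w u : E 2, fderiv ℝ (fun z => b z ![w]) z u = b' u ![w] := by
    intro w u
    have h1 : HasFDerivAt (fun z => b z ![w]) ((ev (![w] : Fin 1 → E 2)).comp b') z :=
      (ev (![w] : Fin 1 → E 2)).hasFDerivAt.comp z hb
    rw [h1.fderiv]
    rfl
  simp only [Fin.val_zero, pow_zero, one_smul, Fin.val_one, pow_one, neg_smul, hfd]
  ring

theorem exists_prim {b : E 2 → (E 2) [⋀^Fin 1]→L[ℝ] ℝ} (hb : ContDiff ℝ ∞ b) (c : E 2) :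
    ∃ f : E 2 → ℝ, ContDiff ℝ ∞ f ∧ ∀ z, HasFDerivAt f (L1 (b z - pk (extDeriv b) c z)) z := by
  have ha : ContDiff ℝ ∞ (extDeriv b) := smooth_ext hb
  have hp : ContDiff ℝ ∞ (pk (extDeriv b) c) := pk_smooth ha c
  have hg : ContDiff ℝ ∞ (fun z => b z - pk (extDeriv b) c z) := hb.sub hp
  have hω : ContDiff ℝ ∞ (fun z => L1 (b z - pk (extDeriv b) c z)) := L1.contDiff.comp hg
  have hext : ∀ z, extDeriv (pk (extDeriv b) c) z = extDeriv b z := by
    intro z
    refine ext_pk ha c z fun t _ => ?_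
    have h1 := extDeriv_extDeriv (𝕜 := ℝ) (r := ∞) hb two_le
    rw [h1]
    rfl
  obtain ⟨f, hf⟩ := (convex_univ (𝕜 := ℝ) (E := E 2)).exists_forall_hasFDerivAt_of_fderiv_symmetric
    isOpen_univ (hω.differentiable (by simp)).differentiableOn (by
      intro z _ x y
      have h1 : HasFDerivAt b (fderiv ℝ b z) z := (hb.differentiable (by simp) z).hasFDerivAt
      have h2 : HasFDerivAt (pk (extDeriv b) c) (fderiv ℝ (pk (extDeriv b) c) z) z :=
        (hp.differentiable (by simp) z).hasFDerivAt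
      have h3 := L1.hasFDerivAt.comp z (h1.sub h2)
      have h4 : fderiv ℝ (fun z => L1 (b z - pk (extDeriv b) c z)) z =
          L1.comp (fderiv ℝ b z - fderiv ℝ (pk (extDeriv b) c) z) := h3.fderiv
      rw [h4]
      have h5 := ext_one h1 ![x, y]
      have h6 := ext_one h2 ![x, y]
      rw [hext z, h5] at h6
      have h7 : ∀ u w : E 2, (L1.comp (fderiv ℝ b z - fderiv ℝ (pk (extDeriv b) c) z)) u w =
          fderiv ℝ b z u ![w] - fderiv ℝ (pk (extDeriv b) c) z u ![w] := by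
        intro u w
        exact L1_apply _ w
      rw [h7, h7]
      simp only [Matrix.cons_val_zero, Matrix.cons_val_one] at h6
      linarith)
  refine ⟨f, ?_, fun z => hf z (mem_univ z)⟩
  rw [contDiff_infty_iff_fderiv]
  refine ⟨fun z => (hf z (mem_univ z)).differentiableAt, ?_⟩
  have h1 : fderiv ℝ f = fun z => L1 (b z - pk (extDeriv b) c z) := by
    funext z
    exact (hf z (mem_univ z)).fderiv
  rw [h1]
  exact hω

theorem ext_cut {b : E 2 → (E 2) [⋀^Fin 1]→L[ℝ] ℝ} (hb : ContDiff ℝ ∞ b) (c : E 2)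
    {f χ : E 2 → ℝ} (hχ : ContDiff ℝ ∞ χ)
    (hf : ∀ z, HasFDerivAt f (L1 (b z - pk (extDeriv b) c z)) z) (z : E 2) (v : Fin 2 → E 2) :
    extDeriv (fun z => χ z • b z + f z • M1 (fderiv ℝ χ z)) z v = χ z * extDeriv b z v +
      (fderiv ℝ χ z (v 0) * pk (extDeriv b) c z ![v 1] -
        fderiv ℝ χ z (v 1) * pk (extDeriv b) c z ![v 0]) := by
  have h1 : HasFDerivAt b (fderiv ℝ b z) z := (hb.differentiable (by simp) z).hasFDerivAt
  have h2 : HasFDerivAt χ (fderiv ℝ χ z) z := (hχ.differentiable (by simp) z).hasFDerivAt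
  have hdχ : ContDiff ℝ ∞ (fderiv ℝ χ) := hχ.fderiv_right (m := ∞) (by simp)
  have h3 : HasFDerivAt (fderiv ℝ χ) (fderiv ℝ (fderiv ℝ χ) z) z :=
    (hdχ.differentiable (by simp) z).hasFDerivAt
  have h4 := M1.hasFDerivAt.comp z h3
  have h5 := (h2.smul h1).add ((hf z).smul h4)
  have h6 := ext_one h5 v
  have hsym : fderiv ℝ (fderiv ℝ χ) z (v 0) (v 1) = fderiv ℝ (fderiv ℝ χ) z (v 1) (v 0) :=
    (hχ.contDiffAt.isSymmSndFDerivAt two_le).eq (v 0) (v 1)
  have h7 := ext_one h1 v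
  have h8 : ∀ u w : E 2, (χ z • fderiv ℝ b z + (fderiv ℝ χ z).smulRight (b z) +
      (f z • M1.comp (fderiv ℝ (fderiv ℝ χ) z) +
        (L1 (b z - pk (extDeriv b) c z)).smulRight ((M1 ∘ fderiv ℝ χ) z))) u ![w] =
      χ z * fderiv ℝ b z u ![w] + fderiv ℝ χ z u * b z ![w] +
        (f z * fderiv ℝ (fderiv ℝ χ) z u w +
          (b z ![u] - pk (extDeriv b) c z ![u]) * fderiv ℝ χ z w) := by
    intro u w
    have h9 : L1 (b z - pk (extDeriv b) c z) u = b z ![u] - pk (extDeriv b) c z ![u] :=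
      L1_apply _ u
    rw [← h9]
    rfl
  rw [h8, h8, hsym] at h6
  refine Eq.trans h6 ?_
  rw [h7]
  ring

/-- the cut-off function -/
def S (r : ℝ) (x : ℝ) : ℝ := Real.smoothTransition (4 * x / r ^ 2 - 1)

theorem S_smooth (r : ℝ) : ContDiff ℝ ∞ (S r) :=
  Real.smoothTransition.contDiff.comp (by fun_prop)

theorem S_mono (r : ℝ) : Monotone (S r) := by
  intro a b h
  refine Real.smoothTransition.monotone ?_
  have h1 : 4 * a / r ^ 2 ≤ 4 * b / r ^ 2 := by
    gcongr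
  linarith

/-- the cut-off function in the plane -/
def chi (c : E 2) (r : ℝ) (z : E 2) : ℝ := S r (‖z - c‖ ^ 2)

theorem chi_smooth (c : E 2) (r : ℝ) : ContDiff ℝ ∞ (chi c r) :=
  (S_smooth r).comp ((contDiff_id.sub contDiff_const).norm_sq ℝ)

theorem chi_fderiv (c : E 2) (r : ℝ) (z u : E 2) :
    fderiv ℝ (chi c r) z u = 2 * deriv (S r) (‖z - c‖ ^ 2) * inner ℝ (z - c) u := by
  have h0 : HasFDerivAt (fun x : E 2 => x - c) (ContinuousLinearMap.id ℝ (E 2)) z :=
    (hasFDerivAt_id z).sub_const c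
  have h1 := (hasStrictFDerivAt_norm_sq (z - c)).hasFDerivAt.comp z h0
  have h2 : HasDerivAt (S r) (deriv (S r) (‖z - c‖ ^ 2)) (‖z - c‖ ^ 2) :=
    ((S_smooth r).differentiable (by simp) _).hasDerivAt
  have h3 := h2.comp_hasFDerivAt z h1
  have h4 : fderiv ℝ (chi c r) z = deriv (S r) (‖z - c‖ ^ 2) •
      ((2 • innerSL ℝ (z - c)).comp (ContinuousLinearMap.id ℝ (E 2))) := h3.fderiv
  rw [h4]
  show deriv (S r) (‖z - c‖ ^ 2) * ((2 : ℕ) • (inner ℝ (z - c) u)) = _
  rw [nsmul_eq_mul]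
  push_cast
  ring

theorem chi_zero {c : E 2} {r : ℝ} (hr : 0 < r) {z : E 2} (h : dist z c < r / 2) :
    chi c r z = 0 := by
  refine Real.smoothTransition.zero_of_nonpos ?_
  rw [dist_eq_norm] at h
  have h1 : ‖z - c‖ ^ 2 ≤ (r / 2) ^ 2 := by
    have := norm_nonneg (z - c)
    gcongr
  have h2 : 4 * ‖z - c‖ ^ 2 / r ^ 2 ≤ 1 := by
    rw [div_le_one (by positivity)]
    nlinarith
  linarith

theorem chi_one {c : E 2} {r : ℝ} (hr : 0 < r) {z : E 2} (h : 3 / 4 * r < dist z c) :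
    chi c r z = 1 := by
  refine Real.smoothTransition.one_of_one_le ?_
  rw [dist_eq_norm] at h
  have h1 : (3 / 4 * r) ^ 2 ≤ ‖z - c‖ ^ 2 := by
    gcongr
  have h2 : 2 ≤ 4 * ‖z - c‖ ^ 2 / r ^ 2 := by
    rw [le_div_iff₀ (by positivity)]
    nlinarith [sq_nonneg r]
  linarith

theorem chi_nonneg (c : E 2) (r : ℝ) (z : E 2) : 0 ≤ chi c r z :=
  Real.smoothTransition.nonneg _

theorem plane_id (y u w : E 2) :
    inner ℝ y u * (y 0 * w 1 - w 0 * y 1) - inner ℝ y w * (y 0 * u 1 - u 0 * y 1) =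
      ‖y‖ ^ 2 * (u 0 * w 1 - w 0 * u 1) := by
  rw [EuclideanSpace.real_norm_sq_eq, PiLp.inner_apply, PiLp.inner_apply]
  simp only [Fin.sum_univ_two, RCLike.inner_apply, conj_trivial]
  ring

theorem pk_val {b : E 2 → (E 2) [⋀^Fin 1]→L[ℝ] ℝ} (hb : ContDiff ℝ ∞ b) (c z w : E 2) :
    pk (extDeriv b) c z ![w] = (∫ t in Icc (0 : ℝ) 1, t * extDeriv b (c + t • (z - c)) bas) *
      ((z - c) 0 * w 1 - w 0 * (z - c) 1) := by
  rw [pk_apply (smooth_ext hb), ← integral_mul_const]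
  refine integral_congr_ae (Filter.Eventually.of_forall fun t => ?_)
  show t * extDeriv b (c + t • (z - c)) (Matrix.vecCons (z - c) ![w]) = _
  rw [two_form _ (Matrix.vecCons (z - c) ![w])]
  show _ = t * extDeriv b (c + t • (z - c)) bas * ((z - c) 0 * w 1 - w 0 * (z - c) 1)
  rw [mul_assoc]
  rfl

theorem sign {g : E 2 → ℝ} {c : E 2} {ρ : ℝ} (hg : ContinuousOn g (ball c ρ))
    (h0 : ∀ z ∈ ball c ρ, g z ≠ 0) {x y : E 2} (hx : x ∈ ball c ρ) (hy : y ∈ ball c ρ) :
    0 ≤ g x * g y := by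
  by_contra h
  have h1 : g x * g y < 0 := not_le.1 h
  have hc : IsPreconnected (ball c ρ) := (convex_ball c ρ).isPreconnected
  rcases mul_neg_iff.1 h1 with ⟨h2, h3⟩ | ⟨h2, h3⟩
  · obtain ⟨z, hz, hz0⟩ := hc.intermediate_value hy hx hg ⟨h3.le, h2.le⟩
    exact h0 z hz hz0
  · obtain ⟨z, hz, hz0⟩ := hc.intermediate_value hx hy hg ⟨h2.le, h3.le⟩
    exact h0 z hz hz0

theorem main_id {b : E 2 → (E 2) [⋀^Fin 1]→L[ℝ] ℝ} (hb : ContDiff ℝ ∞ b) (c : E 2) (r : ℝ)
    {f : E 2 → ℝ} (hf : ∀ z, HasFDerivAt f (L1 (b z - pk (extDeriv b) c z)) z) (z : E 2)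
    (h0 : extDeriv b z bas ≠ 0) :
    extDeriv (fun z => chi c r z • b z + f z • M1 (fderiv ℝ (chi c r) z)) z =
      (chi c r z + 2 * deriv (S r) (‖z - c‖ ^ 2) * ‖z - c‖ ^ 2 *
        ((∫ t in Icc (0 : ℝ) 1, t * extDeriv b (c + t • (z - c)) bas) / extDeriv b z bas)) •
        extDeriv b z := by
  ext v
  rw [ext_cut hb c (chi_smooth c r) hf, pk_val hb, pk_val hb, chi_fderiv, chi_fderiv,
    ContinuousAlternatingMap.smul_apply, smul_eq_mul, two_form (extDeriv b z) v]
  have h1 := plane_id (z - c) (v 0) (v 1)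
  set I := ∫ t in Icc (0 : ℝ) 1, t * extDeriv b (c + t • (z - c)) bas
  set g := extDeriv b z bas
  set D := deriv (S r) (‖z - c‖ ^ 2)
  have h2 : (chi c r z + 2 * D * ‖z - c‖ ^ 2 * (I / g)) * (g * (v 0 0 * v 1 1 - v 1 0 * v 0 1)) =
      chi c r z * (g * (v 0 0 * v 1 1 - v 1 0 * v 0 1)) +
        2 * D * I * (‖z - c‖ ^ 2 * (v 0 0 * v 1 1 - v 1 0 * v 0 1)) := by
    field_simp
  rw [h2, ← h1]
  ring

end Planex

open Planex in
/-- **The plane.**

Proof.  We may take `c = 0` in the formulas.  Let `a = extDeriv β` on the ball, a smooth two-form without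
zeros.  Define for `z` in the ball the one-forms (homotopy operators)
`δ₀ z u = ∫ t in 0..1, t * a (c + t (z - c)) ![z - c, u]` and the function
`f z = ∫ t in 0..1, (β (c + t (z - c)) ![z - c])`.  Then (Poincaré) `β = δ₀ + df`: this is the homotopy formula for
the one-form `β` (differentiate under the integral sign; `a (z)(u, v) = Dβ z u v - Dβ z v u`; smoothness by
`contDiff_of_...` for parametric integrals; compare `Pool/Agent/H819/BC/Poinc.lean`,
`Pool/Agent/H819/LG/Prim.lean`, `Pool/Agent/H819/PU/LocPot.lean` on origin/main).  So `δ₀ = β - df` is smooth and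
`extDeriv δ₀ = a`.  Let `χ z = s (‖z - c‖²)` with a smooth nondecreasing function `s : ℝ → [0, 1]`
(`Real.smoothTransition` of an affine function) which vanishes near `[0, r² / 4]` and is `1` on
`[r² / 2, ∞)`.  Put `δ = χ • δ₀ + d(χ f) = χ • δ₀ + χ • df + f • dχ`.  For `dist z c ≥ r`: `χ = 1` near `z`, so
`δ z = δ₀ z + df z = β z`; near `c`: `δ = 0`.  `extDeriv δ z = χ z • a z + (dχ z) ∧ (δ₀ z)`, where
`(dχ ∧ δ₀)(u, v) = dχ u δ₀ v - dχ v δ₀ u`.  Now write `a z = g z • vol` with the standard area form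
`vol(u, v) = u 0 * v 1 - u 1 * v 0` (two-forms on `E 2` are multiples of it), `g` continuous without zeros, so of
constant sign on the ball (connected).  `dχ z u = 2 s'(‖z - c‖²) ⟪z - c, u⟫` and
`δ₀ z v = G z * vol (z - c, v)` with `G z = ∫ t in 0..1, t * g (c + t (z - c))`, which has the sign of `g`; and
`⟪y, u⟫ vol (y, v) - ⟪y, v⟫ vol (y, u) = ‖y‖² vol (u, v)` in the plane.  So
`extDeriv δ z = (χ z + 2 s' ‖z - c‖² G z / g z) • a z`, and the factor is `≥ 0`.  For `dist z c ≥ r` the last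
assertion is clear from the first one (or `t = 1`). -/
theorem plane_cut {c : E 2} {R r : ℝ} (hr : 0 < r) (hrR : r < R)
    {β : E 2 → (E 2) [⋀^Fin 1]→L[ℝ] ℝ} (hβ : ContDiffOn ℝ ∞ β (ball c R))
    (ha : ∀ z ∈ ball c R, extDeriv β z ≠ 0) :
    ∃ δ : E 2 → (E 2) [⋀^Fin 1]→L[ℝ] ℝ, ContDiffOn ℝ ∞ δ (ball c R) ∧
      (∀ z ∈ ball c R, r ≤ dist z c → δ z = β z) ∧ (∀ᶠ z in 𝓝 c, δ z = 0) ∧
      ∀ z ∈ ball c R, ∃ t : ℝ, 0 ≤ t ∧ extDeriv δ z = t • extDeriv β z := by
  have hsub : closedBall c r ⊆ ball c R := closedBall_subset_ball hrR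
  obtain ⟨ρ, b, hρ, hb, hbR, hbβ⟩ := Pool.Agent.Y431.SY.exists_ext isOpen_ball hβ hr hsub
  obtain ⟨f, hfs, hf⟩ := exists_prim hb c
  obtain ⟨δ', hδ'⟩ : ∃ δ' : E 2 → (E 2) [⋀^Fin 1]→L[ℝ] ℝ,
      δ' = fun z => chi c r z • b z + f z • M1 (fderiv ℝ (chi c r) z) := ⟨_, rfl⟩
  have hδs : ContDiff ℝ ∞ δ' := by
    rw [hδ']
    exact ((chi_smooth c r).smul hb).add (hfs.smul
      (M1.contDiff.comp ((chi_smooth c r).fderiv_right (m := ∞) (by simp))))
  -- where the cut-off function is locally constant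
  have hone : ∀ z : E 2, 3 / 4 * r < dist z c → δ' z = b z := by
    intro z hz
    have h1 : chi c r =ᶠ[𝓝 z] fun _ => (1 : ℝ) := by
      have h2 : ∀ᶠ x in 𝓝 z, 3 / 4 * r < dist x c :=
        (continuous_id.dist continuous_const).continuousAt.eventually_const_lt hz
      filter_upwards [h2] with x hx
      exact chi_one hr hx
    have h2 : fderiv ℝ (chi c r) z = 0 := by
      rw [h1.fderiv_eq]
      simp
    rw [hδ']
    simp only
    rw [chi_one hr hz, h2, map_zero, smul_zero, add_zero, one_smul]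
  have hzero : ∀ z : E 2, dist z c < r / 2 → δ' z = 0 := by
    intro z hz
    have h1 : chi c r =ᶠ[𝓝 z] fun _ => (0 : ℝ) := by
      have h2 : ∀ᶠ x in 𝓝 z, dist x c < r / 2 :=
        (continuous_id.dist continuous_const).continuousAt.eventually_lt_const hz
      filter_upwards [h2] with x hx
      exact chi_zero hr hx
    have h2 : fderiv ℝ (chi c r) z = 0 := by
      rw [h1.fderiv_eq]
      simp
    rw [hδ']
    simp only
    rw [chi_zero hr hz, h2, map_zero, smul_zero, add_zero, zero_smul]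
  obtain ⟨δ, hδ⟩ : ∃ δ : E 2 → (E 2) [⋀^Fin 1]→L[ℝ] ℝ,
      δ = fun z => letI := Classical.propDecidable (dist z c < r); if dist z c < r then δ' z else β z :=
    ⟨_, rfl⟩
  have hδ1 : ∀ z, dist z c < r → δ z = δ' z := by
    intro z hz
    rw [hδ]
    exact if_pos hz
  have hδ2 : ∀ z, r ≤ dist z c → δ z = β z := by
    intro z hz
    rw [hδ]
    exact if_neg (not_lt.2 hz)
  have hA : ∀ z ∈ ball c (r + ρ), δ =ᶠ[𝓝 z] δ' := by
    intro z hz
    filter_upwards [isOpen_ball.mem_nhds hz] with x hx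
    rcases lt_or_ge (dist x c) r with h | h
    · exact hδ1 x h
    · rw [hδ2 x h, hone x (by linarith), hbβ x hx]
  have hB : ∀ z, z ∉ ball c (r + ρ) → δ =ᶠ[𝓝 z] β := by
    intro z hz
    rw [mem_ball, not_lt] at hz
    have h2 : ∀ᶠ x in 𝓝 z, r < dist x c :=
      (continuous_id.dist continuous_const).continuousAt.eventually_const_lt
        (show r < dist z c by linarith)
    filter_upwards [h2] with x hx
    exact hδ2 x hx.le
  have hext : ∀ z ∈ ball c (r + ρ), extDeriv b z = extDeriv β z := by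
    intro z hz
    have h1 : b =ᶠ[𝓝 z] β := by
      filter_upwards [isOpen_ball.mem_nhds hz] with x hx
      exact hbβ x hx
    exact h1.extDeriv_eq
  have hg0 : ∀ z ∈ ball c (r + ρ), extDeriv b z bas ≠ 0 := by
    intro z hz h
    apply ha z (hbR hz)
    rw [← hext z hz]
    ext v
    rw [two_form, h, zero_mul]
    rfl
  have hgc : Continuous (fun z => extDeriv b z bas) :=
    (Pool.Agent.Y431.SY.ev (bas : Fin 2 → E 2)).continuous.comp (smooth_ext hb).continuous
  refine ⟨δ, ?_, fun z _ hz => hδ2 z hz, ?_, ?_⟩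
  · intro z hz
    by_cases h : z ∈ ball c (r + ρ)
    · exact (hδs.contDiffAt.congr_of_eventuallyEq (hA z h)).contDiffWithinAt
    · exact ((hβ.contDiffAt (isOpen_ball.mem_nhds hz)).congr_of_eventuallyEq (hB z h)).contDiffWithinAt
  · have h1 : ∀ᶠ z in 𝓝 c, z ∈ ball c (r / 2) := ball_mem_nhds c (by positivity)
    filter_upwards [h1] with z hz
    rw [mem_ball] at hz
    rw [hδ1 z (by linarith), hzero z hz]
  · intro z hz
    by_cases h : z ∈ ball c (r + ρ)
    · have h1 := main_id hb c r hf z (hg0 z h)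
      rw [← hδ', ← (hA z h).extDeriv_eq, hext z h] at h1
      refine ⟨_, ?_, h1⟩
      have h2 : 0 ≤ (∫ t in Icc (0 : ℝ) 1, t * extDeriv b (c + t • (z - c)) bas) * extDeriv b z bas := by
        rw [← integral_mul_const]
        refine setIntegral_nonneg measurableSet_Icc fun t ht => ?_
        have h3 : c + t • (z - c) ∈ ball c (r + ρ) := by
          rw [mem_ball, dist_eq_norm]
          have h4 : c + t • (z - c) - c = t • (z - c) := by abel
          rw [h4, norm_smul, Real.norm_eq_abs, abs_of_nonneg ht.1]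
          rw [mem_ball, dist_eq_norm] at h
          calc t * ‖z - c‖ ≤ 1 * ‖z - c‖ := by
                have := ht.2
                gcongr
            _ < r + ρ := by rw [one_mul]; exact h
        have h5 := sign hgc.continuousOn hg0 h3 h
        rw [mul_assoc]
        exact mul_nonneg ht.1 h5
      have h3 : 0 ≤ (∫ t in Icc (0 : ℝ) 1, t * extDeriv b (c + t • (z - c)) bas) /
          extDeriv b z bas := by
        rcases lt_or_gt_of_ne (hg0 z h) with h4 | h4
        · exact div_nonneg_of_nonpos (nonpos_of_mul_nonneg_left h2 h4) h4.le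
        · exact div_nonneg (nonneg_of_mul_nonneg_left h2 h4) h4.le
      rw [hext z h] at h3
      have h4 : 0 ≤ deriv (S r) (‖z - c‖ ^ 2) := (S_mono r).deriv_nonneg
      have h5 := chi_nonneg c r z
      have h6 : 0 ≤ 2 * deriv (S r) (‖z - c‖ ^ 2) * ‖z - c‖ ^ 2 := by positivity
      exact add_nonneg h5 (mul_nonneg h6 h3)
    · exact ⟨1, zero_le_one, by rw [(hB z h).extDeriv_eq, one_smul]⟩

end Pool.Agent.H819.NC
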