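import Mathlib
import Pool.Agent.H819.NC.Plane
import Pool.Agent.H819.LG.Ext

/-!
# Moving the area away from a finite subset of a surface
-/

set_option autoImplicit false

open Set Filter Topology MeasureTheory Metric
open scoped Manifold ContDiff ENNReal NNReal

noncomputable section

namespace Pool.Agent.H819.NC

open Pool.Agent.Y501.SY
open Pool.Agent.H819

variable {S : Type} [TopologicalSpace S] [ChartedSpace (E 2) S] [IsManifold (𝓡 2) ∞ S]

namespace RPt

theorem extDeriv_sub' {k : ℕ} {a b : E 2 → (E 2) [⋀^Fin k]→L[ℝ] ℝ} {z : E 2}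
    (ha : DifferentiableAt ℝ a z) (hb : DifferentiableAt ℝ b z) :
    extDeriv (fun y => a y - b y) z = extDeriv a z - extDeriv b z := by
  have h1 : (fun y => a y - b y) = a + (-1 : ℝ) • b := by
    funext y
    ext v
    show a y v - b y v = a y v + (-1 : ℝ) * b y v
    ring
  rw [h1, extDeriv_add ha (hb.const_smul _), extDeriv_smul]
  ext v
  show extDeriv a z v + (-1 : ℝ) * extDeriv b z v = extDeriv a z v - extDeriv b z v
  ring

omit [IsManifold (𝓡 2) ∞ S] in
theorem pb_pair (σ : Form 2 S 2) {q : S} (z w w' : E 2)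
    {u : TangentSpace (𝓡 2) ((chartAt (E 2) q).symm z)}
    (hw' : Pool.Agent.Y455.SY.A q z w' = u) :
    pb (chartAt (E 2) q).symm σ z ![w, w'] =
      σ ((chartAt (E 2) q).symm z) ![Pool.Agent.Y455.SY.A q z w, u] := by
  subst hw'
  show σ ((chartAt (E 2) q).symm z) (fun i => Pool.Agent.Y455.SY.A q z ((![w, w'] : Fin 2 → E 2) i)) =
    σ ((chartAt (E 2) q).symm z) ![Pool.Agent.Y455.SY.A q z w, Pool.Agent.Y455.SY.A q z w']
  congr 1
  funext i
  fin_cases i <;> rfl

theorem eq_zero_of_pb {k : ℕ} (q : S) (σ : Form 2 S k) {z : E 2}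
    (hz : z ∈ (chartAt (E 2) q).target) (h : pb (chartAt (E 2) q).symm σ z = 0) :
    σ ((chartAt (E 2) q).symm z) = 0 := by
  ext v
  choose w hw using fun i => Pool.Agent.Y455.SY.A_surj q hz (v i)
  have h1 : pb (chartAt (E 2) q).symm σ z w = σ ((chartAt (E 2) q).symm z) v := by
    show σ ((chartAt (E 2) q).symm z) (fun i => Pool.Agent.Y455.SY.A q z (w i)) =
      σ ((chartAt (E 2) q).symm z) v
    congr 1
    funext i
    exact hw i
  rw [← h1, h]
  rfl

end RPt

/-- One point of the surface.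

Proof.  Let `c = chartAt q q` and `closedBall c R` in the target of the chart, its image in `W`.  Apply
`plane_cut` to `pb (chartAt q).symm β` (its exterior derivative is `pb (chartAt q).symm ξ`, by `IsD`, and it is
not zero because `0 < ξ x ![v, j x v]` for `v ≠ 0`) with `r = R / 2`, to get `δ`; `δ - pb (chartAt q).symm β`
vanishes for `dist z c ≥ r`, extend it by zero to a smooth `b : E 2 → _` with `b = 0` off
`closedBall c r =: Q`, and put `β' = β + extF q b`, `ξ' = ξ + extF q (extDeriv b)` (`LG.smooth_extF`,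
`LG.isD_extF`, `LG.extF_zero`, `LG.extF_symm`).  On `(chartAt q).symm '' ball c R`, in the chart `β'` is `δ`, and `ξ'`
is `extDeriv δ = t • ξ` with `t ≥ 0`; elsewhere `ξ' = ξ`, `β' = β`. -/
theorem rad_point [T2Space S] {j : End 2 S} {β : Form 2 S 1} {ξ : Form 2 S 2} (hβ : IsSmooth β)
    (hξ : IsSmooth ξ) (hd : IsD β ξ) (q : S) {W : Set S} (hW : IsOpen W) (hqW : q ∈ W)
    (hpos : ∀ x ∈ W, ∀ v : TangentSpace (𝓡 2) x, v ≠ 0 → 0 < ξ x ![v, j x v]) :
    ∃ (β' : Form 2 S 1) (ξ' : Form 2 S 2), IsSmooth β' ∧ IsSmooth ξ' ∧ IsD β' ξ' ∧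
      (∀ x, x ∉ W → β' x = β x ∧ ξ' x = ξ x) ∧
      (∃ O : Set S, IsOpen O ∧ q ∈ O ∧ ∀ x ∈ O, β' x = 0) ∧
      ∀ x ∈ W, ∀ v : TangentSpace (𝓡 2) x, 0 ≤ ξ' x ![v, j x v] := by
  classical
  set e := chartAt (E 2) q with he
  have hqs : q ∈ e.source := mem_chart_source (E 2) q
  set c := e q with hc
  have hct : c ∈ e.target := e.map_source hqs
  -- a ball in the chart
  have hTo : IsOpen (e.target ∩ e.symm ⁻¹' W) := e.isOpen_inter_preimage_symm hW
  have hcT : c ∈ e.target ∩ e.symm ⁻¹' W := by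
    refine ⟨hct, ?_⟩
    show e.symm (e q) ∈ W
    rw [e.left_inv hqs]
    exact hqW
  obtain ⟨R, hR, hRT⟩ := Metric.nhds_basis_closedBall.mem_iff.1 (hTo.mem_nhds hcT)
  have hbt : ∀ z ∈ ball c R, z ∈ e.target := fun z hz => (hRT (ball_subset_closedBall hz)).1
  have hbW : ∀ z ∈ ball c R, e.symm z ∈ W := fun z hz => (hRT (ball_subset_closedBall hz)).2
  have hsm : ∀ {k : ℕ} {σ : Form 2 S k}, IsSmooth σ → ContDiffOn ℝ ∞ (pb e.symm σ) e.target :=
    fun h => LG.smooth_chart h q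
  have hξc : ∀ z ∈ e.target, extDeriv (pb e.symm β) z = pb e.symm ξ z := fun z hz =>
    hd _ _ e.open_target contMDiffOn_chart_symm z hz
  -- the form in the chart does not vanish
  have hne : ∀ z ∈ ball c R, extDeriv (pb e.symm β) z ≠ 0 := by
    intro z hz h0
    have hzt := hbt z hz
    rw [hξc z hzt] at h0
    let w : E 2 := EuclideanSpace.single 0 1
    have hw : w ≠ 0 := by
      intro h
      have := congrArg (fun y : E 2 => y 0) h
      simp [w] at this
    have hv : (Pool.Agent.Y455.SY.A q z w : TangentSpace (𝓡 2) (e.symm z)) ≠ 0 := by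
      intro h
      have h1 := Pool.Agent.Y455.SY.BA q hzt w
      have h2 : Pool.Agent.Y455.SY.A q z w = 0 := h
      rw [h2, map_zero] at h1
      exact hw h1.symm
    obtain ⟨w', hw'⟩ := Pool.Agent.Y455.SY.A_surj q hzt (j (e.symm z) (Pool.Agent.Y455.SY.A q z w))
    have h3 := hpos (e.symm z) (hbW z hz) _ hv
    rw [← RPt.pb_pair ξ z w w' hw', h0] at h3
    exact lt_irrefl _ h3
  obtain ⟨δ, hδ, hδr, hδc, hδd⟩ := plane_cut (c := c) (R := R) (r := R / 2) (by linarith)
    (by linarith) ((hsm hβ).mono hbt) hne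
  -- the difference, extended by zero
  set b : E 2 → (E 2) [⋀^Fin 1]→L[ℝ] ℝ := fun z =>
    if z ∈ ball c R then δ z - pb e.symm β z else 0 with hbdef
  set Q : Set (E 2) := closedBall c (R / 2) with hQdef
  have hQ : IsCompact Q := isCompact_closedBall _ _
  have hQR : Q ⊆ ball c R := closedBall_subset_ball (by linarith)
  have hQt : Q ⊆ e.target := fun z hz => hbt z (hQR hz)
  have hb0 : ∀ z, z ∉ Q → b z = 0 := by
    intro z hz
    by_cases h : z ∈ ball c R
    · have h1 : R / 2 ≤ dist z c := by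
        have : ¬ dist z c ≤ R / 2 := hz
        linarith
      show (if z ∈ ball c R then δ z - pb e.symm β z else 0) = 0
      rw [if_pos h, hδr z h h1, sub_self]
    · exact if_neg h
  have hbev : ∀ z ∈ ball c R, b =ᶠ[𝓝 z] fun y => δ y - pb e.symm β y := by
    intro z hz
    filter_upwards [isOpen_ball.mem_nhds hz] with y hy
    exact if_pos hy
  have hβat : ∀ z ∈ ball c R, ContDiffAt ℝ ∞ (pb e.symm β) z := fun z hz =>
    (hsm hβ).contDiffAt (e.open_target.mem_nhds (hbt z hz))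
  have hδat : ∀ z ∈ ball c R, ContDiffAt ℝ ∞ δ z := fun z hz =>
    hδ.contDiffAt (isOpen_ball.mem_nhds hz)
  have hb : ContDiff ℝ ∞ b := by
    rw [contDiff_iff_contDiffAt]
    intro z
    by_cases h : z ∈ ball c R
    · exact ((hδat z h).sub (hβat z h)).congr_of_eventuallyEq (hbev z h)
    · have h1 : z ∉ Q := fun h' => h (hQR h')
      have h2 : b =ᶠ[𝓝 z] fun _ => 0 := by
        filter_upwards [hQ.isClosed.isOpen_compl.mem_nhds h1] with y hy
        exact hb0 y hy
      exact contDiffAt_const.congr_of_eventuallyEq h2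
  obtain ⟨hDx, hz0⟩ := LG.isD_extF (x₀ := q) hb hQ hQt hb0
  have hb2 : ContDiff ℝ ∞ (extDeriv b) := by
    rw [contDiff_iff_contDiffAt]
    intro z
    exact Pool.Agent.Y891.SY.contDiffAt_extDeriv hb.contDiffAt
  have hs1 : IsSmooth (LG.extF q b) := LG.smooth_extF hb hQ hQt hb0
  have hs2 : IsSmooth (LG.extF q (extDeriv b)) := LG.smooth_extF hb2 hQ hQt hz0
  have hQW : ∀ x ∈ e.symm '' Q, x ∈ W := by
    rintro _ ⟨z, hz, rfl⟩
    exact hbW z (hQR hz)
  refine ⟨β + LG.extF q b, ξ + LG.extF q (extDeriv b), hβ.add hs1, hξ.add hs2,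
    hd.add hDx hβ hs1, ?_, ?_, ?_⟩
  · intro x hx
    have hx' : x ∉ e.symm '' Q := fun h => hx (hQW x h)
    constructor
    · show β x + LG.extF q b x = β x
      rw [LG.extF_zero q b hb0 hx', add_zero]
    · show ξ x + LG.extF q (extDeriv b) x = ξ x
      rw [LG.extF_zero q (extDeriv b) hz0 hx', add_zero]
  · obtain ⟨ε, hε, hεδ⟩ := Metric.eventually_nhds_iff_ball.1
      (hδc.and (isOpen_ball.mem_nhds (mem_ball_self hR)))
    refine ⟨e.source ∩ e ⁻¹' ball c ε, e.isOpen_inter_preimage isOpen_ball,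
      ⟨hqs, mem_ball_self hε⟩, ?_⟩
    rintro x ⟨hxs, hxe⟩
    have hz := hεδ (e x) hxe
    have hzt : e x ∈ e.target := e.map_source hxs
    have h1 : pb e.symm (β + LG.extF q b) (e x) = 0 := by
      show pb e.symm β (e x) + pb e.symm (LG.extF q b) (e x) = 0
      rw [LG.extF_symm q b hzt]
      have h2 : b (e x) = δ (e x) - pb e.symm β (e x) := if_pos hz.2
      rw [h2, hz.1]
      abel
    have h3 := RPt.eq_zero_of_pb q (β + LG.extF q b) hzt h1
    rw [e.left_inv hxs] at h3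
    exact h3
  · intro x hx v
    have hnn : 0 ≤ ξ x ![v, j x v] := by
      by_cases hv : v = 0
      · rw [hv]
        have : ξ x ![(0 : TangentSpace (𝓡 2) x), j x 0] = 0 :=
          (ξ x).map_coord_zero 0 rfl
        rw [this]
      · exact (hpos x hx v hv).le
    by_cases hxQ : x ∈ e.symm '' Q
    · obtain ⟨z, hz, rfl⟩ := hxQ
      have hzb := hQR hz
      have hzt := hbt z hzb
      obtain ⟨w, hw⟩ := Pool.Agent.Y455.SY.A_surj q hzt v
      subst hw
      obtain ⟨w', hw'⟩ := Pool.Agent.Y455.SY.A_surj q hzt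
        (j (e.symm z) (Pool.Agent.Y455.SY.A q z w))
      rw [← RPt.pb_pair ξ z w w' hw'] at hnn
      rw [← RPt.pb_pair (ξ + LG.extF q (extDeriv b)) z w w' hw']
      have h1 : pb e.symm (ξ + LG.extF q (extDeriv b)) z = extDeriv δ z := by
        show pb e.symm ξ z + pb e.symm (LG.extF q (extDeriv b)) z = extDeriv δ z
        rw [LG.extF_symm q (extDeriv b) hzt, (hbev z hzb).extDeriv_eq,
          RPt.extDeriv_sub' ((hδat z hzb).differentiableAt (by simp))
            ((hβat z hzb).differentiableAt (by simp)), hξc z hzt]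
        abel
      obtain ⟨t, ht, htd⟩ := hδd z hzb
      rw [hξc z hzt] at htd
      rw [h1, htd]
      show 0 ≤ t * pb e.symm ξ z ![w, w']
      exact mul_nonneg ht hnn
    · have h1 : (ξ + LG.extF q (extDeriv b)) x = ξ x := by
        show ξ x + LG.extF q (extDeriv b) x = ξ x
        rw [LG.extF_zero q (extDeriv b) hz0 hxQ, add_zero]
      rw [h1]
      exact hnn

/-- A finite subset of the surface.

Proof.  The points of `Q` have pairwise disjoint open neighbourhoods `W q ⊆ W`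
(`Set.Finite.t2_separation`).  Induction over the finite set `Q`: for a finite subset `Q'` of `Q` there are
`β'`, `ξ'`, equal to `β`, `ξ` off `⋃ q ∈ Q', W q`, with `β' = 0` near the points of `Q'` and
`0 ≤ ξ' x ![v, j x v]` on `W`; the step applies `rad_point` with `W q`, `q ∉ Q'`. -/
theorem rad_finite [T2Space S] {j : End 2 S} {β : Form 2 S 1} {ξ : Form 2 S 2} (hβ : IsSmooth β)
    (hξ : IsSmooth ξ) (hd : IsD β ξ) {Q : Set S} (hQ : Q.Finite) {W : Set S} (hW : IsOpen W)
    (hQW : Q ⊆ W)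
    (hpos : ∀ x ∈ W, ∀ v : TangentSpace (𝓡 2) x, v ≠ 0 → 0 < ξ x ![v, j x v]) :
    ∃ (β' : Form 2 S 1) (ξ' : Form 2 S 2), IsSmooth β' ∧ IsSmooth ξ' ∧ IsD β' ξ' ∧
      (∀ x, x ∉ W → ξ' x = ξ x) ∧ (∃ O : Set S, IsOpen O ∧ Q ⊆ O ∧ ∀ x ∈ O, β' x = 0) ∧
      ∀ x ∈ W, ∀ v : TangentSpace (𝓡 2) x, 0 ≤ ξ' x ![v, j x v] := by
  classical
  obtain ⟨U, hU, hUd⟩ := hQ.t2_separation
  have hmain : ∀ Q' : Set S, Q' ⊆ Q → Q'.Finite →
      ∃ (β' : Form 2 S 1) (ξ' : Form 2 S 2), IsSmooth β' ∧ IsSmooth ξ' ∧ IsD β' ξ' ∧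
      (∀ x, x ∉ ⋃ p ∈ Q', (U p ∩ W) → β' x = β x ∧ ξ' x = ξ x) ∧
      (∃ O : Set S, IsOpen O ∧ Q' ⊆ O ∧ ∀ x ∈ O, β' x = 0) ∧
      ∀ x ∈ W, ∀ v : TangentSpace (𝓡 2) x, 0 ≤ ξ' x ![v, j x v] := by
    intro Q' hQ' hfin
    induction Q', hfin using Set.Finite.induction_on with
    | empty =>
      refine ⟨β, ξ, hβ, hξ, hd, fun x _ => ⟨rfl, rfl⟩, ⟨∅, isOpen_empty, le_rfl, ?_⟩, ?_⟩
      · intro x hx
        exact absurd hx (Set.notMem_empty x)
      · intro x hx v
        by_cases hv : v = 0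
        · rw [hv]
          have : ξ x ![(0 : TangentSpace (𝓡 2) x), j x 0] = 0 :=
            (ξ x).map_coord_zero 0 rfl
          rw [this]
        · exact (hpos x hx v hv).le
    | @insert q Q' hq hfin ih =>
      obtain ⟨β₁, ξ₁, hs1, hs2, hd1, heq, ⟨O, hO, hQO, hO0⟩, hnn⟩ :=
        ih fun p hp => hQ' (Set.mem_insert_of_mem q hp)
      have hqQ : q ∈ Q := hQ' (Set.mem_insert q Q')
      have hdis : ∀ p ∈ Q', ∀ x ∈ U q, x ∉ U p := by
        intro p hp x hx hx'
        have hpq : q ≠ p := by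
          rintro rfl
          exact hq hp
        have := hUd hqQ (hQ' (Set.mem_insert_of_mem q hp)) hpq
        exact Set.disjoint_left.1 this hx hx'
      have hnotin : ∀ x ∈ U q, x ∉ ⋃ p ∈ Q', (U p ∩ W) := by
        intro x hx hx'
        simp only [Set.mem_iUnion] at hx'
        obtain ⟨p, hp, hx''⟩ := hx'
        exact hdis p hp x hx hx''.1
      have hWq : IsOpen (U q ∩ W) := (hU q).2.inter hW
      obtain ⟨β₂, ξ₂, ht1, ht2, htd, hteq, ⟨O₂, hO₂, hqO₂, hO₂0⟩, htnn⟩ :=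
        rad_point (j := j) hs1 hs2 hd1 q hWq ⟨(hU q).1, hQW hqQ⟩ (by
          intro x hx v hv
          rw [(heq x (hnotin x hx.1)).2]
          exact hpos x hx.2 v hv)
      refine ⟨β₂, ξ₂, ht1, ht2, htd, ?_, ?_, ?_⟩
      · intro x hx
        rw [Set.biUnion_insert, Set.mem_union, not_or] at hx
        obtain ⟨h1, h2⟩ := hteq x hx.1
        obtain ⟨h3, h4⟩ := heq x hx.2
        exact ⟨h1.trans h3, h2.trans h4⟩
      · refine ⟨O₂ ∪ (O ∩ ⋃ p ∈ Q', U p), hO₂.union (hO.inter
          (isOpen_biUnion fun p _ => (hU p).2)), ?_, ?_⟩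
        · intro p hp
          rcases Set.mem_insert_iff.1 hp with rfl | hp
          · exact Or.inl hqO₂
          · exact Or.inr ⟨hQO hp, Set.mem_biUnion hp (hU p).1⟩
        · intro x hx
          rcases hx with hx | ⟨hx, hx'⟩
          · exact hO₂0 x hx
          · simp only [Set.mem_iUnion] at hx'
            obtain ⟨p, hp, hx''⟩ := hx'
            have h1 : x ∉ U q ∩ W := fun h => hdis p hp x h.1 hx''
            rw [(hteq x h1).1]
            exact hO0 x hx
      · intro x hx v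
        by_cases h : x ∈ U q ∩ W
        · exact htnn x h v
        · rw [(hteq x h).2]
          exact hnn x hx v
  obtain ⟨β', ξ', h1, h2, h3, h4, h5, h6⟩ := hmain Q le_rfl hQ
  refine ⟨β', ξ', h1, h2, h3, ?_, h5, h6⟩
  intro x hx
  refine (h4 x ?_).2
  intro h
  simp only [Set.mem_iUnion] at h
  obtain ⟨p, hp, h'⟩ := h
  exact hx h'.2

end Pool.Agent.H819.NC
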