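import Mathlib
import Pool.Agent.H819.NC.Pull
import Pool.Agent.H819.NC.ExtOne
import Pool.Agent.H819.NC.NearZ
import Pool.Agent.H819.NC.NearP
import Pool.Agent.H819.NC.RadPt
import Pool.Agent.H819.NC.Bound
import Pool.Agent.H819.NC.ExD

/-!
# A form in the class which is positive along a closed curve
-/

set_option autoImplicit false

open Set Filter Topology MeasureTheory Metric
open scoped Manifold ContDiff ENNReal NNReal

noncomputable section

namespace Pool.Agent.H819.NC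

open Pool.Agent.Y501.SY
open Pool.Agent.H819
open Pool.Agent.H819.LG (InClass)

variable {d : ℕ} {X : Type} [TopologicalSpace X] [ChartedSpace (E d) X] [IsManifold (𝓡 d) ∞ X]
  {S : Type} [TopologicalSpace S] [ChartedSpace (E 2) S] [IsManifold (𝓡 2) ∞ S]

namespace H628A

/-- the derivative of a derivative vanishes -/
theorem closed_D {d k : ℕ} {X : Type} [TopologicalSpace X] [ChartedSpace (E d) X] {ζ : Form d X k}
    {ξ : Form d X (k + 1)} (hζ : IsSmooth ζ) (h : IsD ζ ξ) : IsClosedForm ξ := by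
  intro U φ hU hφ p hp
  have h1 : pb φ ξ =ᶠ[𝓝 p] extDeriv (pb φ ζ) := by
    filter_upwards [hU.mem_nhds hp] with q hq
    exact (h U φ hU hφ q hq).symm
  rw [h1.extDeriv_eq, extDeriv_extDeriv_apply (r := ∞)
    ((hζ U φ hU hφ).contDiffAt (hU.mem_nhds hp)) LG.smooth2, pb_zero]
  rfl

/-- the derivative of the inverse chart is onto -/
theorem surj {m : ℕ} {Y : Type} [TopologicalSpace Y] [ChartedSpace (E m) Y] [IsManifold (𝓡 m) ∞ Y] (x₀ : Y)
    {z : E m} (hz : z ∈ (chartAt (E m) x₀).target) (v : TangentSpace (𝓡 m) ((chartAt (E m) x₀).symm z)) :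
    ∃ v' : E m, (mfderiv (𝓡 m) (𝓡 m) (chartAt (E m) x₀).symm z : E m →L[ℝ] E m) v' = v := by
  have hm : IsManifold (𝓡 m) 1 Y := IsManifold.of_le (n := ∞) (by simp)
  have h := (mdifferentiable_chart (I := 𝓡 m) x₀).comp_symm_deriv hz
  obtain ⟨D, hD⟩ : ∃ D : E m →L[ℝ] E m, D = mfderiv (𝓡 m) (𝓡 m) (chartAt (E m) x₀).symm z := ⟨_, rfl⟩
  obtain ⟨G, hG⟩ : ∃ G : E m →L[ℝ] E m,
    G = mfderiv (𝓡 m) (𝓡 m) (chartAt (E m) x₀) ((chartAt (E m) x₀).symm z) := ⟨_, rfl⟩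
  have h' : ∀ a, G (D a) = a := by
    intro a
    rw [hG, hD]
    exact congrArg (fun F : E m →L[ℝ] E m => F a) h
  have hi : Function.Injective D.toLinearMap := by
    intro a b hab
    rw [← h' a, ← h' b]
    exact congrArg G hab
  obtain ⟨v', hv'⟩ := LinearMap.surjective_of_injective hi v
  refine ⟨v', ?_⟩
  rw [← hD]
  exact hv'

/-- the exterior derivative is unique -/
theorem unique_D {m k : ℕ} {Y : Type} [TopologicalSpace Y] [ChartedSpace (E m) Y] [IsManifold (𝓡 m) ∞ Y]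
    {a : Form m Y k} {η ζ : Form m Y (k + 1)} (h₁ : IsD a η) (h₂ : IsD a ζ) : η = ζ := by
  funext x
  have key : ∀ z ∈ (chartAt (E m) x).target,
      η ((chartAt (E m) x).symm z) = ζ ((chartAt (E m) x).symm z) := by
    intro z hz
    have h3 := (h₁ _ _ (chartAt (E m) x).open_target contMDiffOn_chart_symm z hz).symm.trans
      (h₂ _ _ (chartAt (E m) x).open_target contMDiffOn_chart_symm z hz)
    ext v
    choose v' hv' using fun i => surj x hz (v i)
    obtain ⟨D, hD⟩ : ∃ D : E m →L[ℝ] E m, D = mfderiv (𝓡 m) (𝓡 m) (chartAt (E m) x).symm z := ⟨_, rfl⟩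
    have h4 : (D ∘ v' : Fin (k + 1) → E m) = v := by
      funext i
      rw [hD]
      exact hv' i
    have h5 := congrArg (fun F : (E m) [⋀^Fin (k + 1)]→L[ℝ] ℝ => F v') h3
    have h6 : (η ((chartAt (E m) x).symm z) : (E m) [⋀^Fin (k + 1)]→L[ℝ] ℝ) (D ∘ v') =
        (ζ ((chartAt (E m) x).symm z) : (E m) [⋀^Fin (k + 1)]→L[ℝ] ℝ) (D ∘ v') := by
      rw [hD]
      exact h5
    have h8 := congrArg (fun a : Fin (k + 1) → E m =>
      (η ((chartAt (E m) x).symm z) : (E m) [⋀^Fin (k + 1)]→L[ℝ] ℝ) a) h4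
    have h9 := congrArg (fun a : Fin (k + 1) → E m =>
      (ζ ((chartAt (E m) x).symm z) : (E m) [⋀^Fin (k + 1)]→L[ℝ] ℝ) a) h4
    exact h8.symm.trans (h6.trans h9)
  have h7 := key _ ((chartAt (E m) x).map_source (mem_chart_source (E m) x))
  rwa [(chartAt (E m) x).left_inv (mem_chart_source (E m) x)] at h7

section
variable {m d : ℕ} {S X : Type} [TopologicalSpace S] [ChartedSpace (E m) S] [TopologicalSpace X]
    [ChartedSpace (E d) X]

theorem pullF_add {k : ℕ} (u : S → X) (σ τ : Form d X k) :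
    (pullF (m := m) u (σ + τ) : Form m S k) = pullF u σ + pullF u τ := by
  funext x
  rfl

theorem pullF_sub {k : ℕ} (u : S → X) (σ τ : Form d X k) :
    (pullF (m := m) u (σ - τ) : Form m S k) = pullF u σ - pullF u τ := by
  funext x
  rfl

theorem pullF_smul {k : ℕ} (u : S → X) (c : ℝ) (σ : Form d X k) :
    (pullF (m := m) u (c • σ) : Form m S k) = c • pullF u σ := by
  funext x
  rfl

theorem pullF_two (u : S → X) (σ : Form d X 2) (x : S) (v w : TangentSpace (𝓡 m) x) :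
    pullF (m := m) u σ x ![v, w] =
      σ (u x) ![mfderiv (𝓡 m) (𝓡 d) u x v, mfderiv (𝓡 m) (𝓡 d) u x w] := by
  have h : ((mfderiv (𝓡 m) (𝓡 d) u x : E m →L[ℝ] E d) ∘ ![v, w] : Fin 2 → E d) =
      ![(mfderiv (𝓡 m) (𝓡 d) u x : E m →L[ℝ] E d) v, (mfderiv (𝓡 m) (𝓡 d) u x : E m →L[ℝ] E d) w] := by
    funext i
    fin_cases i <;> rfl
  exact congrArg (fun a : Fin 2 → E d => (σ (u x) : (E d) [⋀^Fin 2]→L[ℝ] ℝ) a) h

end

end H628A

/-- **A form positive along the curve.**  (Cite the theorems of `NC/Pull.lean`, `NC/ExtOne.lean`,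
`NC/NearZ.lean`, `NC/NearP.lean`, `NC/RadPt.lean`, `NC/Bound.lean`, `NC/ExD.lean`; they are being
proved.)

Proof.  Let `s` be the form in the class of `σ₀` which vanishes on the open set `O₁ ⊇ P` (`zero_near`),
`s - σ₀ = dγ₁`, and `γ`, `ξ` the forms of `pos_near`, `ξ > 0` on the open set `O₂ ⊇ P`.  Let
`W = u ⁻¹' (O₁ ∩ O₂)`, `Q = u ⁻¹' P ⊆ W`.  Put `β₁ = β - pullF u γ₁`; then `dβ₁ = α - pullF u s =: ξ₁`
(`isD_pullF`), and on `W`: `pullF u s = 0`, so `ξ₁ = α` is positive.  `rad_finite` gives `β'`, `ξ'` with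
`dβ' = ξ'`, `ξ' = ξ₁` off `W`, `β' = 0` near `Q` and `0 ≤ ξ'(v, j v)` on `W`.  `ext_curve`: `β' = pullF u b`
with a smooth `b`; let `η` be the exterior derivative of `b`: a smooth two-form with `IsD b η`
(`exists_isD`; it is closed by `closed_of_isD` in `EM/Dual.lean`).  Then `pullF u η = ξ'` (both are exterior derivatives of `β' = pullF u b`).  So
`τ₁ = s + η` is in the class and `pullF u τ₁ = pullF u s + ξ'`, which is `ξ'` on `W` and
`pullF u s + ξ₁ = α` off `W`.  Let `M` be the bound of `bound_by` for `η := pullF u ξ`, and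
`τ = τ₁ + ε • ξ`, `ε = 1 / (|M| + 1)`.  For `u x ∉ P`, `w ≠ 0`: `u_* w ≠ 0` and
`τ (u x) ![u_* w, J (u_* w)] = pullF u τ x ![w, j w]` (`hc.hol`).  If `x ∈ W` it is at least
`ε ξ(u_* w, J u_* w) > 0`.  If `x ∉ W` it is at least `(1 - ε |M|) α(w, j w) > 0`. -/
theorem num_class [T2Space X] [T2Space S] [CompactSpace S] {J : End d X}
    (hJ2 : ∀ (x : X) (v : TangentSpace (𝓡 d) x), J x (J x v) = -v)
    (hJ : ∀ x₀, ContinuousOn (inChart J x₀) (chartAt (E d) x₀).target)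
    {j : End 2 S} {u : S → X} {P : Set X} (hc : Curve J j u P) {σ₀ : Form d X 2}
    (hσ : IsSmooth σ₀) (hcl : IsClosedForm σ₀) {α : Form 2 S 2} {β : Form 2 S 1}
    (hα : IsSmooth α) (hβ : IsSmooth β) (hd : IsD β (α - pullF u σ₀))
    (hpos : ∀ (x : S) (v : TangentSpace (𝓡 2) x), v ≠ 0 → 0 < α x ![v, j x v]) :
    ∃ τ : Form d X 2, InClass σ₀ τ ∧ ∀ x : S, u x ∉ P → ∀ w : TangentSpace (𝓡 2) x, w ≠ 0 →
      0 < τ (u x) ![mfderiv (𝓡 2) (𝓡 d) u x w, J (u x) (mfderiv (𝓡 2) (𝓡 d) u x w)] := by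
  obtain ⟨s, hs, O₁, hO₁, hPO₁, hs0⟩ := zero_near hσ hcl hc.fin
  obtain ⟨γ₁, hγ₁s, hγ₁⟩ := hs.2.2
  obtain ⟨γ, ξ, hγ, hξ, hγξ, O₂, hO₂, hPO₂, hξpos⟩ := pos_near hJ2 hJ hc.fin
  have hW : IsOpen (u ⁻¹' (O₁ ∩ O₂)) := (hO₁.inter hO₂).preimage hc.smooth.continuous
  have hQW : u ⁻¹' P ⊆ u ⁻¹' (O₁ ∩ O₂) := Set.preimage_mono (Set.subset_inter hPO₁ hPO₂)
  -- the form off the curve
  have hps : IsSmooth (pullF (m := 2) u s) := smooth_pullF hc.smooth hs.1
  have hpγ : IsSmooth (pullF (m := 2) u γ₁) := smooth_pullF hc.smooth hγ₁s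
  have hβ₁ : IsSmooth (β + (-1 : ℝ) • pullF (m := 2) u γ₁) := hβ.add (hpγ.smul (-1))
  have hξ₁ : IsSmooth (α + (-1 : ℝ) • pullF (m := 2) u s) := hα.add (hps.smul (-1))
  have hd₁ : IsD (β + (-1 : ℝ) • pullF (m := 2) u γ₁) (α + (-1 : ℝ) • pullF (m := 2) u s) := by
    have h1 : IsD (pullF (m := 2) u γ₁) (pullF u (s - σ₀)) := isD_pullF hc.smooth hγ₁s hγ₁
    have h2 := hd.add (h1.smul (-1)) hβ (hpγ.smul (-1))
    have h3 : α - pullF u σ₀ + (-1 : ℝ) • pullF (m := 2) u (s - σ₀) = α + (-1 : ℝ) • pullF (m := 2) u s := by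
      rw [H628A.pullF_sub]
      module
    rwa [h3] at h2
  have hs0' : ∀ x ∈ u ⁻¹' (O₁ ∩ O₂), pullF (m := 2) u s x = 0 := by
    intro x hx
    unfold pullF
    rw [hs0 (u x) hx.1]
    rfl
  have hpos₁ : ∀ x ∈ u ⁻¹' (O₁ ∩ O₂), ∀ v : TangentSpace (𝓡 2) x, v ≠ 0 →
      0 < (α + (-1 : ℝ) • pullF (m := 2) u s) x ![v, j x v] := by
    intro x hx v hv
    have h1 : (α + (-1 : ℝ) • pullF (m := 2) u s) x = α x := by
      show α x + (-1 : ℝ) • pullF (m := 2) u s x = α x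
      rw [hs0' x hx, smul_zero, add_zero]
    rw [h1]
    exact hpos x v hv
  obtain ⟨β', ξ', hβ', hξ', hD', hoff, ⟨O, hO, hQO, hO0⟩, hnn⟩ :=
    rad_finite hβ₁ hξ₁ hd₁ hc.finp hW hQW hpos₁
  obtain ⟨b, hb, hbβ⟩ := ext_curve hc hβ' hO hQO hO0
  obtain ⟨η, hη, hbη⟩ := exists_isD hb
  have hηξ : pullF (m := 2) u η = ξ' := by
    have h1 : IsD (pullF (m := 2) u b) (pullF u η) := isD_pullF hc.smooth hb hbη
    rw [hbβ] at h1
    exact H628A.unique_D h1 hD'
  obtain ⟨M, hM⟩ := bound_by hα (smooth_pullF (m := 2) hc.smooth hξ) hpos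
  have hε : 0 < 1 / (|M| + 1) := by positivity
  refine ⟨s + η + (1 / (|M| + 1)) • ξ, ⟨(hs.1.add hη).add (hξ.smul _), ?_, γ₁ + b + (1 / (|M| + 1)) • γ,
    (hγ₁s.add hb).add (hγ.smul _), ?_⟩, ?_⟩
  · have h1 := IsD.add hs.2.1 (H628A.closed_D hb hbη) hs.1 hη
    have h2 := h1.add (IsD.smul (H628A.closed_D hγ hγξ) (1 / (|M| + 1))) (hs.1.add hη) (hξ.smul _)
    rw [smul_zero, add_zero, add_zero] at h2
    exact h2
  · have h1 := (hγ₁.add hbη hγ₁s hb).add (hγξ.smul (1 / (|M| + 1))) (hγ₁s.add hb) (hγ.smul _)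
    have h2 : s - σ₀ + η + (1 / (|M| + 1)) • ξ = s + η + (1 / (|M| + 1)) • ξ - σ₀ := by
      abel
    rwa [h2] at h1
  · intro x hx w hw
    have hw' : mfderiv (𝓡 2) (𝓡 d) u x w ≠ 0 := by
      intro h
      apply hw
      apply hc.imm x hx
      rw [h, map_zero]
    rw [← hc.hol x w, ← H628A.pullF_two, H628A.pullF_add, H628A.pullF_add, H628A.pullF_smul, hηξ]
    have hexp : (pullF (m := 2) u s + ξ' + (1 / (|M| + 1)) • pullF (m := 2) u ξ) x ![w, j x w] =
        pullF (m := 2) u s x ![w, j x w] + ξ' x ![w, j x w] + (1 / (|M| + 1)) * pullF (m := 2) u ξ x ![w, j x w] := rfl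
    rw [hexp]
    by_cases hxW : x ∈ u ⁻¹' (O₁ ∩ O₂)
    · have h1 : pullF (m := 2) u s x ![w, j x w] = 0 := by
        rw [hs0' x hxW]
        rfl
      have h2 := hnn x hxW w
      have h3 : 0 < pullF (m := 2) u ξ x ![w, j x w] := by
        rw [H628A.pullF_two, hc.hol x w]
        exact hξpos (u x) hxW.2 _ hw'
      have h4 := mul_pos hε h3
      linarith
    · have h1 : ξ' x ![w, j x w] = α x ![w, j x w] - pullF (m := 2) u s x ![w, j x w] := by
        rw [hoff x hxW]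
        show α x ![w, j x w] + (-1 : ℝ) * pullF (m := 2) u s x ![w, j x w] = _
        ring
      have h2 := hM x w
      have h3 := hpos x w hw
      have h4 : |pullF (m := 2) u ξ x ![w, j x w]| ≤ |M| * α x ![w, j x w] :=
        h2.trans (mul_le_mul_of_nonneg_right (le_abs_self M) h3.le)
      have h5 := neg_abs_le (pullF (m := 2) u ξ x ![w, j x w])
      have h6 : (1 / (|M| + 1)) * (-(|M| * α x ![w, j x w])) ≤
          (1 / (|M| + 1)) * pullF (m := 2) u ξ x ![w, j x w] :=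
        mul_le_mul_of_nonneg_left (by linarith) hε.le
      have h7 : (1 / (|M| + 1)) * (-(|M| * α x ![w, j x w])) + α x ![w, j x w] =
          (1 / (|M| + 1)) * α x ![w, j x w] := by
        field_simp
        ring
      have h8 := mul_pos hε h3
      rw [h1]
      linarith

end Pool.Agent.H819.NC
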