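import Mathlib
import Pool.Agent.H819.EM.Fin
import Pool.Agent.H819.NC.Asm
import Pool.Agent.H819.NC.Along

/-!
# The numerical criterion
-/

set_option autoImplicit false

open Set Filter Topology MeasureTheory Metric
open scoped Manifold ContDiff ENNReal NNReal

noncomputable section

namespace Pool.Agent.H819.NC

open Pool.Agent.Y501.SY
open Pool.Agent.H819
open Pool.Agent.H819.LN
open Pool.Agent.H819.HN (HN HN.mono)
open Pool.Agent.H819.EM (Along PositiveChain em_criterion)
open Pool.Agent.H819.LG (InClass TamedIn Represents StronglyTames LocHolder)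

variable {d : ℕ} {X : Type} [TopologicalSpace X] [ChartedSpace (E d) X]

/-- `C` is the image of a closed pseudoholomorphic curve on which the class of `σ₀` is positive,
together with a finite set, and `J` is smooth near `C`. -/
def PosCurve (σ₀ : Form d X 2) (J : End d X) (C : Set X) : Prop :=
  (∀ p ∈ C, ∀ᶠ z in 𝓝 (chartAt (E d) p p), ContDiffAt ℝ ∞ (inChart J p) z) ∧
  ∃ (S : Type) (_ : TopologicalSpace S) (_ : ChartedSpace (E 2) S) (_ : IsManifold (𝓡 2) ∞ S)
    (_ : CompactSpace S) (_ : T2Space S) (j : End 2 S) (u : S → X) (P : Set X) (α : Form 2 S 2)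
    (β : Form 2 S 1), Curve J j u P ∧ C = range u ∪ P ∧ IsSmooth α ∧ IsSmooth β ∧
      IsD β (α - pullF u σ₀) ∧
      ∀ (x : S) (v : TangentSpace (𝓡 2) x), v ≠ 0 → 0 < α x ![v, j x v]

/-- A chain of closed sets `C 0 ⊆ … ⊆ C n`, such that `C 0` is the image of a closed
pseudoholomorphic curve on which the class is positive, and along `C (i + 1) \ C i` some form in the
class is positive. -/
structure CurveChain (σ₀ : Form d X 2) (J : End d X) (n : ℕ) (C : ℕ → Set X) : Prop where
  bot : PosCurve σ₀ J (C 0)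
  closed : ∀ i, i ≤ n → IsClosed (C i)
  mono : ∀ i, i < n → C i ⊆ C (i + 1)
  pos : ∀ i, i < n → ∃ τ : Form d X 2, InClass σ₀ τ ∧ Along J τ (C i) (C (i + 1))

variable [IsManifold (𝓡 d) ∞ X]

theorem inClass_refl {σ : Form d X 2} (h1 : IsSmooth σ) (h2 : IsClosedForm σ) : InClass σ σ := by
  refine ⟨h1, h2, 0, ?_, ?_⟩
  · intro U φ hU hφ
    have h3 : pb φ (0 : Form d X 1) = fun _ => 0 := by
      funext p
      ext v
      rfl
    rw [h3]
    exact contDiffOn_const
  · have h4 : (σ - σ : Form d X 2) = 0 := sub_self σ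
    rw [h4]
    exact IsD.zero

/-- the chain of the singular points, the curve and the further strata -/
theorem chain_of_curve [T2Space X] {J : End d X}
    (hJ2 : ∀ (x : X) (v : TangentSpace (𝓡 d) x), J x (J x v) = -v)
    (hJ : ∀ x₀, ContinuousOn (inChart J x₀) (chartAt (E d) x₀).target)
    {σ₀ : Form d X 2} (hσ : IsSmooth σ₀) (hcl : IsClosedForm σ₀) {n : ℕ} {C : ℕ → Set X}
    (hC : CurveChain σ₀ J n C) : ∃ C' : ℕ → Set X, PositiveChain σ₀ J (n + 2) C' ∧
      C' (n + 2) = C n := by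
  obtain ⟨hsm, S, _, _, _, _, _, j, u, P, α, β, hc, hC0, hα, hβ, hd, hpos⟩ := hC.bot
  obtain ⟨τ, hτ1, hτ2⟩ := num_class hJ2 hJ hc hσ hcl hα hβ hd hpos
  have hPC : P ⊆ C 0 := by
    rw [hC0]
    exact subset_union_right
  let C' : ℕ → Set X := fun i => match i with
    | 0 => ∅
    | 1 => P
    | (i + 2) => C i
  refine ⟨C', ⟨rfl, ?_, ?_, ?_⟩, rfl⟩
  · intro i hi
    match i, hi with
    | 0, _ => exact isClosed_empty
    | 1, _ => exact hc.fin.isClosed
    | (i + 2), hi => exact hC.closed i (by omega)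
  · intro i hi
    match i, hi with
    | 0, _ => exact empty_subset _
    | 1, _ => exact hPC
    | (i + 2), hi => exact hC.mono i (by omega)
  · intro i hi
    match i, hi with
    | 0, _ => exact ⟨σ₀, inClass_refl hσ hcl, along_points σ₀ hc.fin fun p hp => hsm p (hPC hp)⟩
    | 1, _ =>
      refine ⟨τ, hτ1, ?_⟩
      show Along J τ P (C 0)
      rw [hC0]
      refine along_curve hc (fun x => hsm _ ?_) hτ2
      rw [hC0]
      exact Or.inl (mem_range_self x)
    | (i + 2), hi => exact hC.pos i (by omega)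

/-- the empty chain -/
theorem posCurve_empty (σ₀ : Form d X 2) (J : End d X) : PosCurve σ₀ J ∅ := by
  refine ⟨fun p hp => absurd hp (notMem_empty p), PEmpty, ⊥, ?_⟩
  letI t : TopologicalSpace PEmpty := ⊥
  haveI : DiscreteTopology PEmpty := ⟨rfl⟩
  letI cs : ChartedSpace (E 2) PEmpty := ChartedSpace.empty (E 2) PEmpty
  haveI : IsManifold (𝓡 2) ∞ PEmpty := by
    refine isManifold_of_contDiffOn (𝓡 2) ∞ PEmpty fun e e' he _ => ?_
    exact absurd he (notMem_empty e)
  refine ⟨cs, inferInstance, inferInstance, inferInstance, fun x => x.elim, fun x => x.elim, ∅,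
    fun x => x.elim, fun x => x.elim, ⟨?_, fun x => x.elim, finite_empty, ?_, fun x => x.elim,
      fun x => x.elim⟩, ?_, ?_, ?_, ?_, fun x => x.elim⟩
  · exact fun x => x.elim
  · rw [preimage_empty]
    exact finite_empty
  · rw [union_empty]
    exact (range_eq_empty _).symm
  · intro U φ _ _ p
    exact (φ p).elim
  · intro U φ _ _ p
    exact (φ p).elim
  · intro U φ _ _ p
    exact (φ p).elim

theorem num_criterion [T2Space X] [CompactSpace X] (hd : 2 ≤ d) {J : End d X}
    (hJ2 : ∀ (x : X) (v : TangentSpace (𝓡 d) x), J x (J x v) = -v)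
    (hJ : ∀ x₀, ContinuousOn (inChart J x₀) (chartAt (E d) x₀).target)
    (hJL : LocHolder J 1) {σ₀ : Form d X 2} (hσ : IsSmooth σ₀) (hcl : IsClosedForm σ₀) :
    TamedIn σ₀ J ↔ ∃ θ, Represents σ₀ θ ∧ StronglyTames θ J ∧
      ∃ S : Set X, IsClosed S ∧ IsTotallyDisconnected S ∧
        (∀ p ∈ S, ContDiffAt ℝ 1 (inChart J p) (chartAt (E d) p p)) ∧
        ∃ (n : ℕ) (C : ℕ → Set X), CurveChain σ₀ J n C ∧
          HN (d := d) 2 {p | p ∉ S ∧ p ∉ C n ∧ ¬ ZeroLelong θ p} := by
  constructor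
  · intro h
    obtain ⟨θ, h1, h2, S, h3, h4, h5, n, C, h6, h7⟩ := (em_criterion hd hJ2 hJ hJL hσ hcl).1 h
    refine ⟨θ, h1, h2, S, h3, h4, h5, n, C, ⟨?_, h6.closed, h6.mono, h6.pos⟩, h7⟩
    rw [h6.bot]
    exact posCurve_empty σ₀ J
  · rintro ⟨θ, h1, h2, S, h3, h4, h5, n, C, h6, h7⟩
    obtain ⟨C', h8, h9⟩ := chain_of_curve hJ2 hJ hσ hcl h6
    refine (em_criterion hd hJ2 hJ hJL hσ hcl).2 ⟨θ, h1, h2, S, h3, h4, h5, n + 2, C', h8, ?_⟩
    rw [h9]
    exact h7

end Pool.Agent.H819.NC
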