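import Mathlib
import Pool.Agent.H819.NC.Pub
import Pool.Agent.H819.NC.Fin
import Pool.Agent.H819.EM.Br

/-!
# Comparison of the definitions
-/

set_option autoImplicit false

open Set Filter Topology MeasureTheory Metric
open scoped Manifold ContDiff ENNReal NNReal

noncomputable section

namespace Pool.Agent.H819.NCP

open Pool.Agent.Y501 (SY.E)
open Pool.Agent.Y501.SYP Pool.Agent.H819.LGP Pool.Agent.H819.LNP Pool.Agent.H819.HNP
open Pool.Agent.H819.EMP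
open Pool.Agent

variable {d : ℕ} {X : Type} [TopologicalSpace X] [ChartedSpace (ES d) X]

attribute [local instance] cs

theorem curve_of {σ₀ : Form (ES d) X 2} {J : End (ES d) X} {C : Set X}
    (h : PositiveCurve σ₀ J C) : NC.PosCurve (d := d) (X := X) σ₀ J C := by
  obtain ⟨h1, S, t, c, m, k, t2, j, u, P, -, hu, hC, w, hw, β, hβ, hd⟩ := h
  have hm : IsManifold (𝓡 2) ∞ S := m
  refine ⟨h1, S, t, cs 2 S, hm, k, t2, j, u, P, w, β, ⟨hu.smooth, hu.hol, hu.finite,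
    hu.finite_preimage, hu.injective, hu.immersion⟩, hC, (smooth_iff w).1 hw.smooth,
    (smooth_iff β).1 hβ, (isD_iff β _).1 hd, hw.tames⟩

theorem curve_empty (σ₀ : Form (ES d) X 2) (J : End (ES d) X) : PositiveCurve σ₀ J ∅ := by
  refine ⟨fun p hp => absurd hp (notMem_empty p), PEmpty, ⊥, ?_⟩
  letI t : TopologicalSpace PEmpty := ⊥
  haveI : DiscreteTopology PEmpty := ⟨rfl⟩
  letI cs0 : ChartedSpace (ES 2) PEmpty := ChartedSpace.empty (ES 2) PEmpty
  haveI : IsManifold 𝓘(ℝ, ES 2) ∞ PEmpty := by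
    refine isManifold_of_contDiffOn 𝓘(ℝ, ES 2) ∞ PEmpty fun e e' he _ => ?_
    exact absurd he (notMem_empty e)
  refine ⟨cs0, inferInstance, inferInstance, inferInstance, fun x => x.elim, fun x => x.elim, ∅,
    ⟨fun x => x.elim, fun x => x.elim⟩, ⟨fun x => x.elim, fun x => x.elim, finite_empty, ?_,
      fun x => x.elim, fun x => x.elim⟩, ?_, fun x => x.elim, ⟨?_, ?_, fun x => x.elim,
      fun x => x.elim⟩, fun x => x.elim, ?_, ?_⟩
  · rw [preimage_empty]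
    exact finite_empty
  · rw [union_empty]
    exact (range_eq_empty _).symm
  · intro U φ _ p
    exact (φ p).elim
  · intro U φ _ p
    exact (φ p).elim
  · intro U φ _ p
    exact (φ p).elim
  · intro U φ _ p
    exact (φ p).elim

theorem chain_of {σ₀ : Form (ES d) X 2} {J : End (ES d) X} {n : ℕ} {C : ℕ → Set X}
    (h : NumericalChain σ₀ J n C) : NC.CurveChain (d := d) (X := X) σ₀ J n C := by
  refine ⟨curve_of h.curve, h.closed, h.mono, fun i hi => ?_⟩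
  obtain ⟨τ, h1, h2⟩ := h.pos i hi
  exact ⟨τ, (inClass_iff σ₀ τ).1 h1, (along_iff J τ _ _).1 h2⟩

theorem result_aux (hd : 2 ≤ d) [IsManifold 𝓘(ℝ, ES d) ∞ X] [CompactSpace X] [T2Space X]
    {J : End (ES d) X} (hJ : IsAlmostComplex J) (hJL : LocHolder J 1) {σ₀ : Form (ES d) X 2}
    (hσ : IsSmooth σ₀) (hcl : IsClosedForm σ₀) :
    (∀ θ, Represents (leb d) σ₀ θ → StronglyTames (leb d) θ J → BoundedDensity (leb d) d θ ∧
      HausdorffNull (V := ES d) ((d : ℝ) - 2) {p | lelong (leb d) d θ p ≠ 0}) ∧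
    (TamedIn σ₀ J ↔ ∃ θ, Represents (leb d) σ₀ θ ∧ StronglyTames (leb d) θ J ∧
      ∃ S : Set X, IsClosed S ∧ IsTotallyDisconnected S ∧ (∀ p ∈ S, C1At J p) ∧
        ∃ (n : ℕ) (C : ℕ → Set X), NumericalChain σ₀ J n C ∧
          HausdorffNull (V := ES d) 2 {p | p ∉ S ∧ p ∉ C n ∧ lelong (leb d) d θ p ≠ 0}) ∧
    (d ≤ 4 → (TamedIn σ₀ J ↔ ∃ θ, Represents (leb d) σ₀ θ ∧ StronglyTames (leb d) θ J)) := by
  have hm : IsManifold (𝓡 d) ∞ X := (inferInstance : IsManifold 𝓘(ℝ, ES d) ∞ X)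
  obtain ⟨h1, h2, h3⟩ := EMP.result_aux hd hJ hJL hσ hcl
  refine ⟨h1, ⟨fun h => ?_, ?_⟩, h3⟩
  · obtain ⟨θ, k1, k2, S, k3, k4, k5, n, C, k6, k7⟩ := h2.1 h
    refine ⟨θ, k1, k2, S, k3, k4, k5, n, C, ⟨?_, k6.closed, k6.mono, k6.pos⟩, k7⟩
    rw [k6.bot]
    exact curve_empty σ₀ J
  · rintro ⟨θ, k1, k2, S, k3, k4, k5, n, C, k6, k7⟩
    rw [tamed_iff]
    refine (H819.NC.num_criterion (d := d) (X := X) hd hJ.sq (cont_of hJ)
      ((holder_iff J 1).1 hJL) ((smooth_iff σ₀).1 hσ) ((closed_iff σ₀).1 hcl)).2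
      ⟨θ, (rep_iff σ₀ θ).1 k1, (strong_iff θ J).1 k2, S, k3, k4, k5, n, C, chain_of k6, ?_⟩
    simp only [lelong_ne, null_iff] at k7
    exact k7

end Pool.Agent.H819.NCP
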